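import Pool.Agent.Hex.Gcell

/-!
Module `Acc1` (splitting the energy of a point).  Uses `mem_nbF`, `ch_spec`.

PROOF.  All sums are in `ℝ≥0∞`; `W = {3 ≤ nrm p}`.  The points `ch X u x (lat p)` (`p ∈ W`,
`Perf X u p x`, by `ch_spec` with `q = g = p`) are points of `X`, within `1/100` of
`x + u x lat p`, pairwise distinct (the `lat p` are `≥ 1` apart, `one_le_norm_lat_sub`), at distance
`≥ √3 - 1/100 > aa` from `x`, so they are `≠ x` and not in `nbF X x`.  So the left side is a sum of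
`‖y-x‖^{-s}` over distinct `y ∈ X \ {x}`.  (E.g. inject `{y // y ∈ nbF X x} ⊕ {p : W // Perf X u p x}`
into `{y // y ∈ X ∧ y ≠ x}` and use `ENNReal.tsum_comp_le_tsum_of_injective`,
`tsum_sum`/`Summable.tsum_sum`, `ENNReal.ofReal_sum_of_nonneg`; terms with `¬ Perf` vanish.)
-/

open MeasureTheory Set
open scoped ENNReal

namespace Pool.Agent.Hex

open Classical in
/-- Interaction of `x` with the single chart point at `lat p`, if `x` is perfect at scale `p`. -/
noncomputable def single (s : ℝ) (X : Set ℂ) (u : ℂ → ℂ) (p : ℤ × ℤ) (x : ℂ) : ℝ :=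
  if Perf X u p x then ‖ch X u x (lat p) - x‖ ^ (-s) else 0

lemma Acc1_spec {X : Set ℂ} {u : ℂ → ℂ} {x : ℂ} {p : ℤ × ℤ} 
    (hp : Perf X u p x) : ch X u x (lat p) ∈ X ∧ ‖ch X u x (lat p) - x - u x * lat p‖ ≤ 1 / 100 :=
  ch_spec hp (by have := nrm_nonneg p; linarith)

lemma Acc1_far {X : Set ℂ} {u : ℂ → ℂ} (hu : ∀ z, ‖u z‖ = 1) {x : ℂ} {p : ℤ × ℤ} (h3 : 3 ≤ nrm p)
    (hp : Perf X u p x) : aa < ‖ch X u x (lat p) - x‖ := by
  have h1 := (Acc1_spec hp).2
  have h2 : ‖u x * lat p‖ = ‖lat p‖ := by rw [norm_mul, hu, one_mul]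
  have h4 := norm_lat_ge_sqrt3 h3
  have h5 : ‖u x * lat p‖ ≤ ‖ch X u x (lat p) - x‖ + ‖ch X u x (lat p) - x - u x * lat p‖ := by
    have : u x * lat p = (ch X u x (lat p) - x) - (ch X u x (lat p) - x - u x * lat p) := by ring
    conv_lhs => rw [this]
    exact norm_sub_le _ _
  have := sqrt3_gt
  have := aa_lt
  linarith

lemma Acc1_inj {X : Set ℂ} {u : ℂ → ℂ} (hu : ∀ z, ‖u z‖ = 1) {x : ℂ} {p q : ℤ × ℤ} 
    (hp : Perf X u p x) (hq : Perf X u q x) (h : ch X u x (lat p) = ch X u x (lat q)) : p = q := by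
  by_contra hne
  have h1 := (Acc1_spec hp).2
  have h2 := (Acc1_spec hq).2
  rw [← h] at h2
  have h3 := one_le_norm_lat_sub hne
  have h4 : ‖u x * (lat p - lat q)‖ = ‖lat p - lat q‖ := by rw [norm_mul, hu, one_mul]
  have h5 : ‖u x * (lat p - lat q)‖ ≤ ‖ch X u x (lat p) - x - u x * lat q‖ +
      ‖ch X u x (lat p) - x - u x * lat p‖ := by
    have : u x * (lat p - lat q) = (ch X u x (lat p) - x - u x * lat q) -
      (ch X u x (lat p) - x - u x * lat p) := by ring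
    rw [this]
    exact norm_sub_le _ _
  linarith

theorem acc_one {X : Set ℂ} (hX : Sep X) {s : ℝ} {u : ℂ → ℂ}
    (hu : ∀ z, ‖u z‖ = 1) {x : ℂ} (hx : x ∈ X) :
    ENNReal.ofReal (∑ y ∈ nbF X x, ‖y - x‖ ^ (-s)) +
      ∑' p : {p : ℤ × ℤ // 3 ≤ nrm p}, ENNReal.ofReal (single s X u p x) ≤ en s X x := by
  classical
  set f : ℂ → ℝ≥0∞ := fun y => ENNReal.ofReal (‖y - x‖ ^ (-s)) with hf
  set A : Set ℂ := {y | y ∈ X ∧ y ≠ x} with hA
  set g : {p : ℤ × ℤ // 3 ≤ nrm p ∧ Perf X u p x} → ℂ := fun p => ch X u x (lat p) with hg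
  have hginj : Function.Injective g := by
    intro p q h
    exact Subtype.ext (Acc1_inj hu p.2.2 q.2.2 h)
  have h1 : ENNReal.ofReal (∑ y ∈ nbF X x, ‖y - x‖ ^ (-s)) =
      ∑' y : ((nbF X x : Finset ℂ) : Set ℂ), f y := by
    rw [Finset.tsum_subtype', ENNReal.ofReal_sum_of_nonneg]
    intro y _
    positivity
  have h2 : ∑' p : {p : ℤ × ℤ // 3 ≤ nrm p}, ENNReal.ofReal (single s X u p x) =
      ∑' y : Set.range g, f y := by
    rw [tsum_range f hginj]
    have e1 := tsum_subtype {p : ℤ × ℤ | 3 ≤ nrm p} (fun p => ENNReal.ofReal (single s X u p x))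
    have e2 := tsum_subtype {p : ℤ × ℤ | 3 ≤ nrm p ∧ Perf X u p x} (fun p => f (ch X u x (lat p)))
    refine Eq.trans e1 (Eq.trans ?_ e2.symm)
    refine tsum_congr fun p => ?_
    by_cases a : 3 ≤ nrm p <;> by_cases b : Perf X u p x
    · simp [Set.indicator, a, b, single, hf]
    · simp [Set.indicator, a, b, single]
    · simp [Set.indicator, a]
    · simp [Set.indicator, a]
  have hdisj : Disjoint ((nbF X x : Finset ℂ) : Set ℂ) (Set.range g) := by
    rw [Set.disjoint_left]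
    rintro y hy ⟨p, rfl⟩
    have h3 := ((mem_nbF hX).1 (Finset.mem_coe.1 hy)).2.2
    have h4 := Acc1_far hu p.2.1 p.2.2
    simp only [hg] at h3
    linarith
  have hsub : ((nbF X x : Finset ℂ) : Set ℂ) ∪ Set.range g ⊆ A := by
    rintro y (hy | ⟨p, rfl⟩)
    · have h3 := (mem_nbF hX).1 (Finset.mem_coe.1 hy)
      exact ⟨h3.1, h3.2.1⟩
    · refine ⟨(Acc1_spec p.2.2).1, fun h => ?_⟩
      have h4 := Acc1_far hu p.2.1 p.2.2
      have h5 := aa_pos
      simp only [hg] at h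
      rw [h, sub_self, norm_zero] at h4
      linarith
  rw [h1, h2, ← Summable.tsum_union_disjoint hdisj ENNReal.summable ENNReal.summable]
  exact ENNReal.tsum_mono_subtype f hsub

end Pool.Agent.Hex
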