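import Pool.Agent.Hex.Acc1

/-!
Module `Acc2`.  Uses `acc_one`.

PROOF.  `W = {3 ≤ nrm p}`.  `Perf X u p x` depends only on `nrm p` (note
`‖lat p‖ = √(nrm p)`), and `lat p * om^j = lat (rot^[j] p)`, `nrm (rot^[j] p) = nrm p`, so
`shE s X u p x = Σ_{j<6} single s X u (rot^[j] p) x`.  For each `j` the map `rot^[j]` is a
bijection of `W` (inverse `rot^[6-j]`, `rot_six`), so
`Σ'_p ofReal (single (rot^[j] p)) = Σ'_p ofReal (single p)` (`Equiv.tsum_eq`).  Hence
`Σ'_p ofReal (shE s X u p x) = 6 Σ'_p ofReal (single p)` (`acc_six`); multiply `acc_one` by 6.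
-/

open MeasureTheory Set
open scoped ENNReal

namespace Pool.Agent.Hex

private theorem tsum_rot (F : ℤ × ℤ → ℝ≥0∞) :
    ∑' p : {p : ℤ × ℤ // 3 ≤ nrm p}, F (rot p) = ∑' p : {p : ℤ × ℤ // 3 ≤ nrm p}, F p := by
  let e : {p : ℤ × ℤ // 3 ≤ nrm p} ≃ {p : ℤ × ℤ // 3 ≤ nrm p} :=
    { toFun := fun p => ⟨rot p, by rw [nrm_rot]; exact p.2⟩
      invFun := fun p => ⟨rot^[5] p, by rw [nrm_rot_iter]; exact p.2⟩
      left_inv := by
        intro p
        apply Subtype.ext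
        show rot^[5] (rot p) = p
        rw [← Function.iterate_succ_apply]
        exact rot_six p
      right_inv := by
        intro p
        apply Subtype.ext
        exact (Function.iterate_succ_apply' rot 5 (p : ℤ × ℤ)).symm.trans (rot_six p) }
  exact e.tsum_eq (fun p => F p)

private theorem tsum_rot_iter (F : ℤ × ℤ → ℝ≥0∞) (j : ℕ) :
    ∑' p : {p : ℤ × ℤ // 3 ≤ nrm p}, F (rot^[j] p) = ∑' p : {p : ℤ × ℤ // 3 ≤ nrm p}, F p := by
  induction j with
  | zero => rfl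
  | succ n ih =>
    simp only [Function.iterate_succ_apply]
    rw [tsum_rot (fun p => F (rot^[n] p))]
    exact ih

private theorem perf_iter (X : Set ℂ) (u : ℂ → ℂ) (p : ℤ × ℤ) (j : ℕ) (x : ℂ) :
    Perf X u (rot^[j] p) x ↔ Perf X u p x := by
  unfold Perf
  rw [nrm_rot_iter, norm_lat, norm_lat, nrm_rot_iter]

private theorem shE_eq (s : ℝ) (X : Set ℂ) (u : ℂ → ℂ) (p : ℤ × ℤ) (x : ℂ) :
    shE s X u p x = ∑ j ∈ Finset.range 6, single s X u (rot^[j] p) x := by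
  unfold shE single
  by_cases h : Perf X u p x
  · rw [if_pos h]
    apply Finset.sum_congr rfl
    intro j _
    rw [if_pos ((perf_iter X u p j x).2 h), lat_rot_iter]
  · rw [if_neg h]
    symm
    apply Finset.sum_eq_zero
    intro j _
    rw [if_neg (fun h' => h ((perf_iter X u p j x).1 h'))]

private theorem single_nonneg (s : ℝ) (X : Set ℂ) (u : ℂ → ℂ) (p : ℤ × ℤ) (x : ℂ) :
    0 ≤ single s X u p x := by
  unfold single
  split_ifs
  · exact Real.rpow_nonneg (norm_nonneg _) _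
  · exact le_refl _

theorem acc_six (s : ℝ) (X : Set ℂ) (u : ℂ → ℂ) (x : ℂ) :
    ∑' p : {p : ℤ × ℤ // 3 ≤ nrm p}, ENNReal.ofReal (shE s X u p x) =
      6 * ∑' p : {p : ℤ × ℤ // 3 ≤ nrm p}, ENNReal.ofReal (single s X u p x) := by
  have h1 : ∀ p : {p : ℤ × ℤ // 3 ≤ nrm p}, ENNReal.ofReal (shE s X u p x) =
      ∑ j ∈ Finset.range 6, ENNReal.ofReal (single s X u (rot^[j] p) x) := by
    intro p
    rw [shE_eq, ENNReal.ofReal_sum_of_nonneg]
    intro j _
    exact single_nonneg _ _ _ _ _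
  simp only [h1]
  rw [Summable.tsum_finsetSum (fun i _ => ENNReal.summable)]
  have h2 : ∀ j ∈ Finset.range 6, ∑' p : {p : ℤ × ℤ // 3 ≤ nrm p},
      ENNReal.ofReal (single s X u (rot^[j] p) x) =
      ∑' p : {p : ℤ × ℤ // 3 ≤ nrm p}, ENNReal.ofReal (single s X u p x) := by
    intro j _
    exact tsum_rot_iter (fun p => ENNReal.ofReal (single s X u p x)) j
  rw [Finset.sum_congr rfl h2, Finset.sum_const, Finset.card_range, nsmul_eq_mul]
  norm_num

theorem account {X : Set ℂ} (hX : Sep X) {s : ℝ} {u : ℂ → ℂ}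
    (hu : ∀ z, ‖u z‖ = 1) {x : ℂ} (hx : x ∈ X) :
    6 * ENNReal.ofReal (∑ y ∈ nbF X x, ‖y - x‖ ^ (-s)) +
      ∑' p : {p : ℤ × ℤ // 3 ≤ nrm p}, ENNReal.ofReal (shE s X u p x) ≤ 6 * en s X x := by
  rw [acc_six, ← mul_add]
  exact mul_le_mul_right (acc_one hX hu hx) 6

end Pool.Agent.Hex
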