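import Pool.Agent.Hex.Basic

/-!
Module `Arcs` (pigeonhole on the circle).
-/

open MeasureTheory Set
open scoped ENNReal ComplexConjugate

namespace Pool.Agent.Hex

private lemma re_exp (a b : ℝ) :
    (Complex.exp (a * Complex.I) * conj (Complex.exp (b * Complex.I))).re = Real.cos (a - b) := by
  rw [← Complex.exp_conj, map_mul, Complex.conj_ofReal, Complex.conj_I, ← Complex.exp_add]
  have : (a : ℂ) * Complex.I + b * -Complex.I = ((a - b : ℝ) : ℂ) * Complex.I := by
    push_cast; ring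
  rw [this, Complex.exp_ofReal_mul_I_re]

theorem arcs (n : ℕ) (hn : 2 ≤ n) (v : Fin n → ℂ) (hv : ∀ i, ‖v i‖ = 1) :
    ∃ i j, i ≠ j ∧ Real.cos (2 * Real.pi / n) ≤ (v i * conj (v j)).re := by
  have hpi := Real.pi_pos
  have hn0 : 0 < n := by omega
  have : NeZero n := ⟨by omega⟩
  have hnR : (2 : ℝ) ≤ n := by exact_mod_cast hn
  have hnpos : (0 : ℝ) < n := by linarith
  have hdiv : 2 * Real.pi / n ≤ Real.pi := by
    rw [div_le_iff₀ hnpos]; nlinarith
  have hdivpos : 0 < 2 * Real.pi / n := by positivity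
  -- angles
  have hex : ∀ i, ∃ θ : ℝ, 0 ≤ θ ∧ θ < 2 * Real.pi ∧
      v i = v 0 * Complex.exp (θ * Complex.I) := by
    intro i
    have h0 : v 0 ≠ 0 := by
      intro h; have := hv 0; rw [h, norm_zero] at this; exact zero_ne_one this
    refine ⟨toIcoMod Real.two_pi_pos 0 (Complex.arg (v i / v 0)), ?_, ?_, ?_⟩
    · exact (toIcoMod_mem_Ico Real.two_pi_pos 0 _).1
    · have := (toIcoMod_mem_Ico Real.two_pi_pos 0 (Complex.arg (v i / v 0))).2
      simpa using this
    · have h1 : Complex.exp (((toIcoMod Real.two_pi_pos 0 (Complex.arg (v i / v 0)) : ℝ) : ℂ) *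
          Complex.I) = Complex.exp (Complex.arg (v i / v 0) * Complex.I) := by
        rw [toIcoMod]
        rw [Complex.exp_eq_exp_iff_exists_int]
        refine ⟨-toIcoDiv Real.two_pi_pos 0 (Complex.arg (v i / v 0)), ?_⟩
        push_cast
        simp only [zsmul_eq_mul]
        push_cast
        ring
      rw [h1]
      have h2 := Complex.norm_mul_exp_arg_mul_I (v i / v 0)
      rw [norm_div, hv, hv, div_one, Complex.ofReal_one, one_mul] at h2
      rw [h2]
      field_simp
  choose θ ht0 ht1 hθ using hex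
  have hre : ∀ i j, (v i * conj (v j)).re = Real.cos (θ i - θ j) := by
    intro i j
    rw [hθ i, hθ j, map_mul]
    have : v 0 * Complex.exp (θ i * Complex.I) * (conj (v 0) * conj (Complex.exp (θ j * Complex.I)))
        = (v 0 * conj (v 0)) * (Complex.exp (θ i * Complex.I) * conj (Complex.exp (θ j * Complex.I))) := by
      ring
    rw [this, Complex.mul_conj, Complex.normSq_eq_norm_sq, hv]
    rw [one_pow, Complex.ofReal_one, one_mul, re_exp]
  have hθ0 : θ 0 = 0 := by
    have h0 : v 0 ≠ 0 := by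
      intro h; have := hv 0; rw [h, norm_zero] at this; exact zero_ne_one this
    have h1 : Complex.exp (θ 0 * Complex.I) = 1 := by
      have := hθ 0
      have h2 : v 0 * 1 = v 0 * Complex.exp (θ 0 * Complex.I) := by rw [mul_one]; exact this
      exact (mul_left_cancel₀ h0 h2).symm
    rw [Complex.exp_eq_one_iff] at h1
    obtain ⟨k, hk⟩ := h1
    have h3 : θ 0 = k * (2 * Real.pi) := by
      have h4 : ((θ 0 : ℝ) : ℂ) = ((k * (2 * Real.pi) : ℝ) : ℂ) := by
        have hI := Complex.I_ne_zero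
        apply mul_right_cancel₀ hI
        rw [hk]; push_cast; ring
      exact_mod_cast h4
    have h5 := ht0 0
    have h6 := ht1 0
    rw [h3] at h5 h6
    have h7 : (0 : ℝ) ≤ k := by
      by_contra hc; rw [not_le] at hc; nlinarith
    have h8 : (k : ℝ) < 1 := by
      by_contra hc; rw [not_lt] at hc; nlinarith
    have h9 : k = 0 := by
      have a1 : (0 : ℤ) ≤ k := by exact_mod_cast h7
      have a2 : k < 1 := by exact_mod_cast h8
      omega
    rw [h3, h9]; simp
  -- indices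
  have hk0 : ∀ i, 0 ≤ n * θ i / (2 * Real.pi) := fun i => by
    have := ht0 i; positivity
  have hk1 : ∀ i, ⌊n * θ i / (2 * Real.pi)⌋₊ < n := by
    intro i
    rw [Nat.floor_lt (hk0 i), div_lt_iff₀ (by positivity)]
    exact mul_lt_mul_of_pos_left (ht1 i) hnpos
  let k : Fin n → Fin n := fun i => ⟨⌊n * θ i / (2 * Real.pi)⌋₊, hk1 i⟩
  by_cases hinj : Function.Injective k
  · have hsur : Function.Surjective k := Finite.injective_iff_surjective.1 hinj
    obtain ⟨i, hi⟩ := hsur ⟨n - 1, by omega⟩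
    have hi' : ⌊n * θ i / (2 * Real.pi)⌋₊ = n - 1 := congrArg Fin.val hi
    have h1 : ((n - 1 : ℕ) : ℝ) ≤ n * θ i / (2 * Real.pi) := by
      rw [← hi']; exact Nat.floor_le (hk0 i)
    rw [Nat.cast_sub (by omega), Nat.cast_one, le_div_iff₀ (by positivity)] at h1
    have h2 : 2 * Real.pi - θ i ≤ 2 * Real.pi / n := by
      rw [le_div_iff₀ hnpos]; nlinarith
    have h3 := ht1 i
    refine ⟨i, 0, ?_, ?_⟩
    · rintro rfl
      rw [hθ0, mul_zero] at h1
      nlinarith
    · rw [hre, hθ0, sub_zero, ← Real.cos_two_pi_sub (θ i)]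
      exact Real.cos_le_cos_of_nonneg_of_le_pi (by linarith) hdiv h2
  · rw [Function.Injective] at hinj
    push Not at hinj
    obtain ⟨i, j, hij, hne⟩ := hinj
    have hij' : ⌊n * θ i / (2 * Real.pi)⌋₊ = ⌊n * θ j / (2 * Real.pi)⌋₊ := congrArg Fin.val hij
    refine ⟨i, j, hne, ?_⟩
    rw [hre, ← Real.cos_abs (θ i - θ j)]
    have a1 := Nat.floor_le (hk0 i)
    have a2 := Nat.lt_floor_add_one (n * θ i / (2 * Real.pi))
    have b1 := Nat.floor_le (hk0 j)
    have b2 := Nat.lt_floor_add_one (n * θ j / (2 * Real.pi))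
    rw [hij'] at a1 a2
    have h4 : |θ i - θ j| ≤ 2 * Real.pi / n := by
      have c1 : n * θ i / (2 * Real.pi) - n * θ j / (2 * Real.pi) < 1 := by linarith
      have c2 : n * θ j / (2 * Real.pi) - n * θ i / (2 * Real.pi) < 1 := by linarith
      rw [← sub_div, div_lt_one (by positivity)] at c1 c2
      rw [abs_le]
      constructor
      · rw [neg_le, le_div_iff₀ hnpos]; nlinarith
      · rw [le_div_iff₀ hnpos]; nlinarith
    exact Real.cos_le_cos_of_nonneg_of_le_pi (abs_nonneg _) hdiv h4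

/-- Version for non-normalised vectors indexed by a `Finset`. -/
theorem arcs' (n : ℕ) (hn : 2 ≤ n) (T : Finset ℂ) (hT : n ≤ T.card) (x : ℂ) (hx : x ∉ T) :
    ∃ y ∈ T, ∃ z ∈ T, y ≠ z ∧
      Real.cos (2 * Real.pi / n) * (‖y - x‖ * ‖z - x‖) ≤ ((y - x) * conj (z - x)).re := by
  obtain ⟨U, hU, hc⟩ := Finset.exists_subset_card_eq hT
  let e := U.equivFinOfCardEq hc
  let y : Fin n → ℂ := fun i => ((e.symm i : U) : ℂ)
  have hyU : ∀ i, y i ∈ T := fun i => hU (e.symm i).2
  have hyinj : Function.Injective y := fun i j h => e.symm.injective (Subtype.ext h)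
  have hyx : ∀ i, y i - x ≠ 0 := fun i h => hx (by
    rw [← sub_eq_zero.1 h]; exact hyU i)
  have hpos : ∀ i, 0 < ‖y i - x‖ := fun i => norm_pos_iff.2 (hyx i)
  obtain ⟨i, j, hne, hij⟩ := arcs n hn (fun i => (y i - x) / (‖y i - x‖ : ℂ)) (fun i => by
    rw [norm_div, Complex.norm_real, norm_norm, div_self (hpos i).ne'])
  refine ⟨y i, hyU i, y j, hyU j, fun h => hne (hyinj h), ?_⟩
  have h1 : (y i - x) * conj (y j - x) = ((‖y i - x‖ * ‖y j - x‖ : ℝ) : ℂ) *
      ((y i - x) / (‖y i - x‖ : ℂ) * conj ((y j - x) / (‖y j - x‖ : ℂ))) := by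
    have c1 : (‖y i - x‖ : ℂ) ≠ 0 := by exact_mod_cast (hpos i).ne'
    have c2 : (‖y j - x‖ : ℂ) ≠ 0 := by exact_mod_cast (hpos j).ne'
    rw [map_div₀, Complex.conj_ofReal]
    push_cast
    field_simp
  rw [h1, Complex.re_ofReal_mul, mul_comm]
  exact mul_le_mul_of_nonneg_left hij (mul_nonneg (hpos i).le (hpos j).le)

end Pool.Agent.Hex
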