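import Pool.Agent.Hex.Basic

/-! Module `SegVol` (area of a circular segment). -/

open MeasureTheory Set
open scoped ENNReal

namespace Pool.Agent.Hex

/-- the integral after substitution -/
lemma seg_integral (κ : ℝ) (hκ : 0 < κ) (ρ : ℝ) (hρ : ρ / 2 ≤ κ / Real.sqrt 3) :
    ∫ t in (ρ / 2)..(κ / Real.sqrt 3), 2 * Real.sqrt ((κ / Real.sqrt 3) ^ 2 - t ^ 2) =
      κ ^ 2 * qf (ρ / κ) / (2 * Real.sqrt 3) := by
  have h3 := sqrt3_pos
  have h3s := sqrt3_sq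
  unfold qf
  have e1 : ∀ τ : ℝ, Real.sqrt (4 - 3 * τ ^ 2) =
      (Real.sqrt 3 / κ) * (2 * Real.sqrt ((κ / Real.sqrt 3) ^ 2 - ((κ / 2) * τ) ^ 2)) := by
    intro τ
    have : (4 - 3 * τ ^ 2) = (2 * (Real.sqrt 3 / κ)) ^ 2 *
        ((κ / Real.sqrt 3) ^ 2 - ((κ / 2) * τ) ^ 2) := by
      field_simp
      rw [h3s]; ring
    rw [this, Real.sqrt_mul (by positivity), Real.sqrt_sq (by positivity)]
    ring
  have e0 : ∫ t in (ρ / κ)..aa, Real.sqrt (4 - 3 * t ^ 2) = (Real.sqrt 3 / κ) *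
      ∫ t in (ρ / κ)..aa, 2 * Real.sqrt ((κ / Real.sqrt 3) ^ 2 - ((κ / 2) * t) ^ 2) := by
    rw [← intervalIntegral.integral_const_mul]
    exact intervalIntegral.integral_congr fun τ _ => e1 τ
  rw [e0]
  have e2 := intervalIntegral.integral_comp_mul_left
    (fun t => 2 * Real.sqrt ((κ / Real.sqrt 3) ^ 2 - t ^ 2)) (a := ρ / κ) (b := aa)
    (c := κ / 2) (by positivity)
  rw [e2]
  have e3 : κ / 2 * (ρ / κ) = ρ / 2 := by field_simp
  have e4 : κ / 2 * aa = κ / Real.sqrt 3 := by unfold aa; field_simp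
  rw [e3, e4, smul_eq_mul]
  field_simp

/-- area of the segment in standard position, in `ℝ × ℝ`. -/
lemma seg_std (κ : ℝ) (hκ : 0 < κ) (ρ : ℝ) (hρ : 0 < ρ) :
    volume {w : ℝ × ℝ | w.1 ^ 2 + w.2 ^ 2 < (κ / Real.sqrt 3) ^ 2 ∧ ρ / 2 ≤ w.1} ≤
      ENNReal.ofReal (κ ^ 2 * qf (ρ / κ) / (2 * Real.sqrt 3)) := by
  set R := κ / Real.sqrt 3 with hR
  have h3 := sqrt3_pos
  have hR0 : 0 < R := by positivity
  by_cases hle : ρ / 2 ≤ R
  · have hsub : {w : ℝ × ℝ | w.1 ^ 2 + w.2 ^ 2 < R ^ 2 ∧ ρ / 2 ≤ w.1} ⊆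
        regionBetween (fun t => -Real.sqrt (R ^ 2 - t ^ 2)) (fun t => Real.sqrt (R ^ 2 - t ^ 2))
          (Icc (ρ / 2) R) := by
      rintro ⟨a, b⟩ ⟨h1, h2⟩
      simp only at h1 h2
      have ha : 0 < a := by linarith
      have haR : a ≤ R := by
        apply le_of_lt
        apply lt_of_pow_lt_pow_left₀ 2 hR0.le
        nlinarith [sq_nonneg b]
      refine ⟨⟨h2, haR⟩, ?_⟩
      have h5 : b ^ 2 < R ^ 2 - a ^ 2 := by linarith
      have h6 : |b| < Real.sqrt (R ^ 2 - a ^ 2) := by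
        rw [Real.lt_sqrt (abs_nonneg b), sq_abs]; exact h5
      exact abs_lt.1 h6
    refine (measure_mono hsub).trans ?_
    rw [Measure.volume_eq_prod, volume_regionBetween_eq_integral]
    · apply ENNReal.ofReal_le_ofReal
      rw [← seg_integral κ hκ ρ hle, intervalIntegral.integral_of_le hle,
        ← integral_Icc_eq_integral_Ioc]
      apply le_of_eq
      congr 1
      ext t
      simp only [Pi.sub_apply]
      ring
    · apply Continuous.integrableOn_Icc; fun_prop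
    · apply Continuous.integrableOn_Icc; fun_prop
    · exact measurableSet_Icc
    · intro t _
      have := Real.sqrt_nonneg (R ^ 2 - t ^ 2)
      show -Real.sqrt (R ^ 2 - t ^ 2) ≤ Real.sqrt (R ^ 2 - t ^ 2)
      linarith
  · have : {w : ℝ × ℝ | w.1 ^ 2 + w.2 ^ 2 < R ^ 2 ∧ ρ / 2 ≤ w.1} = ∅ := by
      ext ⟨a, b⟩
      simp only [mem_ofPred_eq, mem_empty_iff_false, iff_false, not_and, not_le]
      intro h1
      have haR : a < R := by
        by_contra h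
        push Not at h
        nlinarith [sq_nonneg b]
      push Not at hle
      linarith
    rw [this, measure_empty]
    exact zero_le

theorem seg_vol (κ : ℝ) (hκ : 0 < κ) (x y : ℂ) (hxy : y ≠ x) :
    volume {z : ℂ | ‖z - x‖ < κ / Real.sqrt 3 ∧ ‖z - y‖ ≤ ‖z - x‖} ≤
      ENNReal.ofReal (κ ^ 2 * qf (‖y - x‖ / κ) / (2 * Real.sqrt 3)) := by
  set ρ := ‖y - x‖ with hρ
  have hρ0 : 0 < ρ := norm_pos_iff.2 (sub_ne_zero.2 hxy)
  set e : ℂ := (y - x) / (ρ : ℂ) with he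
  have hρc : (ρ : ℂ) ≠ 0 := by exact_mod_cast hρ0.ne'
  have hen : ‖e‖ = 1 := by
    rw [he, norm_div, Complex.norm_real, Real.norm_of_nonneg hρ0.le, ← hρ, div_self hρ0.ne']
  have hy : y = x + e * ρ := by rw [he]; field_simp; ring
  -- the isometry `w ↦ x + e w`
  let c : Circle := ⟨e, mem_sphere_zero_iff_norm.2 hen⟩
  have hc : (c : ℂ) = e := rfl
  have hrot : MeasurePreserving (fun w : ℂ => x + e * w) volume volume := by
    have h1 := (rotation c).measurePreserving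
    have h2 := measurePreserving_add_left (volume : Measure ℂ) x
    have h3 := h2.comp h1
    exact h3
  rw [← hrot.measure_preimage_emb (by
    have h1 : MeasurableEmbedding (rotation c) := (rotation c).toHomeomorph.measurableEmbedding
    have h2 : MeasurableEmbedding (fun w : ℂ => x + w) := (MeasurableEquiv.addLeft x).measurableEmbedding
    exact h2.comp h1)]
  rw [← Complex.volume_preserving_equiv_real_prod.symm.measure_preimage_equiv]
  refine (measure_mono ?_).trans (seg_std κ hκ ρ hρ0)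
  rintro ⟨a, b⟩ ⟨h1, h2⟩
  have hw : Complex.measurableEquivRealProd.symm (a, b) = (⟨a, b⟩ : ℂ) := rfl
  rw [hw] at h1 h2
  have hR0 : 0 < κ / Real.sqrt 3 := div_pos hκ sqrt3_pos
  have n1 : x + e * (⟨a, b⟩ : ℂ) - x = e * ⟨a, b⟩ := by ring
  have n2 : x + e * (⟨a, b⟩ : ℂ) - y = e * (⟨a, b⟩ - ρ) := by rw [hy]; ring
  rw [n1, norm_mul, hen, one_mul] at h1 h2
  rw [n2, norm_mul, hen, one_mul] at h2
  have s1 : ‖(⟨a, b⟩ : ℂ)‖ ^ 2 = a ^ 2 + b ^ 2 := by
    rw [← Complex.normSq_eq_norm_sq, Complex.normSq_mk]; ring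
  have s2 : ‖(⟨a, b⟩ : ℂ) - ρ‖ ^ 2 = (a - ρ) ^ 2 + b ^ 2 := by
    rw [← Complex.normSq_eq_norm_sq, Complex.normSq_apply]
    simp
    ring
  have t1 : ‖(⟨a, b⟩ : ℂ)‖ ^ 2 < (κ / Real.sqrt 3) ^ 2 :=
    pow_lt_pow_left₀ h1 (norm_nonneg _) (by norm_num)
  have t2 : ‖(⟨a, b⟩ : ℂ) - ρ‖ ^ 2 ≤ ‖(⟨a, b⟩ : ℂ)‖ ^ 2 :=
    pow_le_pow_left₀ (norm_nonneg _) h2 2
  rw [s1] at t1 t2
  rw [s2] at t2
  refine ⟨t1, ?_⟩
  show ρ / 2 ≤ a
  nlinarith

end Pool.Agent.Hex
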