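import Pool.Agent.Hex.Qf
import Pool.Agent.Hex.SegVol

/-!
Module `Area` (lower bound for the area of a truncated cell).  Uses `seg_vol`, `qf_nonneg`.

PROOF.  `ball x (κ/√3) ⊆ cell κ x I c ∪ ⋃_{i ∈ I} {z | ‖z-x‖ < κ/√3 ∧ ‖z - c i‖ ≤ ‖z-x‖}`.
`volume (ball x R) = π R²` (`Complex.volume_ball`), `R² = κ²/3`.  By subadditivity and `seg_vol`,
`ofReal (π κ²/3) ≤ volume (cell) + Σ_i ofReal (κ² qf(‖c i - x‖/κ)/(2√3))`; `cell ⊆ ball` so
`volume (cell) < ⊤`; take `toReal`.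
`measurableSet_cell`: a finite intersection of open sets.
-/

open MeasureTheory Set
open scoped ENNReal

namespace Pool.Agent.Hex

theorem measurableSet_cell {ι : Type*} (κ : ℝ) (x : ℂ) (I : Finset ι) (c : ι → ℂ) :
    MeasurableSet (cell κ x I c) := by
  have e : cell κ x I c = {z | ‖z - x‖ < κ / Real.sqrt 3} ∩
      ⋂ i ∈ I, {z | ‖z - x‖ < ‖z - c i‖} := by
    ext z
    simp [cell]
  rw [e]
  refine MeasurableSet.inter ?_ (Finset.measurableSet_biInter I fun i _ => ?_)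
  · exact (isOpen_lt (by fun_prop) (by fun_prop)).measurableSet
  · exact (isOpen_lt (by fun_prop) (by fun_prop)).measurableSet

theorem area_cell {ι : Type*} (κ : ℝ) (hκ : 0 < κ) (x : ℂ) (I : Finset ι) (c : ι → ℂ)
    (hc : ∀ i ∈ I, c i ≠ x) :
    Real.pi * κ ^ 2 / 3 - ∑ i ∈ I, κ ^ 2 * qf (‖c i - x‖ / κ) / (2 * Real.sqrt 3) ≤
      (volume (cell κ x I c)).toReal := by
  have hR : 0 < κ / Real.sqrt 3 := div_pos hκ sqrt3_pos
  have hsub : Metric.ball x (κ / Real.sqrt 3) ⊆ cell κ x I c ∪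
      ⋃ i ∈ I, {z : ℂ | ‖z - x‖ < κ / Real.sqrt 3 ∧ ‖z - c i‖ ≤ ‖z - x‖} := by
    intro z hz
    rw [Metric.mem_ball, dist_eq_norm] at hz
    by_cases h : ∀ i ∈ I, ‖z - x‖ < ‖z - c i‖
    · exact Or.inl ⟨hz, h⟩
    · push Not at h
      obtain ⟨i, hi, hle⟩ := h
      refine Or.inr ?_
      rw [Set.mem_iUnion₂]
      exact ⟨i, hi, hz, hle⟩
  have hcell : cell κ x I c ⊆ Metric.ball x (κ / Real.sqrt 3) := by
    intro z hz
    rw [Metric.mem_ball, dist_eq_norm]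
    exact hz.1
  have hball : (volume (Metric.ball x (κ / Real.sqrt 3))).toReal = Real.pi * κ ^ 2 / 3 := by
    rw [Complex.volume_ball, ENNReal.toReal_mul, ENNReal.toReal_pow,
      ENNReal.toReal_ofReal hR.le]
    rw [div_pow, sqrt3_sq]
    simp
    ring
  have hfin : volume (Metric.ball x (κ / Real.sqrt 3)) ≠ ⊤ := measure_ball_lt_top.ne
  have hfc : volume (cell κ x I c) ≠ ⊤ :=
    ((measure_mono hcell).trans_lt measure_ball_lt_top).ne
  have ha : ∀ i ∈ I, 0 ≤ κ ^ 2 * qf (‖c i - x‖ / κ) / (2 * Real.sqrt 3) := by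
    intro i _
    have h1 := qf_nonneg (‖c i - x‖ / κ)
    have h2 := sqrt3_pos
    positivity
  have h1 : volume (Metric.ball x (κ / Real.sqrt 3)) ≤ volume (cell κ x I c) +
      ENNReal.ofReal (∑ i ∈ I, κ ^ 2 * qf (‖c i - x‖ / κ) / (2 * Real.sqrt 3)) := by
    refine (measure_mono hsub).trans ((measure_union_le _ _).trans ?_)
    gcongr
    refine (measure_biUnion_finset_le _ _).trans ?_
    rw [ENNReal.ofReal_sum_of_nonneg ha]
    exact Finset.sum_le_sum fun i hi => seg_vol κ hκ x (c i) (hc i hi)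
  have h2 := ENNReal.toReal_mono (ENNReal.add_ne_top.2 ⟨hfc, ENNReal.ofReal_ne_top⟩) h1
  rw [hball, ENNReal.toReal_add hfc ENNReal.ofReal_ne_top,
    ENNReal.toReal_ofReal (Finset.sum_nonneg ha)] at h2
  linarith

end Pool.Agent.Hex
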