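import Pool.Agent.Hex.Defs

/-! Algebra of the Eisenstein lattice. -/

open MeasureTheory Set
open scoped ENNReal

namespace Pool.Agent.Hex

lemma om_re : om.re = 1 / 2 := rfl
lemma om_im : om.im = Real.sqrt 3 / 2 := rfl

lemma sqrt3_sq : Real.sqrt 3 ^ 2 = 3 := Real.sq_sqrt (by norm_num)
lemma sqrt3_pos : 0 < Real.sqrt 3 := Real.sqrt_pos.2 (by norm_num)

lemma om_sq : om ^ 2 = om - 1 := by
  apply Complex.ext
  · simp only [sq, Complex.mul_re, Complex.sub_re, Complex.one_re, om_re, om_im]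
    have := sqrt3_sq
    nlinarith
  · simp only [sq, Complex.mul_im, Complex.sub_im, Complex.one_im, om_re, om_im]
    ring

lemma om_cube : om ^ 3 = -1 := by
  have h := om_sq
  calc om ^ 3 = om ^ 2 * om := by ring
    _ = (om - 1) * om := by rw [h]
    _ = om ^ 2 - om := by ring
    _ = -1 := by rw [h]; ring

lemma om_six : om ^ 6 = 1 := by
  calc om ^ 6 = (om ^ 3) ^ 2 := by ring
    _ = 1 := by rw [om_cube]; ring

lemma om_pow_mod (j : ℕ) : om ^ j = om ^ (j % 6) := by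
  conv_lhs => rw [← Nat.div_add_mod j 6]
  rw [pow_add, pow_mul, om_six, one_pow, one_mul]

lemma norm_om : ‖om‖ = 1 := by
  have h : ‖om‖ ^ 6 = 1 := by rw [← norm_pow, om_six, norm_one]
  exact (pow_eq_one_iff_of_nonneg (norm_nonneg _) (by norm_num)).1 h

lemma norm_om_pow (j : ℕ) : ‖om ^ j‖ = 1 := by rw [norm_pow, norm_om, one_pow]

lemma om_ne_zero : om ≠ 0 := by
  intro h
  have := norm_om
  rw [h, norm_zero] at this
  exact zero_ne_one this

lemma lat_re (p : ℤ × ℤ) : (lat p).re = p.1 + p.2 / 2 := by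
  simp only [lat, Complex.add_re, Complex.mul_re, Complex.intCast_re, Complex.intCast_im, om_re,
    om_im]
  ring

lemma lat_im (p : ℤ × ℤ) : (lat p).im = p.2 * (Real.sqrt 3 / 2) := by
  simp only [lat, Complex.add_im, Complex.mul_im, Complex.intCast_re, Complex.intCast_im, om_re,
    om_im]
  ring

lemma norm_lat_sq (p : ℤ × ℤ) : ‖lat p‖ ^ 2 = (nrm p : ℝ) := by
  rw [← Complex.normSq_eq_norm_sq, Complex.normSq_apply, lat_re, lat_im]
  have h := sqrt3_sq
  simp only [nrm]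
  push_cast
  nlinarith [h]

lemma norm_lat (p : ℤ × ℤ) : ‖lat p‖ = Real.sqrt (nrm p) := by
  rw [← norm_lat_sq, Real.sqrt_sq (norm_nonneg _)]

@[simp] lemma lat_zero : lat 0 = 0 := by simp [lat]

lemma lat_one : lat (1, 0) = 1 := by simp [lat]

lemma lat_add (p q : ℤ × ℤ) : lat (p + q) = lat p + lat q := by
  simp only [lat, Prod.fst_add, Prod.snd_add]
  push_cast
  ring

lemma lat_neg (p : ℤ × ℤ) : lat (-p) = -lat p := by
  simp only [lat, Prod.fst_neg, Prod.snd_neg]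
  push_cast
  ring

lemma lat_sub (p q : ℤ × ℤ) : lat (p - q) = lat p - lat q := by
  rw [sub_eq_add_neg, lat_add, lat_neg, sub_eq_add_neg]

lemma lat_mulE (p q : ℤ × ℤ) : lat (mulE p q) = lat p * lat q := by
  have h := om_sq
  simp only [lat, mulE]
  push_cast
  linear_combination (-(p.2 : ℂ) * q.2) * h

lemma lat_rot (p : ℤ × ℤ) : lat (rot p) = lat p * om := by
  have h := om_sq
  simp only [lat, rot]
  push_cast
  linear_combination (-(p.2 : ℂ)) * h

lemma nrm_nonneg (p : ℤ × ℤ) : 0 ≤ nrm p := by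
  have := norm_lat_sq p
  have h : (0 : ℝ) ≤ (nrm p : ℝ) := by rw [← this]; positivity
  exact_mod_cast h

lemma nrm_eq_zero {p : ℤ × ℤ} : nrm p = 0 ↔ p = 0 := by
  constructor
  · intro h
    unfold nrm at h
    have h1 : (2 * p.1 + p.2) ^ 2 + 3 * p.2 ^ 2 = 0 := by nlinarith
    have h2 : p.2 = 0 := by
      by_contra hne
      have : 0 < p.2 ^ 2 := by positivity
      nlinarith [sq_nonneg (2 * p.1 + p.2)]
    rw [h2] at h1
    have h3 : p.1 = 0 := by
      by_contra hne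
      have : 0 < p.1 ^ 2 := by positivity
      nlinarith
    exact Prod.ext h3 h2
  · rintro rfl
    rfl

lemma lat_eq_zero {p : ℤ × ℤ} : lat p = 0 ↔ p = 0 := by
  constructor
  · intro h
    have := norm_lat_sq p
    rw [h, norm_zero] at this
    apply nrm_eq_zero.1
    have h2 : (nrm p : ℝ) = 0 := by rw [← this]; norm_num
    exact_mod_cast h2
  · rintro rfl
    exact lat_zero

lemma lat_injective : Function.Injective lat := by
  intro p q h
  have : lat (p - q) = 0 := by rw [lat_sub, h, sub_self]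
  exact sub_eq_zero.1 (lat_eq_zero.1 this)

lemma nrm_mulE (p q : ℤ × ℤ) : nrm (mulE p q) = nrm p * nrm q := by
  simp only [nrm, mulE]
  ring

lemma nrm_rot (p : ℤ × ℤ) : nrm (rot p) = nrm p := by
  simp only [nrm, rot]
  ring

lemma nrm_neg (p : ℤ × ℤ) : nrm (-p) = nrm p := by
  simp only [nrm, Prod.fst_neg, Prod.snd_neg]
  ring

lemma abs_sum_sq_le (p : ℤ × ℤ) : (|p.1| + |p.2|) ^ 2 ≤ 4 * nrm p := by
  unfold nrm
  have h1 := sq_abs p.1
  have h2 := sq_abs p.2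
  have h3 : -(|p.1| * |p.2|) ≤ p.1 * p.2 := by
    rw [← abs_mul]; exact neg_abs_le _
  have h4 : 0 ≤ |p.1| * |p.2| := by positivity
  nlinarith [sq_nonneg (|p.1| - |p.2|)]

/-- The six units. -/
lemma unit_of_nrm_one {p : ℤ × ℤ} (h : nrm p = 1) : ∃ j : ℕ, j < 6 ∧ lat p = om ^ j := by
  have h0 := abs_sum_sq_le p
  rw [h] at h0
  have h1 : |p.1| + |p.2| ≤ 2 := by nlinarith [abs_nonneg p.1, abs_nonneg p.2]
  have a1 : |p.1| ≤ 2 := by linarith [abs_nonneg p.2]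
  have a2 : |p.2| ≤ 2 := by linarith [abs_nonneg p.1]
  obtain ⟨l1, r1⟩ := abs_le.1 a1
  obtain ⟨l2, r2⟩ := abs_le.1 a2
  obtain ⟨a, b⟩ := p
  simp only [nrm] at h l1 r1 l2 r2
  have e2 := om_sq
  have e3 := om_cube
  have e4 : om ^ 4 = -om := by
    calc om ^ 4 = om ^ 3 * om := by ring
      _ = -om := by rw [e3]; ring
  have e5 : om ^ 5 = 1 - om := by
    calc om ^ 5 = om ^ 3 * om ^ 2 := by ring
      _ = 1 - om := by rw [e3, e2]; ring
  have key : (a = 1 ∧ b = 0) ∨ (a = 0 ∧ b = 1) ∨ (a = -1 ∧ b = 1) ∨ (a = -1 ∧ b = 0) ∨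
      (a = 0 ∧ b = -1) ∨ (a = 1 ∧ b = -1) := by
    interval_cases a <;> interval_cases b <;> simp_all
  rcases key with ⟨rfl, rfl⟩ | ⟨rfl, rfl⟩ | ⟨rfl, rfl⟩ | ⟨rfl, rfl⟩ | ⟨rfl, rfl⟩ | ⟨rfl, rfl⟩
  · exact ⟨0, by norm_num, by simp [lat]⟩
  · exact ⟨1, by norm_num, by simp [lat]⟩
  · exact ⟨2, by norm_num, by rw [e2]; simp [lat]; ring⟩
  · exact ⟨3, by norm_num, by rw [e3]; simp [lat]⟩
  · exact ⟨4, by norm_num, by rw [e4]; simp [lat]⟩
  · exact ⟨5, by norm_num, by rw [e5]; simp [lat]; ring⟩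

/-- `nrm` never equals `2`. -/
lemma nrm_ne_two (p : ℤ × ℤ) : nrm p ≠ 2 := by
  intro h
  have h0 := abs_sum_sq_le p
  rw [h] at h0
  have h1 : |p.1| + |p.2| ≤ 2 := by nlinarith [abs_nonneg p.1, abs_nonneg p.2]
  have a1 : |p.1| ≤ 2 := by linarith [abs_nonneg p.2]
  have a2 : |p.2| ≤ 2 := by linarith [abs_nonneg p.1]
  obtain ⟨l1, r1⟩ := abs_le.1 a1
  obtain ⟨l2, r2⟩ := abs_le.1 a2
  obtain ⟨a, b⟩ := p
  simp only [nrm] at h l1 r1 l2 r2
  interval_cases a <;> interval_cases b <;> simp_all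

/-- rotation by `om^j` in coordinates -/
lemma lat_rot_iter (j : ℕ) (p : ℤ × ℤ) : lat (rot^[j] p) = lat p * om ^ j := by
  induction j with
  | zero => simp
  | succ n ih =>
    rw [Function.iterate_succ_apply', lat_rot, ih, pow_succ]
    ring

lemma nrm_rot_iter (j : ℕ) (p : ℤ × ℤ) : nrm (rot^[j] p) = nrm p := by
  induction j with
  | zero => rfl
  | succ n ih => rw [Function.iterate_succ_apply', nrm_rot, ih]

lemma rot_six (p : ℤ × ℤ) : rot^[6] p = p := by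
  apply lat_injective
  rw [lat_rot_iter, om_six, mul_one]

/-- every power of `om` is a lattice point of norm one -/
lemma om_pow_lat (j : ℕ) : ∃ p : ℤ × ℤ, nrm p = 1 ∧ lat p = om ^ j :=
  ⟨rot^[j] (1, 0), by rw [nrm_rot_iter]; rfl, by rw [lat_rot_iter, lat_one, one_mul]⟩

lemma norm_lat_pos {p : ℤ × ℤ} (h : p ≠ 0) : 0 < ‖lat p‖ :=
  norm_pos_iff.2 fun h' => h (lat_eq_zero.1 h')

lemma norm_lat_ge_one {p : ℤ × ℤ} (h : p ≠ 0) : 1 ≤ ‖lat p‖ := by
  have h1 : nrm p ≠ 0 := fun h' => h (nrm_eq_zero.1 h')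
  have h2 := nrm_nonneg p
  have h3 : 1 ≤ nrm p := by omega
  have h4 : (1 : ℝ) ≤ (nrm p : ℝ) := by exact_mod_cast h3
  rw [norm_lat]
  rw [show (1 : ℝ) = Real.sqrt 1 by simp]
  exact Real.sqrt_le_sqrt h4

lemma norm_lat_ge_sqrt3 {p : ℤ × ℤ} (h : 3 ≤ nrm p) : Real.sqrt 3 ≤ ‖lat p‖ := by
  rw [norm_lat]
  apply Real.sqrt_le_sqrt
  exact_mod_cast h

/-- distinct lattice points are at distance `≥ 1` -/
lemma one_le_norm_lat_sub {p q : ℤ × ℤ} (h : p ≠ q) : 1 ≤ ‖lat p - lat q‖ := by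
  rw [← lat_sub]
  exact norm_lat_ge_one (sub_ne_zero.2 h)

lemma sqrt3_gt : (1.7320508 : ℝ) < Real.sqrt 3 := by
  rw [Real.lt_sqrt (by norm_num)]; norm_num

lemma sqrt3_lt : Real.sqrt 3 < 1.7320509 := by
  rw [Real.sqrt_lt' (by norm_num)]; norm_num

lemma aa_pos : 0 < aa := div_pos two_pos sqrt3_pos

lemma aa_sq : aa ^ 2 = 4 / 3 := by
  unfold aa; rw [div_pow, sqrt3_sq]; norm_num

lemma aa_gt : (1.1547 : ℝ) < aa := by
  have h := aa_sq
  have h0 := aa_pos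
  nlinarith

lemma aa_lt : aa < 1.154701 := by
  have h := aa_sq
  have h0 := aa_pos
  nlinarith

end Pool.Agent.Hex
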