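import Pool.Agent.Hex.HexLoc

/-!
Module `Chart` (the developing map).  Uses `hex_local`, `mem_nbF`.

PROOF.  Let `δ = dl g = 1/(10^5 n_g)`, `n_g = nrm g ≥ 3`, `|g| = ‖lat g‖ = √n_g ≥ √3`; `δ ≤ 1/1000`.
Claim P(n), for `n : ℕ` with `(n:ℝ) ≤ 6|g|`: for all `q : ℤ × ℤ` with `|q.1| + |q.2| ≤ n` there is
`z ∈ X` with `‖z - x - u x * lat q‖ ≤ 16 δ n²` and `h : ℕ` with `‖u z - u x om^h‖ ≤ 32 δ n`.
P(0): `z = x`, `h = 0`.
P(n) → P(n+1): if `|q.1|+|q.2| ≤ n` use P(n) (the bounds are increasing in `n`).  If it is `n+1`,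
there is `q'` with `|q'.1|+|q'.2| = n` and `lat q = lat q' + om^j` for some `j ∈ {0,1,3,4}`.
See the comments of `Chart_step`.
-/

open MeasureTheory Set
open scoped ENNReal

namespace Pool.Agent.Hex

lemma Chart_norm_lat_le (q : ℤ × ℤ) : ‖lat q‖ ≤ ((|q.1| + |q.2| : ℤ) : ℝ) := by
  unfold lat
  refine (norm_add_le _ _).trans ?_
  rw [norm_mul, norm_om, mul_one, Complex.norm_intCast, Complex.norm_intCast]
  push_cast
  exact le_rfl

lemma Chart_pred (q : ℤ × ℤ) (n : ℕ) (h : |q.1| + |q.2| = (n : ℤ) + 1) :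
    ∃ (q' : ℤ × ℤ) (j : ℕ), |q'.1| + |q'.2| ≤ n ∧ lat q = lat q' + om ^ j := by
  have e3 := om_cube
  have e4 : om ^ 4 = -om := by
    calc om ^ 4 = om ^ 3 * om := by ring
      _ = -om := by rw [e3]; ring
  obtain ⟨a, b⟩ := q
  simp only at h
  rcases lt_trichotomy a 0 with ha | ha | ha
  · refine ⟨(a + 1, b), 3, ?_, ?_⟩
    · simp only
      rw [abs_of_neg ha] at h
      rw [abs_of_nonpos (by omega)]
      omega
    · rw [e3]; simp only [lat]; push_cast; ring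
  · subst ha
    rcases lt_trichotomy b 0 with hb | hb | hb
    · refine ⟨(0, b + 1), 4, ?_, ?_⟩
      · simp only
        rw [abs_of_neg hb] at h
        rw [abs_of_nonpos (a := b + 1) (by omega)]
        omega
      · rw [e4]; simp only [lat]; push_cast; ring
    · subst hb
      simp at h
      omega
    · refine ⟨(0, b - 1), 1, ?_, ?_⟩
      · simp only
        rw [abs_of_pos hb] at h
        rw [abs_of_nonneg (a := b - 1) (by omega)]
        omega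
      · rw [pow_one]; simp only [lat]; push_cast; ring
  · refine ⟨(a - 1, b), 0, ?_, ?_⟩
    · simp only
      rw [abs_of_pos ha] at h
      rw [abs_of_nonneg (by omega)]
      omega
    · rw [pow_zero]; simp only [lat]; push_cast; ring

/-- a good point has a frame neighbour -/
lemma Chart_frame {X : Set ℂ} (hX : Sep X) {u : ℂ → ℂ} (hu : IsFrame X u) {δ : ℝ} {z : ℂ}
    (hz : z ∈ X) (hg : Good δ X z) :
    ∃ y0 ∈ nbF X z, y0 - z = (‖y0 - z‖ : ℂ) * u z := by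
  have hne : (nbF X z).Nonempty := by
    rw [← Finset.card_pos, hg.1]; norm_num
  obtain ⟨y, hy⟩ := hne
  have hy' : y ∈ Nb X z := (mem_nbF hX).1 hy
  obtain ⟨y0, hy0, he⟩ := hu.2 z hz ⟨y, hy'⟩
  exact ⟨y0, (mem_nbF hX).2 hy0, he⟩

/-- One step of the developing map. -/
lemma Chart_step {X : Set ℂ} (hX : Sep X) {u : ℂ → ℂ} (hu : IsFrame X u) {δ G : ℝ} (h0 : 0 ≤ δ)
    (h1 : δ ≤ 1 / 1000) (hG : 17 / 10 ≤ G) {x : ℂ}
    (hgood : ∀ z ∈ X, ‖z - x‖ ≤ 8 * G → Good δ X z) (n : ℕ) (hn : ((n + 1 : ℕ) : ℝ) ≤ 6 * G)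
    (hδ : 16 * δ * ((n + 1 : ℕ) : ℝ) ^ 2 ≤ 1 / 100)
    {q q' : ℤ × ℤ} {j : ℕ} (hq : |q.1| + |q.2| ≤ ((n + 1 : ℕ) : ℤ)) (hq' : |q'.1| + |q'.2| ≤ (n : ℤ))
    (hlat : lat q = lat q' + om ^ j) {z' : ℂ} (hz' : z' ∈ X)
    (hzq : ‖z' - x - u x * lat q'‖ ≤ 16 * δ * (n : ℝ) ^ 2) {h' : ℕ}
    (hh' : ‖u z' - u x * om ^ h'‖ ≤ 32 * δ * n) :
    ∃ z ∈ X, ‖z - x - u x * lat q‖ ≤ 16 * δ * ((n + 1 : ℕ) : ℝ) ^ 2 ∧
      ∃ h : ℕ, ‖u z - u x * om ^ h‖ ≤ 32 * δ * ((n + 1 : ℕ) : ℝ) := by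
  have hn0 : (0 : ℝ) ≤ (n : ℝ) := Nat.cast_nonneg n
  push_cast at hn hδ ⊢
  -- points within 6G + 1/100 are good with good neighbours
  have hnear : ∀ z ∈ X, ‖z - x‖ ≤ 6 * G + 1 / 100 → Good δ X z ∧ ∀ y ∈ nbF X z, Good δ X y := by
    intro z hz hzx
    refine ⟨hgood z hz (by linarith), fun y hy => ?_⟩
    obtain ⟨hyX, -, hyz⟩ := (mem_nbF hX).1 hy
    apply hgood y hyX
    have e : y - x = (y - z) + (z - x) := by ring
    rw [e]
    have := norm_add_le (y - z) (z - x)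
    have := aa_lt
    linarith
  have hux : ‖u x‖ = 1 := hu.1 x
  have hdist : ∀ (z : ℂ) (p : ℤ × ℤ), (((|p.1| + |p.2| : ℤ)) : ℝ) ≤ n + 1 →
      ‖z - x - u x * lat p‖ ≤ 16 * δ * ((n : ℝ) + 1) ^ 2 → ‖z - x‖ ≤ 6 * G + 1 / 100 := by
    intro z p hp hzp
    have e : z - x = (z - x - u x * lat p) + u x * lat p := by ring
    rw [e]
    refine (norm_add_le _ _).trans ?_
    rw [norm_mul, hux, one_mul]
    have := Chart_norm_lat_le p
    linarith
  -- at z'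
  have hz'x : ‖z' - x‖ ≤ 6 * G + 1 / 100 := by
    apply hdist z' q'
    · have : ((|q'.1| + |q'.2| : ℤ) : ℝ) ≤ ((n : ℤ) : ℝ) := by exact_mod_cast hq'
      rw [Int.cast_natCast] at this
      linarith
    · refine hzq.trans ?_
      have : (n : ℝ) ^ 2 ≤ ((n : ℝ) + 1) ^ 2 := by nlinarith
      have h16 : 0 ≤ 16 * δ := by linarith
      exact mul_le_mul_of_nonneg_left this h16
  obtain ⟨gz', gn'⟩ := hnear z' hz' hz'x
  obtain ⟨y0, hy0, hdir⟩ := Chart_frame hX hu hz' gz'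
  obtain ⟨hA, -⟩ := hex_local hX h0 h1 hz' gz' gn' hy0 (hu.1 z') hdir
  obtain ⟨z, hzn, hzz⟩ := hA (j + 5 * h')
  obtain ⟨hzX, hzne, hzlt⟩ := (mem_nbF hX).1 hzn
  have hsix : ∀ k : ℕ, om ^ (6 * k) = 1 := fun k => by rw [pow_mul, om_six, one_pow]
  have hrot : om ^ h' * om ^ (j + 5 * h') = om ^ j := by
    rw [← pow_add, show h' + (j + 5 * h') = j + 6 * h' by ring, pow_add, hsix, mul_one]
  have hu1 : ‖u z' * om ^ (j + 5 * h') - u x * om ^ j‖ ≤ 32 * δ * n := by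
    have e : u z' * om ^ (j + 5 * h') - u x * om ^ j
        = (u z' - u x * om ^ h') * om ^ (j + 5 * h') := by
      rw [sub_mul, mul_assoc (u x), hrot]
    rw [e, norm_mul, norm_om_pow, mul_one]
    exact hh'
  have hzq2 : ‖z - x - u x * lat q‖ ≤ 16 * δ * ((n : ℝ) + 1) ^ 2 := by
    have e : z - x - u x * lat q = (z - z' - u z' * om ^ (j + 5 * h'))
        + (u z' * om ^ (j + 5 * h') - u x * om ^ j) + (z' - x - u x * lat q') := by
      rw [hlat]; ring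
    rw [e]
    refine (norm_add_le _ _).trans ?_
    have := norm_add_le (z - z' - u z' * om ^ (j + 5 * h'))
      (u z' * om ^ (j + 5 * h') - u x * om ^ j)
    nlinarith
  refine ⟨z, hzX, hzq2, ?_⟩
  have hzx : ‖z - x‖ ≤ 6 * G + 1 / 100 := by
    apply hdist z q _ hzq2
    have : ((|q.1| + |q.2| : ℤ) : ℝ) ≤ (((n + 1 : ℕ) : ℤ) : ℝ) := by exact_mod_cast hq
    rw [Int.cast_natCast] at this
    push_cast at this ⊢
    exact this
  obtain ⟨gz, gn⟩ := hnear z hzX hzx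
  obtain ⟨y1, hy1, hdir1⟩ := Chart_frame hX hu hzX gz
  obtain ⟨-, hB⟩ := hex_local hX h0 h1 hzX gz gn hy1 (hu.1 z) hdir1
  have hz'n : z' ∈ nbF X z := (mem_nbF hX).2 ⟨hz', fun h => hzne h.symm, by rwa [norm_sub_rev]⟩
  obtain ⟨i, hi⟩ := hB z' hz'n
  have hsum : ‖u z * om ^ i + u z' * om ^ (j + 5 * h')‖ ≤ 32 * δ := by
    have e : u z * om ^ i + u z' * om ^ (j + 5 * h')
        = -((z' - z - u z * om ^ i) + (z - z' - u z' * om ^ (j + 5 * h'))) := by ring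
    rw [e, norm_neg]
    refine (norm_add_le _ _).trans ?_
    linarith
  refine ⟨h' + ((j + 5 * h') + 3 + 5 * i), ?_⟩
  have e1 : u z - u z' * om ^ ((j + 5 * h') + 3 + 5 * i)
      = (u z * om ^ i + u z' * om ^ (j + 5 * h')) * om ^ (5 * i) := by
    have hk : om ^ ((j + 5 * h') + 3 + 5 * i) = -(om ^ (j + 5 * h') * om ^ (5 * i)) := by
      rw [pow_add, pow_add, om_cube]; ring
    have hk2 : om ^ i * om ^ (5 * i) = 1 := by
      rw [← pow_add, show i + 5 * i = 6 * i by ring, hsix]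
    rw [hk, add_mul, mul_assoc (u z), hk2]
    ring
  have h2 : ‖u z - u z' * om ^ ((j + 5 * h') + 3 + 5 * i)‖ ≤ 32 * δ := by
    rw [e1, norm_mul, norm_om_pow, mul_one]
    exact hsum
  have e2 : u z - u x * om ^ (h' + ((j + 5 * h') + 3 + 5 * i))
      = (u z - u z' * om ^ ((j + 5 * h') + 3 + 5 * i))
        + (u z' - u x * om ^ h') * om ^ ((j + 5 * h') + 3 + 5 * i) := by
    rw [pow_add om h']
    ring
  rw [e2]
  refine (norm_add_le _ _).trans ?_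
  rw [norm_mul, norm_om_pow, mul_one]
  linarith

theorem chart {X : Set ℂ} (hX : Sep X) {u : ℂ → ℂ} (hu : IsFrame X u) {g : ℤ × ℤ}
    (hg : 3 ≤ nrm g) {x : ℂ} (hx : x ∈ X)
    (hgood : ∀ z ∈ X, ‖z - x‖ ≤ 8 * ‖lat g‖ → Good (dl g) X z) : Perf X u g x := by
  have hG2 := norm_lat_sq g
  have hG3 := norm_lat_ge_sqrt3 hg
  have hs3 := sqrt3_gt
  set G := ‖lat g‖ with hGdef
  have hn3 : (3 : ℝ) ≤ (nrm g : ℝ) := by exact_mod_cast hg
  have hGpos : 0 < G := by linarith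
  have hδdef : dl g = 1 / (10 ^ 5 * G ^ 2) := by rw [hG2, dl]
  have h0 : 0 ≤ dl g := by rw [hδdef]; positivity
  have h1 : dl g ≤ 1 / 1000 := by
    rw [dl]
    apply one_div_le_one_div_of_le (by norm_num)
    linarith
  have hδn : ∀ n : ℕ, (n : ℝ) ≤ 6 * G → 16 * dl g * (n : ℝ) ^ 2 ≤ 1 / 100 := by
    intro n hn
    have hn0 : (0 : ℝ) ≤ n := Nat.cast_nonneg n
    have : (n : ℝ) ^ 2 ≤ (6 * G) ^ 2 := pow_le_pow_left₀ hn0 hn 2
    have e : 16 * dl g * (6 * G) ^ 2 = 576 / 10 ^ 5 := by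
      rw [hδdef]; field_simp; ring
    have h3 : 16 * dl g * (n : ℝ) ^ 2 ≤ 16 * dl g * (6 * G) ^ 2 :=
      mul_le_mul_of_nonneg_left this (by linarith)
    rw [e] at h3
    refine h3.trans (by norm_num)
  have main : ∀ n : ℕ, (n : ℝ) ≤ 6 * G → ∀ q : ℤ × ℤ, |q.1| + |q.2| ≤ (n : ℤ) →
      ∃ z ∈ X, ‖z - x - u x * lat q‖ ≤ 16 * dl g * (n : ℝ) ^ 2 ∧
        ∃ h : ℕ, ‖u z - u x * om ^ h‖ ≤ 32 * dl g * n := by
    intro n
    induction n with
    | zero =>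
      intro _ q hq
      have h1 := abs_nonneg q.1
      have h2 := abs_nonneg q.2
      have hq1 : q.1 = 0 := abs_eq_zero.1 (by push_cast at hq; omega)
      have hq2 : q.2 = 0 := abs_eq_zero.1 (by push_cast at hq; omega)
      have hq0 : q = 0 := Prod.ext hq1 hq2
      refine ⟨x, hx, ?_, 0, ?_⟩
      · rw [hq0]; simp
      · simp
    | succ n ih =>
      intro hn q hq
      have hn' : (n : ℝ) ≤ 6 * G := by push_cast at hn; linarith
      by_cases hc : |q.1| + |q.2| ≤ (n : ℤ)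
      · obtain ⟨z, hz, hzq, h, hh⟩ := ih hn' q hc
        have hn0 : (0 : ℝ) ≤ (n : ℝ) := Nat.cast_nonneg n
        refine ⟨z, hz, hzq.trans ?_, h, hh.trans ?_⟩
        · push_cast
          have : (n : ℝ) ^ 2 ≤ ((n : ℝ) + 1) ^ 2 := by nlinarith
          exact mul_le_mul_of_nonneg_left this (by linarith)
        · push_cast
          exact mul_le_mul_of_nonneg_left (by linarith) (by linarith)
      · have hc' : |q.1| + |q.2| = (n : ℤ) + 1 := by push_cast at hq; omega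
        obtain ⟨q', j, hq', hlat⟩ := Chart_pred q n hc'
        obtain ⟨z', hz', hzq', h', hh'⟩ := ih hn' q' hq'
        exact Chart_step hX hu h0 h1 (by linarith) hgood n hn (hδn _ hn) hq hq' hlat hz' hzq' hh'
  intro q hq
  have h4 := abs_sum_sq_le q
  have hN0 : 0 ≤ |q.1| + |q.2| := add_nonneg (abs_nonneg _) (abs_nonneg _)
  obtain ⟨n, hn⟩ := Int.eq_ofNat_of_zero_le hN0
  have hnG : (n : ℝ) ≤ 6 * G := by
    have h5 : ((n : ℤ)) ^ 2 ≤ 36 * nrm g := by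
      rw [hn] at h4
      linarith
    have h6 : (n : ℝ) ^ 2 ≤ (6 * G) ^ 2 := by
      have : ((n : ℝ)) ^ 2 ≤ 36 * (nrm g : ℝ) := by exact_mod_cast h5
      rw [mul_pow, hG2]
      linarith
    exact le_of_sq_le_sq h6 (by linarith)
  obtain ⟨z, hz, hzq, h, hh⟩ := main n hnG q hn.le
  refine ⟨z, hz, hzq.trans (hδn n hnG), h, hh.trans ?_⟩
  have h7 : 32 * dl g * n ≤ 32 * dl g * (6 * G) :=
    mul_le_mul_of_nonneg_left hnG (by linarith)
  refine h7.trans ?_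
  have e : 32 * dl g * (6 * G) = 192 / 10 ^ 5 / G := by
    rw [hδdef]; field_simp; ring
  rw [e]
  exact div_le_div_of_nonneg_right (by norm_num) hGpos.le

end Pool.Agent.Hex
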