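import Pool.Agent.Hex.Basic

/-!
Module `Del` (deleting a point; a short period).

PROOFS.  Everything is in `ℝ≥0∞`.  `x = x + 0 ∈ per Γ S` for `x ∈ S`.
`del`: write `y = x' + γ'`, `x' ∈ S`, `γ' ∈ Γ`; `x' ≠ x` because `y - x ∉ Γ`.  Put
`S' = S.erase x`, `X = per Γ S`, `X' = per Γ S' ⊆ X`.
 * `E s Γ S = en s X x + Σ_{w ∈ S'} en s X w` (`Finset.add_sum_erase`-type lemma).
 * `en s X x ≥ ofReal (‖y-x‖^{-s})` (one term of the `tsum`: `y ∈ X`, `y ≠ x`).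
 * for `w ∈ S'`, `en s X w ≥ en s X' w` (injection of index types,
   `ENNReal.tsum_comp_le_tsum_of_injective`).
 * for `w = x'`: `en s X x' ≥ en s X' x' + ofReal (‖y-x‖^{-s})`: the point `x - γ'` is in `X`, is
   `≠ x'` (`x - γ' - x' = x - y ∉ Γ`, in particular `≠ 0`), is not in `X'` (if
   `x - γ' = w + γ''` with `w ∈ S'` then `x - w ∈ Γ`, so `x = w` by `hineq`, contradiction with
   `w ∈ S.erase x`), and `‖(x - γ') - x'‖ = ‖x - y‖ = ‖y - x‖`.
   (Use e.g. `Option {y // y ∈ X' ∧ y ≠ x'} → {y // y ∈ X ∧ y ≠ x'}` injective and `tsum_option`, or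
   `Sum`.)
 Add up.
`self_close`: for each `x ∈ S`, `x + γ` and `x - γ` are two distinct points of `X \ {x}`, at distance
`‖γ‖`; so `en s X x ≥ 2·ofReal (‖γ‖^{-s})` (`ENNReal.sum_le_tsum` on a two-element finset).
-/

open MeasureTheory Set
open scoped ENNReal

namespace Pool.Agent.Hex

private theorem Del_per_mono (Γ : AddSubgroup ℂ) {S' S : Finset ℂ} (h : S' ⊆ S) {z : ℂ}
    (hz : z ∈ per Γ S') : z ∈ per Γ S := by
  obtain ⟨x, hx, γ, hγ, rfl⟩ := hz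
  exact ⟨x, h hx, γ, hγ, rfl⟩

private theorem Del_en_mono {X' X : Set ℂ} (h : X' ⊆ X) (s : ℝ) (w : ℂ) :
    en s X' w ≤ en s X w := by
  let f : {y // y ∈ X' ∧ y ≠ w} → {y // y ∈ X ∧ y ≠ w} := fun y => ⟨y.1, h y.2.1, y.2.2⟩
  have hf : Function.Injective f := by
    intro y y' hyy
    have := congrArg (fun u : {y // y ∈ X ∧ y ≠ w} => (u : ℂ)) hyy
    exact Subtype.ext this
  exact ENNReal.tsum_comp_le_tsum_of_injective hf
    (fun y : {y // y ∈ X ∧ y ≠ w} => ENNReal.ofReal (‖(y : ℂ) - w‖ ^ (-s)))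

private theorem Del_en_add {X' X : Set ℂ} (h : X' ⊆ X) (s : ℝ) (w z : ℂ) (hz : z ∈ X)
    (hzw : z ≠ w) (hz' : z ∉ X') :
    en s X' w + ENNReal.ofReal (‖z - w‖ ^ (-s)) ≤ en s X w := by
  classical
  have h1 := ENNReal.tsum_eq_add_tsum_ite (f := fun y : {y // y ∈ X ∧ y ≠ w} =>
      ENNReal.ofReal (‖(y : ℂ) - w‖ ^ (-s))) (⟨z, hz, hzw⟩ : {y // y ∈ X ∧ y ≠ w})
  have h2 : en s X w = ∑' y : {y // y ∈ X ∧ y ≠ w}, ENNReal.ofReal (‖(y : ℂ) - w‖ ^ (-s)) := rfl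
  rw [h2, h1, add_comm]
  gcongr
  let f : {y // y ∈ X' ∧ y ≠ w} → {y // y ∈ X ∧ y ≠ w} := fun y => ⟨y.1, h y.2.1, y.2.2⟩
  have hf : Function.Injective f := by
    intro y y' hyy
    have := congrArg (fun u : {y // y ∈ X ∧ y ≠ w} => (u : ℂ)) hyy
    exact Subtype.ext this
  refine le_trans ?_ (ENNReal.tsum_comp_le_tsum_of_injective hf _)
  unfold en
  apply le_of_eq
  refine tsum_congr fun y => ?_
  rw [if_neg]
  intro hyz
  have : (y : ℂ) = z := congrArg (fun u : {y // y ∈ X ∧ y ≠ w} => (u : ℂ)) hyz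
  exact hz' (this ▸ y.2.1)

theorem del (Γ : AddSubgroup ℂ) (S : Finset ℂ) (hineq : ∀ x ∈ S, ∀ y ∈ S, x - y ∈ Γ → x = y)
    {s : ℝ} {x y : ℂ} (hx : x ∈ S) (hy : y ∈ per Γ S) (hyx : y - x ∉ Γ) :
    E s Γ (S.erase x) + 2 * ENNReal.ofReal (‖y - x‖ ^ (-s)) ≤ E s Γ S := by
  classical
  obtain ⟨x', hx', γ', hγ', rfl⟩ := hy
  have hne : x' ≠ x := by
    rintro rfl
    apply hyx
    rw [add_sub_cancel_left]
    exact hγ'
  have hxX : x ∈ per Γ S := ⟨x, hx, 0, Γ.zero_mem, by ring⟩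
  have hx'S' : x' ∈ S.erase x := Finset.mem_erase.2 ⟨hne, hx'⟩
  have hsub : per Γ (S.erase x) ⊆ per Γ S := fun z hz =>
    Del_per_mono Γ (Finset.erase_subset x S) hz
  set c := ENNReal.ofReal (‖x' + γ' - x‖ ^ (-s)) with hc
  -- first term
  have h1 : c ≤ en s (per Γ S) x := by
    have hyne : x' + γ' ≠ x := by
      intro h
      apply hyx
      rw [h, sub_self]
      exact Γ.zero_mem
    exact ENNReal.le_tsum (f := fun y : {y // y ∈ per Γ S ∧ y ≠ x} =>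
      ENNReal.ofReal (‖(y : ℂ) - x‖ ^ (-s)))
      (⟨x' + γ', ⟨x', hx', γ', hγ', rfl⟩, hyne⟩ : {y // y ∈ per Γ S ∧ y ≠ x})
  -- second term
  have h2 : en s (per Γ (S.erase x)) x' + c ≤ en s (per Γ S) x' := by
    have hz : x - γ' ∈ per Γ S := ⟨x, hx, -γ', Γ.neg_mem hγ', by ring⟩
    have hzne : x - γ' ≠ x' := by
      intro h
      apply hyx
      have : x' + γ' - x = 0 := by rw [← h]; ring
      rw [this]
      exact Γ.zero_mem
    have hz' : x - γ' ∉ per Γ (S.erase x) := by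
      rintro ⟨w, hw, γ'', hγ'', hww⟩
      have hwS := Finset.mem_of_mem_erase hw
      have : x - w ∈ Γ := by
        have e : x - w = γ' + γ'' := by linear_combination hww
        rw [e]
        exact Γ.add_mem hγ' hγ''
      exact Finset.ne_of_mem_erase hw (hineq x hx w hwS this).symm
    have := Del_en_add hsub s x' (x - γ') hz hzne hz'
    have hnorm : ‖x - γ' - x'‖ = ‖x' + γ' - x‖ := by
      rw [← norm_neg]
      congr 1
      ring
    rw [hnorm] at this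
    exact this
  have hE : E s Γ S = en s (per Γ S) x + (en s (per Γ S) x' +
      ∑ w ∈ (S.erase x).erase x', en s (per Γ S) w) := by
    unfold E
    rw [Finset.add_sum_erase _ _ hx'S', Finset.add_sum_erase _ _ hx]
  have hE' : E s Γ (S.erase x) = en s (per Γ (S.erase x)) x' +
      ∑ w ∈ (S.erase x).erase x', en s (per Γ (S.erase x)) w := by
    unfold E
    rw [Finset.add_sum_erase _ _ hx'S']
  rw [hE, hE']
  have h3 : ∑ w ∈ (S.erase x).erase x', en s (per Γ (S.erase x)) w ≤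
      ∑ w ∈ (S.erase x).erase x', en s (per Γ S) w :=
    Finset.sum_le_sum fun w _ => Del_en_mono hsub s w
  calc en s (per Γ (S.erase x)) x' + ∑ w ∈ (S.erase x).erase x', en s (per Γ (S.erase x)) w + 2 * c
      = c + ((en s (per Γ (S.erase x)) x' + c) +
        ∑ w ∈ (S.erase x).erase x', en s (per Γ (S.erase x)) w) := by ring
    _ ≤ _ := add_le_add h1 (add_le_add h2 h3)

theorem self_close (Γ : AddSubgroup ℂ) (S : Finset ℂ) {s : ℝ} {γ : ℂ} (hγ : γ ∈ Γ)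
    (h0 : γ ≠ 0) : (S.card : ℝ≥0∞) * (2 * ENNReal.ofReal (‖γ‖ ^ (-s))) ≤ E s Γ S := by
  classical
  have key : ∀ x ∈ S, 2 * ENNReal.ofReal (‖γ‖ ^ (-s)) ≤ en s (per Γ S) x := by
    intro x hx
    have hp : x + γ ∈ per Γ S ∧ x + γ ≠ x :=
      ⟨⟨x, hx, γ, hγ, rfl⟩, fun h => h0 (by simpa using h)⟩
    have hm : x - γ ∈ per Γ S ∧ x - γ ≠ x :=
      ⟨⟨x, hx, -γ, Γ.neg_mem hγ, by ring⟩, fun h => h0 (by simpa using h)⟩
    have hne : (⟨x + γ, hp⟩ : {y // y ∈ per Γ S ∧ y ≠ x}) ≠ ⟨x - γ, hm⟩ := by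
      intro h
      have h1 : x + γ = x - γ := congrArg (fun u : {y // y ∈ per Γ S ∧ y ≠ x} => (u : ℂ)) h
      apply h0
      have h2 : 2 * γ = 0 := by linear_combination h1
      simpa using h2
    have h1 := ENNReal.sum_le_tsum (f := fun y : {y // y ∈ per Γ S ∧ y ≠ x} =>
      ENNReal.ofReal (‖(y : ℂ) - x‖ ^ (-s))) {⟨x + γ, hp⟩, ⟨x - γ, hm⟩}
    rw [Finset.sum_pair hne] at h1
    have e1 : ‖x + γ - x‖ = ‖γ‖ := by rw [add_sub_cancel_left]
    have e2 : ‖x - γ - x‖ = ‖γ‖ := by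
      rw [show x - γ - x = -γ by ring, norm_neg]
    simp only [e1, e2] at h1
    rw [two_mul]
    exact h1
  unfold E
  calc (S.card : ℝ≥0∞) * (2 * ENNReal.ofReal (‖γ‖ ^ (-s)))
      = ∑ _x ∈ S, 2 * ENNReal.ofReal (‖γ‖ ^ (-s)) := by
        rw [Finset.sum_const, nsmul_eq_mul]
    _ ≤ _ := Finset.sum_le_sum key

end Pool.Agent.Hex
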