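import Pool.Agent.Hex.SumFar

/-!
Module `SepGe`.  Uses `Z_le`.

PROOF.
* `sep_ge`: `F0 s·(Z s/6) ≤ 2·(97/100)^{-s}`.  `(97/100)^{-s} = exp(s·log(100/97))`,
  `log(100/97) ≥ 0.0304`; with `x = 0.0304 s ≥ 6.08`, `exp x ≥ e^6 (x-5) ≥ 403 (x-5)`
  (`exp(x-6) ≥ 1 + (x-6)`, `e^6 > 403` from `Real.exp_one_gt_d9`), so
  `2·(97/100)^{-s} ≥ 806 (0.0304 s - 5) ≥ 1.001 (6+3s)` for `s ≥ 200`
  (`806·1.08 = 870.4 ≥ 606.7`, slope `24.5 ≥ 3.1`).
-/

open MeasureTheory Set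
open scoped ENNReal

namespace Pool.Agent.Hex

theorem SepGe_log : 0.0304 ≤ -Real.log (97 / 100) := by
  have h2 : |(3 / 100 : ℝ)| < 1 := by rw [abs_lt]; constructor <;> norm_num
  have h3 := Real.hasSum_pow_div_log_of_abs_lt_one h2
  have h4 : ∑ i ∈ Finset.range 2, (3 / 100 : ℝ) ^ (i + 1) / ((i : ℝ) + 1) ≤
      -Real.log (1 - 3 / 100) := by
    refine sum_le_hasSum _ (fun i _ => ?_) h3
    positivity
  rw [Finset.sum_range_succ, Finset.sum_range_one] at h4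
  norm_num at h4 ⊢
  linarith

theorem sep_ge {s : ℝ} (hs : 200 ≤ s) : F0 s * (Z s / 6) ≤ 2 * (97 / 100 : ℝ) ^ (-s) := by
  have hZ := Z_le hs
  have hl := SepGe_log
  have h1 : F0 s * (Z s / 6) ≤ (6 + 3 * s) * 1.001 := by
    unfold F0
    apply mul_le_mul_of_nonneg_left _ (by linarith)
    linarith
  have h2 : Real.exp (0.0304 * s) ≤ (97 / 100 : ℝ) ^ (-s) := by
    rw [Real.rpow_def_of_pos (by norm_num)]
    apply Real.exp_le_exp.2
    nlinarith
  have h3 : Real.exp 6 * (0.0304 * s - 5) ≤ Real.exp (0.0304 * s) := by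
    have e : Real.exp (0.0304 * s) = Real.exp 6 * Real.exp (0.0304 * s - 6) := by
      rw [← Real.exp_add]
      congr 1
      ring
    rw [e]
    apply mul_le_mul_of_nonneg_left _ (Real.exp_pos _).le
    have := Real.add_one_le_exp (0.0304 * s - 6)
    linarith
  have h4 : (403 : ℝ) ≤ Real.exp 6 := by
    have e : Real.exp 6 = Real.exp 1 ^ 6 := by
      rw [← Real.exp_nat_mul]
      norm_num
    rw [e]
    have h5 := Real.exp_one_gt_d9
    calc (403 : ℝ) ≤ 2.7182818283 ^ 6 := by norm_num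
      _ ≤ Real.exp 1 ^ 6 := pow_le_pow_left₀ (by norm_num) h5.le 6
  have h6 : 403 * (0.0304 * s - 5) ≤ Real.exp 6 * (0.0304 * s - 5) :=
    mul_le_mul_of_nonneg_right h4 (by linarith)
  linarith

end Pool.Agent.Hex
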