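import Pool.Agent.Hex.SepThm
import Pool.Agent.Hex.SepGe
import Pool.Agent.Hex.Del

/-! The lower bound for arbitrary periodic configurations (assembly, induction on `#S`). -/

open MeasureTheory Set Filter
open scoped ENNReal Topology

namespace Pool.Agent.Hex

lemma Z_nonneg (s : ℝ) : 0 ≤ Z s := tsum_nonneg fun _ => Real.rpow_nonneg (norm_nonneg _) _

lemma rpow_close {s : ℝ} (hs : 200 ≤ s) {r : ℝ} (h0 : 0 < r) (h : r < 97 / 100) :
    F0 s * (Z s / 6) ≤ 2 * r ^ (-s) := by
  refine (sep_ge hs).trans ?_
  have : (97 / 100 : ℝ) ^ (-s) ≤ r ^ (-s) :=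
    Real.rpow_le_rpow_of_nonpos h0 h.le (by linarith)
  linarith

theorem core (C : Cfg) {s : ℝ} (hs : 200 ≤ s) :
    ENNReal.ofReal (Z s / 6 * (F0 s * C.S.card - P s * C.A)) ≤ E s C.Γ C.S := by
  have hF := F0_pos hs
  have hZ := Z_nonneg s
  have hP : 0 ≤ P s := by unfold P; positivity
  have main : ∀ n : ℕ, ∀ C : Cfg, C.S.card = n →
      ENNReal.ofReal (Z s / 6 * (F0 s * C.S.card - P s * C.A)) ≤ E s C.Γ C.S := by
    intro n
    induction n with
    | zero =>
      intro C hC
      rw [ENNReal.ofReal_of_nonpos]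
      · exact zero_le
      · rw [hC]
        have := mul_nonneg hP C.hA
        have h2 : 0 ≤ Z s / 6 := by positivity
        simp only [Nat.cast_zero, mul_zero, zero_sub]
        nlinarith
    | succ n ih =>
      intro C hC
      by_cases hX : Sep C.X
      · exact sep_bound C hX hs
      -- a close pair
      unfold Sep at hX
      push Not at hX
      obtain ⟨x₁, hx₁, y₁, hy₁, hne₁, hlt₁⟩ := hX
      -- translate so that the first point is in `S`
      obtain ⟨x, hxS, γ, hγ, rfl⟩ := hx₁
      set y := y₁ - γ with hy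
      have hyX : y ∈ per C.Γ C.S := by
        obtain ⟨w, hw, γ', hγ', rfl⟩ := hy₁
        exact ⟨w, hw, γ' - γ, C.Γ.sub_mem hγ' hγ, by rw [hy]; ring⟩
      have hd : y₁ - (x + γ) = y - x := by rw [hy]; ring
      rw [hd] at hlt₁
      have hyx : y ≠ x := by
        rintro h
        apply hne₁
        rw [← h, hy]; ring
      have hpos : 0 < ‖y - x‖ := norm_pos_iff.2 (sub_ne_zero.2 hyx)
      have hr := rpow_close hs hpos hlt₁
      by_cases hmem : y - x ∈ C.Γ
      · -- short period
        refine le_trans ?_ (self_close C.Γ C.S (s := s) hmem (sub_ne_zero.2 hyx))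
        have e1 : (C.S.card : ℝ≥0∞) * (2 * ENNReal.ofReal (‖y - x‖ ^ (-s))) =
            ENNReal.ofReal (C.S.card * (2 * ‖y - x‖ ^ (-s))) := by
          rw [ENNReal.ofReal_mul (by positivity), ENNReal.ofReal_mul (by norm_num)]
          simp
        rw [e1]
        apply ENNReal.ofReal_le_ofReal
        have h2 : 0 ≤ Z s / 6 := by positivity
        have h3 := mul_nonneg hP C.hA
        have h4 : (C.S.card : ℝ) * (F0 s * (Z s / 6)) ≤ C.S.card * (2 * ‖y - x‖ ^ (-s)) :=
          mul_le_mul_of_nonneg_left hr (by positivity)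
        nlinarith
      · -- delete `x`
        let C' : Cfg := { C with
          S := C.S.erase x
          ineq := fun a ha b hb h =>
            C.ineq a (Finset.mem_of_mem_erase ha) b (Finset.mem_of_mem_erase hb) h }
        have hC' : C'.S.card = n := by
          show (C.S.erase x).card = n
          rw [Finset.card_erase_of_mem hxS, hC]; rfl
        have h1 := ih C' hC'
        have h2 := del C.Γ C.S C.ineq (s := s) hxS hyX hmem
        refine le_trans ?_ h2
        have h3 : ENNReal.ofReal (Z s / 6 * (F0 s * C'.S.card - P s * C.A)) ≤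
            E s C.Γ (C.S.erase x) := h1
        refine le_trans ?_ (add_le_add h3 le_rfl)
        have e1 : 2 * ENNReal.ofReal (‖y - x‖ ^ (-s)) = ENNReal.ofReal (2 * ‖y - x‖ ^ (-s)) := by
          rw [ENNReal.ofReal_mul (by norm_num)]; simp
        rw [e1]
        refine le_trans (ENNReal.ofReal_le_ofReal ?_) ENNReal.ofReal_add_le
        rw [hC', hC]
        push_cast
        nlinarith
  exact main _ C rfl

end Pool.Agent.Hex
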