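import Pool.Agent.Hex.Pack

/-!
Module `CosPair` (angles between neighbours).
-/

open MeasureTheory Set
open scoped ENNReal ComplexConjugate

namespace Pool.Agent.Hex

private lemma re_aux (a b : ℂ) : 2 * (a * conj b).re = ‖a‖ ^ 2 + ‖b‖ ^ 2 - ‖a - b‖ ^ 2 := by
  rw [← Complex.normSq_eq_norm_sq, ← Complex.normSq_eq_norm_sq, ← Complex.normSq_eq_norm_sq,
    Complex.normSq_sub]
  ring

private lemma setup {X : Set ℂ} (hX : Sep X) {x y z : ℂ} (hx : x ∈ X) (hy : y ∈ nbF X x)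
    (hz : z ∈ nbF X x) (hne : y ≠ z) :
    2 * ((y - x) * conj (z - x)).re ≤ ‖y - x‖ ^ 2 + ‖z - x‖ ^ 2 - 0.9409 ∧
      0.97 ≤ ‖y - x‖ ∧ 0.97 ≤ ‖z - x‖ ∧ ‖y - x‖ ≤ 1.154701 ∧ ‖z - x‖ ≤ 1.154701 := by
  rw [mem_nbF hX] at hy hz
  have h1 := hX x hx y hy.1 (Ne.symm hy.2.1)
  have h2 := hX x hx z hz.1 (Ne.symm hz.2.1)
  have h3 := hX z hz.1 y hy.1 (Ne.symm hne)
  have h4 := aa_lt
  have h5 := re_aux (y - x) (z - x)
  have h6 : y - x - (z - x) = y - z := by ring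
  rw [h6] at h5
  have h7 : (0.9409 : ℝ) ≤ ‖y - z‖ ^ 2 := by nlinarith
  refine ⟨by linarith, by linarith, by linarith, by linarith [hy.2.2], by linarith [hz.2.2]⟩

theorem cos_pair {X : Set ℂ} (hX : Sep X) {x y z : ℂ} (hx : x ∈ X) (hy : y ∈ nbF X x)
    (hz : z ∈ nbF X x) (hne : y ≠ z) :
    ((y - x) * conj (z - x)).re ≤ 0.648 * (‖y - x‖ * ‖z - x‖) := by
  obtain ⟨h0, h1, h2, h3, h4⟩ := setup hX hx hy hz hne
  set r := ‖y - x‖
  set t := ‖z - x‖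
  nlinarith [mul_nonneg (sub_nonneg.2 h1) (sub_nonneg.2 h3),
    mul_nonneg (sub_nonneg.2 h2) (sub_nonneg.2 h4),
    mul_nonneg (sub_nonneg.2 h1) (sub_nonneg.2 h2),
    mul_nonneg (sub_nonneg.2 h1) (sub_nonneg.2 h4),
    mul_nonneg (sub_nonneg.2 h3) (sub_nonneg.2 h2),
    mul_nonneg (sub_nonneg.2 h3) (sub_nonneg.2 h4)]

theorem cos_pair' {X : Set ℂ} (hX : Sep X) {x y z : ℂ} (hx : x ∈ X) (hy : y ∈ nbF X x)
    (hz : z ∈ nbF X x) (hne : y ≠ z) (h : ‖y - x‖ ≤ 1.07) :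
    ((y - x) * conj (z - x)).re ≤ 0.6222 * (‖y - x‖ * ‖z - x‖) := by
  obtain ⟨h0, h1, h2, _, h4⟩ := setup hX hx hy hz hne
  set r := ‖y - x‖
  set t := ‖z - x‖
  nlinarith [mul_nonneg (sub_nonneg.2 h1) (sub_nonneg.2 h),
    mul_nonneg (sub_nonneg.2 h2) (sub_nonneg.2 h4),
    mul_nonneg (sub_nonneg.2 h1) (sub_nonneg.2 h2),
    mul_nonneg (sub_nonneg.2 h1) (sub_nonneg.2 h4),
    mul_nonneg (sub_nonneg.2 h) (sub_nonneg.2 h2),
    mul_nonneg (sub_nonneg.2 h) (sub_nonneg.2 h4)]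

theorem cos_seven : 0.6223 < Real.cos (2 * Real.pi / 7) := by
  have hpi := Real.pi_pos
  set c := Real.cos (2 * Real.pi / 7) with hc
  have h1 : 1 / 2 < c := by
    rw [hc, ← Real.cos_pi_div_three]
    apply Real.cos_lt_cos_of_nonneg_of_le_pi (by positivity) (by linarith) (by linarith)
  have e3 : Real.cos (3 * (2 * Real.pi / 7)) = 4 * c ^ 3 - 3 * c := Real.cos_three_mul _
  have e4 : Real.cos (3 * (2 * Real.pi / 7)) = 2 * (2 * c ^ 2 - 1) ^ 2 - 1 := by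
    have : 3 * (2 * Real.pi / 7) = 2 * Real.pi - 2 * (2 * (2 * Real.pi / 7)) := by ring
    rw [this, Real.cos_two_pi_sub, Real.cos_two_mul, Real.cos_two_mul]
  rw [e3] at e4
  by_contra hcon
  rw [not_lt] at hcon
  have hf : (c - 1) * (8 * c ^ 3 + 4 * c ^ 2 - 4 * c - 1) = 0 := by linarith
  rcases mul_eq_zero.1 hf with h | h
  · linarith
  · nlinarith [mul_nonneg (sub_nonneg.2 h1.le) (sub_nonneg.2 hcon),
      mul_nonneg (mul_nonneg (sub_nonneg.2 h1.le) (sub_nonneg.2 hcon)) (by linarith : (0:ℝ) ≤ c)]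

end Pool.Agent.Hex
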