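import Pool.Agent.Hex.CosPair
import Pool.Agent.Hex.Arcs

/-!
Module `G7` (at most seven neighbours).  Uses `mem_nbF`, `arcs'`, `cos_pair`, `cos_pair'`,
`cos_seven`.

PROOFS.
* `nb_card_le`: if `card ≥ 8`, `arcs'` with `n = 8`, `cos(2π/8) = cos(π/4) = √2/2 > 0.7 > 0.648`
  contradicts `cos_pair`.
* `nb_seven`: if the conclusion fails, at most one neighbour has distance `≥ 1.07`, so of any two
  distinct neighbours one has distance `< 1.07`; `arcs'` with `n = 7` gives a pair contradicting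
  `cos_pair'` (by symmetry `Re(a conj b) = Re(b conj a)`).
-/

open MeasureTheory Set
open scoped ENNReal ComplexConjugate

namespace Pool.Agent.Hex

theorem G7_prod {X : Set ℂ} (hX : Sep X) {x y z : ℂ} (hy : y ∈ nbF X x)
    (hz : z ∈ nbF X x) : 0 < ‖y - x‖ * ‖z - x‖ := by
  have h1 := ((mem_nbF hX).1 hy).2.1
  have h2 := ((mem_nbF hX).1 hz).2.1
  have h3 : 0 < ‖y - x‖ := norm_pos_iff.2 (sub_ne_zero.2 h1)
  have h4 : 0 < ‖z - x‖ := norm_pos_iff.2 (sub_ne_zero.2 h2)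
  positivity

theorem nb_card_le {X : Set ℂ} (hX : Sep X) {x : ℂ} (hx : x ∈ X) : (nbF X x).card ≤ 7 := by
  by_contra hcon
  push Not at hcon
  obtain ⟨y, hy, z, hz, hne, hle⟩ := arcs' 8 (by norm_num) (nbF X x) (by omega) x
    (fun h => ((mem_nbF hX).1 h).2.1 rfl)
  have h1 := cos_pair hX hx hy hz hne
  have h2 : Real.cos (2 * Real.pi / (8 : ℕ)) = Real.sqrt 2 / 2 := by
    rw [← Real.cos_pi_div_four]
    congr 1
    push_cast
    ring
  have h3 : (1.4 : ℝ) < Real.sqrt 2 := by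
    rw [Real.lt_sqrt (by norm_num)]
    norm_num
  rw [h2] at hle
  have h4 := G7_prod hX hy hz
  have h5 : 0.648 * (‖y - x‖ * ‖z - x‖) < Real.sqrt 2 / 2 * (‖y - x‖ * ‖z - x‖) :=
    mul_lt_mul_of_pos_right (by linarith) h4
  linarith

theorem nb_seven {X : Set ℂ} (hX : Sep X) {x : ℂ} (hx : x ∈ X) (h : (nbF X x).card = 7) :
    ∃ y ∈ nbF X x, ∃ z ∈ nbF X x, y ≠ z ∧ 1.07 ≤ ‖y - x‖ ∧ 1.07 ≤ ‖z - x‖ := by
  by_contra hcon
  push Not at hcon
  obtain ⟨y, hy, z, hz, hne, hle⟩ := arcs' 7 (by norm_num) (nbF X x) (by omega) x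
    (fun h => ((mem_nbF hX).1 h).2.1 rfl)
  have hc := cos_seven
  have h4 := G7_prod hX hy hz
  have h5 : 0.6223 * (‖y - x‖ * ‖z - x‖) < Real.cos (2 * Real.pi / (7 : ℕ)) *
      (‖y - x‖ * ‖z - x‖) :=
    mul_lt_mul_of_pos_right (by exact_mod_cast hc) h4
  rcases lt_or_ge ‖y - x‖ 1.07 with h1 | h1
  · have h2 := cos_pair' hX hx hy hz hne h1.le
    nlinarith
  · have h3 := hcon y hy z hz hne h1
    have h2 := cos_pair' hX hx hz hy hne.symm h3.le
    have e : ((z - x) * conj (y - x)).re = ((y - x) * conj (z - x)).re := by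
      simp only [Complex.mul_re, Complex.conj_re, Complex.conj_im]
      ring
    rw [e, mul_comm ‖z - x‖] at h2
    nlinarith

end Pool.Agent.Hex
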