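import Pool.Agent.Hex.Psi
import Pool.Agent.Hex.G7

/-!
Module `Dfc` (the defect of a point).  Uses `psi_one_le`, `psi_ge_sq`, `psi_ge_one`, `psi_far`,
`mem_nbF`, `nb_card_le`, `nb_seven`.

PROOF.  Let `k = (nbF X x).card ≤ 7`.  All distances `r = ‖y-x‖`, `y ∈ nbF X x`, satisfy
`0 < r < aa`.
* `k = 6`: `dfc = Σ (ψ(r_y) - ψ(1)) ≥ Σ (r_y - 1)² ≥ 0`; if `x` is not `δ`-good, some `y` has
  `|r_y - 1| > δ`, and `dfc ≥ (r_y - 1)² ≥ δ²` (`Finset.single_le_sum`).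
* `k ≤ 5`: `dfc ≥ (k - 6) ψ(1) ≥ -ψ(1) ≥ 0.104598·200 - 1 ≥ 1` (`ψ(1) < 0`).
* `k = 7`: two neighbours at distance `≥ 1.07` (`nb_seven`) contribute `≥ -0.0456 s` each
  (`psi_far`), the other five `≥ ψ(1)`: `dfc ≥ -ψ(1) - 0.0912 s ≥ 0.0133 s - 1 ≥ 1`.
In all cases `dfc ≥ 0`, and `dfc ≥ δ²` if not `δ`-good (`0 ≤ δ ≤ 1`).
-/

open MeasureTheory Set
open scoped ENNReal

namespace Pool.Agent.Hex

theorem Dfc_pos {X : Set ℂ} (hX : Sep X) {x y : ℂ} (hy : y ∈ nbF X x) : 0 < ‖y - x‖ :=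
  norm_pos_iff.2 (sub_ne_zero.2 ((mem_nbF hX).1 hy).2.1)

/-- not six neighbours -/
theorem Dfc_ne {X : Set ℂ} (hX : Sep X) {s : ℝ} (hs : 200 ≤ s) {x : ℂ} (hx : x ∈ X)
    (h6 : (nbF X x).card ≠ 6) : 1 ≤ dfc s X x := by
  have h7 := nb_card_le hX hx
  have hp1 := psi_one_le s hs
  unfold dfc
  rcases (by omega : (nbF X x).card ≤ 5 ∨ (nbF X x).card = 7) with hk | hk
  · have h1 := Finset.card_nsmul_le_sum (nbF X x) (fun y => psi s ‖y - x‖) (psi s 1)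
      (fun y hy => psi_ge_one hs (Dfc_pos hX hy))
    rw [nsmul_eq_mul] at h1
    have hk' : ((nbF X x).card : ℝ) ≤ 5 := by exact_mod_cast hk
    nlinarith
  · obtain ⟨y, hy, z, hz, hne, hy7, hz7⟩ := nb_seven hX hx hk
    have hz' : z ∈ (nbF X x).erase y := Finset.mem_erase.2 ⟨hne.symm, hz⟩
    have e1 := Finset.add_sum_erase (nbF X x) (fun y => psi s ‖y - x‖) hy
    have e2 := Finset.add_sum_erase ((nbF X x).erase y) (fun y => psi s ‖y - x‖) hz'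
    have hc : (((nbF X x).erase y).erase z).card = 5 := by
      rw [Finset.card_erase_of_mem hz', Finset.card_erase_of_mem hy, hk]
    have h1 := Finset.card_nsmul_le_sum (((nbF X x).erase y).erase z)
      (fun y => psi s ‖y - x‖) (psi s 1)
      (fun w hw => psi_ge_one hs (Dfc_pos hX (Finset.mem_of_mem_erase
        (Finset.mem_of_mem_erase hw))))
    rw [nsmul_eq_mul, hc] at h1
    have f1 := psi_far (s := s) (by linarith) hy7
    have f2 := psi_far (s := s) (by linarith) hz7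
    rw [← e1, ← e2]
    push_cast at h1
    linarith

/-- six neighbours -/
theorem Dfc_six {X : Set ℂ} (hX : Sep X) {s : ℝ} (hs : 200 ≤ s) {x : ℂ}
    (h6 : (nbF X x).card = 6) : ∑ y ∈ nbF X x, (‖y - x‖ - 1) ^ 2 ≤ dfc s X x := by
  unfold dfc
  have h1 : ∑ y ∈ nbF X x, (psi s 1 + (‖y - x‖ - 1) ^ 2) ≤ ∑ y ∈ nbF X x, psi s ‖y - x‖ :=
    Finset.sum_le_sum fun y hy => psi_ge_sq hs (Dfc_pos hX hy) ((mem_nbF hX).1 hy).2.2
  rw [Finset.sum_add_distrib, Finset.sum_const, h6, nsmul_eq_mul] at h1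
  push_cast at h1
  linarith

theorem dfc_nonneg {X : Set ℂ} (hX : Sep X) {s : ℝ} (hs : 200 ≤ s) {x : ℂ} (hx : x ∈ X) :
    0 ≤ dfc s X x := by
  by_cases h6 : (nbF X x).card = 6
  · exact (Finset.sum_nonneg fun y _ => sq_nonneg _).trans (Dfc_six hX hs h6)
  · exact zero_le_one.trans (Dfc_ne hX hs hx h6)

theorem dfc_ge {X : Set ℂ} (hX : Sep X) {s : ℝ} (hs : 200 ≤ s) {x : ℂ} (hx : x ∈ X)
    {δ : ℝ} (h0 : 0 ≤ δ) (h1 : δ ≤ 1) (hg : ¬ Good δ X x) : δ ^ 2 ≤ dfc s X x := by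
  by_cases h6 : (nbF X x).card = 6
  · have h2 : ∃ y ∈ nbF X x, δ < |‖y - x‖ - 1| := by
      by_contra hcon
      push Not at hcon
      exact hg ⟨h6, hcon⟩
    obtain ⟨y, hy, hδ⟩ := h2
    have h3 : δ ^ 2 ≤ (‖y - x‖ - 1) ^ 2 := by
      rw [← sq_abs (‖y - x‖ - 1)]
      exact pow_le_pow_left₀ h0 hδ.le 2
    have h4 : (‖y - x‖ - 1) ^ 2 ≤ ∑ y ∈ nbF X x, (‖y - x‖ - 1) ^ 2 :=
      Finset.single_le_sum (f := fun y => (‖y - x‖ - 1) ^ 2) (fun _ _ => sq_nonneg _) hy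
    exact h3.trans (h4.trans (Dfc_six hX hs h6))
  · have h2 := Dfc_ne hX hs hx h6
    nlinarith

end Pool.Agent.Hex
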