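import Pool.Agent.Hex.Pack

/-!
Module `PerInv` (periodicity of everything).  Uses `mem_nbF`.

PROOFS.  `X + γ = X` for `γ ∈ Γ` (`per` is a union of cosets).  All the other statements are
transport of structure: `y ∈ nbF X (z+γ) ↔ y - γ ∈ nbF X z` by `mem_nbF`; `Good` compares card and
distances (`card` of a translate; `Finset.card_bij` or `map`); in `Perf` replace the witness `z` by
`z + γ` (use `hu`); `gcell`: replace `c` by `c ± γ`.
-/

open MeasureTheory Set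
open scoped ENNReal

namespace Pool.Agent.Hex

theorem X_add (C : Cfg) {z γ : ℂ} (hγ : γ ∈ C.Γ) : z + γ ∈ C.X ↔ z ∈ C.X := by
  constructor
  · rintro ⟨x, hx, δ, hδ, h⟩
    exact ⟨x, hx, δ - γ, C.Γ.sub_mem hδ hγ, by linear_combination h⟩
  · rintro ⟨x, hx, δ, hδ, h⟩
    exact ⟨x, hx, δ + γ, C.Γ.add_mem hδ hγ, by rw [h]; ring⟩

private theorem X_sub (C : Cfg) {z γ : ℂ} (hγ : γ ∈ C.Γ) : z - γ ∈ C.X ↔ z ∈ C.X := by
  have := X_add C (z := z) (C.Γ.neg_mem hγ)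
  rwa [← sub_eq_add_neg] at this

theorem mem_nbF_add (C : Cfg) (hX : Sep C.X) {z γ y : ℂ} (hγ : γ ∈ C.Γ) :
    y ∈ nbF C.X (z + γ) ↔ y - γ ∈ nbF C.X z := by
  rw [mem_nbF hX, mem_nbF hX, X_sub C hγ]
  have h1 : y - γ - z = y - (z + γ) := by ring
  rw [h1]
  have h2 : y - γ ≠ z ↔ y ≠ z + γ := by
    rw [Ne, Ne, sub_eq_iff_eq_add]
  rw [h2]

theorem good_add (C : Cfg) (hX : Sep C.X) {z γ : ℂ} (hγ : γ ∈ C.Γ) (δ : ℝ) :
    Good δ C.X (z + γ) ↔ Good δ C.X z := by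
  have hc : (nbF C.X (z + γ)).card = (nbF C.X z).card := by
    apply Finset.card_bij (fun y _ => y - γ)
    · intro y hy
      exact (mem_nbF_add C hX hγ).1 hy
    · intro a _ b _ h
      exact sub_left_injective h
    · intro b hb
      refine ⟨b + γ, ?_, by ring⟩
      rw [mem_nbF_add C hX hγ]
      simpa using hb
  unfold Good
  rw [hc]
  constructor
  · rintro ⟨h1, h2⟩
    refine ⟨h1, fun y hy => ?_⟩
    have := h2 (y + γ) ((mem_nbF_add C hX hγ).2 (by simpa using hy))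
    rwa [show y + γ - (z + γ) = y - z by ring] at this
  · rintro ⟨h1, h2⟩
    refine ⟨h1, fun y hy => ?_⟩
    have := h2 (y - γ) ((mem_nbF_add C hX hγ).1 hy)
    rwa [show y - γ - z = y - (z + γ) by ring] at this

private theorem perf_add_aux (C : Cfg) {u : ℂ → ℂ} (hu : ∀ z, ∀ γ ∈ C.Γ, u (z + γ) = u z)
    (g : ℤ × ℤ) {x γ : ℂ} (hγ : γ ∈ C.Γ) (h : Perf C.X u g x) : Perf C.X u g (x + γ) := by
  intro q hq
  obtain ⟨z, hz, h1, k, h2⟩ := h q hq
  refine ⟨z + γ, (X_add C hγ).2 hz, ?_, k, ?_⟩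
  · rw [hu x γ hγ, show z + γ - (x + γ) - u x * lat q = z - x - u x * lat q by ring]
    exact h1
  · rw [hu x γ hγ, hu z γ hγ]
    exact h2

theorem perf_add (C : Cfg) {u : ℂ → ℂ} (hu : ∀ z, ∀ γ ∈ C.Γ, u (z + γ) = u z) (g : ℤ × ℤ)
    {x γ : ℂ} (hγ : γ ∈ C.Γ) : Perf C.X u g (x + γ) ↔ Perf C.X u g x := by
  constructor
  · intro h
    have := perf_add_aux C hu g (C.Γ.neg_mem hγ) h
    simpa using this
  · exact perf_add_aux C hu g hγ

private theorem gcell_add_aux (C : Cfg) {u : ℂ → ℂ} (hu : ∀ z, ∀ γ ∈ C.Γ, u (z + γ) = u z)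
    (g : ℤ × ℤ) {x γ : ℂ} (hγ : γ ∈ C.Γ) (z : ℂ) (h : z ∈ gcell C.X u g x) :
    z + γ ∈ gcell C.X u g (x + γ) := by
  obtain ⟨h1, h2⟩ := h
  refine ⟨by rwa [show z + γ - (x + γ) = z - x by ring], fun j c hc hcj => ?_⟩
  have h3 := h2 j (c - γ) ((X_sub C hγ).2 hc) (by
    rw [hu x γ hγ] at hcj
    rwa [show c - γ - x - u x * (lat g * om ^ j) = c - (x + γ) - u x * (lat g * om ^ j) by ring])
  rwa [show z + γ - (x + γ) = z - x by ring, show z + γ - c = z - (c - γ) by ring]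

theorem gcell_add (C : Cfg) {u : ℂ → ℂ} (hu : ∀ z, ∀ γ ∈ C.Γ, u (z + γ) = u z) (g : ℤ × ℤ)
    {x γ : ℂ} (hγ : γ ∈ C.Γ) (z : ℂ) : z ∈ gcell C.X u g (x + γ) ↔ z - γ ∈ gcell C.X u g x := by
  constructor
  · intro h
    have := gcell_add_aux C hu g (C.Γ.neg_mem hγ) z h
    rw [show x + γ + -γ = x by ring] at this
    rwa [← sub_eq_add_neg] at this
  · intro h
    have := gcell_add_aux C hu g hγ (z - γ) h
    rwa [sub_add_cancel] at this

end Pool.Agent.Hex
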