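import Pool.Agent.Hex.Chart
import Pool.Agent.Hex.PerInv
import Pool.Agent.Hex.Dfc

/-!
Module `Count` (few points are not perfect).  Uses `chart`, `good_add`, `X_add`, `dfc_ge`,
`dfc_nonneg`, `pack`.

PROOF.  Let `n = nrm g ≥ 3`, `|g| = √n`, `δ = dl g = 1/(10^5 n)`, `B = {x' ∈ S : ¬ Good δ X x'}`.
* `#B·δ² ≤ Σ_{x' ∈ B} dfc ≤ Σ_{x' ∈ S} dfc`, i.e. `#B ≤ 10^10 n² Σ_S dfc`.
* If `x ∈ S` is not perfect, by `chart` there is `z ∈ X` with `‖z-x‖ ≤ 8|g|`, not good; write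
  `z = x' + γ` with `x' ∈ S`, `γ ∈ Γ`; `x' ∈ B` by `good_add`.  So `x` belongs to
  `W x' = {x ∈ S : ∃ γ ∈ Γ, ‖x' + γ - x‖ ≤ 8|g|}` for some `x' ∈ B`.
* `#(W x') ≤ 324 n`: choosing `γ_x` for `x ∈ W x'`, the points `x - γ_x ∈ X` are within `8|g|` of
  `x'` and pairwise distinct (`x - γ_x = y - γ_y` gives `x - y ∈ Γ`, `x = y`), so by `pack`
  `#(W x')·0.485² ≤ (8|g| + 0.485)²`, and `8|g| + 0.485 ≤ 0.485·18|g|` because `|g| ≥ √3`.
* Hence `nonperf ≤ Σ_{x' ∈ B} #(W x') ≤ 324 n #B` (`Finset.card_biUnion_le`).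
-/

open MeasureTheory Set
open scoped ENNReal

namespace Pool.Agent.Hex

lemma Count_S_X (C : Cfg) {x : ℂ} (hx : x ∈ C.S) : x ∈ C.X :=
  ⟨x, hx, 0, C.Γ.zero_mem, by simp⟩

open Classical in
lemma Count_W (C : Cfg) (hX : Sep C.X) {g : ℤ × ℤ} (hg : 3 ≤ nrm g) (x' : ℂ) :
    (((C.S.filter fun x => ∃ γ ∈ C.Γ, ‖x' + γ - x‖ ≤ 8 * ‖lat g‖).card : ℕ) : ℝ) ≤
      324 * (nrm g : ℝ) := by
  set G := ‖lat g‖ with hG
  have hG2 : G ^ 2 = (nrm g : ℝ) := norm_lat_sq g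
  have hG3 : Real.sqrt 3 ≤ G := norm_lat_ge_sqrt3 hg
  have hG4 : (1.73 : ℝ) ≤ G := by linarith [sqrt3_gt]
  set W := C.S.filter fun x => ∃ γ ∈ C.Γ, ‖x' + γ - x‖ ≤ 8 * G with hW
  have hex : ∀ x : ℂ, ∃ γ : ℂ, x ∈ W → γ ∈ C.Γ ∧ ‖x' + γ - x‖ ≤ 8 * G := by
    intro x
    by_cases hx : x ∈ W
    · obtain ⟨γ, h1, h2⟩ := (Finset.mem_filter.1 hx).2
      exact ⟨γ, fun _ => ⟨h1, h2⟩⟩
    · exact ⟨0, fun h => absurd h hx⟩
  choose γ hγ using hex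
  have hinj : Set.InjOn (fun x => x - γ x) (W : Set ℂ) := by
    intro x hx y hy h
    simp only at h
    have h1 := (hγ x hx).1
    have h2 := (hγ y hy).1
    apply C.ineq x (Finset.mem_filter.1 hx).1 y (Finset.mem_filter.1 hy).1
    have : x - y = γ x - γ y := by linear_combination h
    rw [this]
    exact C.Γ.sub_mem h1 h2
  have h1 := pack hX x' (8 * G) (by positivity) (W.image fun x => x - γ x) (by
    intro y hy
    obtain ⟨x, hx, rfl⟩ := Finset.mem_image.1 hy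
    refine ⟨⟨x, (Finset.mem_filter.1 hx).1, -γ x, C.Γ.neg_mem (hγ x hx).1, by ring⟩, ?_⟩
    have : x - γ x - x' = -(x' + γ x - x) := by ring
    rw [this, norm_neg]
    exact (hγ x hx).2)
  rw [Finset.card_image_of_injOn hinj] at h1
  have h2 : (8 * G + 485 / 1000) ^ 2 ≤ (485 / 1000 * (18 * G)) ^ 2 := by
    apply pow_le_pow_left₀ (by positivity)
    linarith
  have h3 : (W.card : ℝ) * (485 / 1000) ^ 2 ≤ (324 * G ^ 2) * (485 / 1000) ^ 2 := by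
    calc _ ≤ _ := h1
      _ ≤ _ := h2
      _ = _ := by ring
  rw [← hG2]
  exact le_of_mul_le_mul_right h3 (by norm_num)

open Classical in
lemma Count_B (C : Cfg) (hX : Sep C.X) {s : ℝ} (hs : 200 ≤ s) {g : ℤ × ℤ} (hg : 3 ≤ nrm g) :
    (((C.S.filter fun x => ¬ Good (dl g) C.X x).card : ℕ) : ℝ) ≤
      10 ^ 10 * (nrm g : ℝ) ^ 2 * ∑ x ∈ C.S, dfc s C.X x := by
  have hn : (3 : ℝ) ≤ (nrm g : ℝ) := by exact_mod_cast hg
  have hd0 : 0 ≤ dl g := by unfold dl; positivity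
  have hd1 : dl g ≤ 1 := by
    unfold dl
    rw [div_le_one (by positivity)]
    nlinarith
  set B := C.S.filter fun x => ¬ Good (dl g) C.X x with hB
  have h1 : (B.card : ℝ) * dl g ^ 2 ≤ ∑ x ∈ C.S, dfc s C.X x := by
    calc (B.card : ℝ) * dl g ^ 2 = ∑ x ∈ B, dl g ^ 2 := by
          rw [Finset.sum_const, nsmul_eq_mul]
      _ ≤ ∑ x ∈ B, dfc s C.X x := by
          apply Finset.sum_le_sum
          intro x hx
          rw [hB, Finset.mem_filter] at hx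
          exact dfc_ge hX hs (Count_S_X C hx.1) hd0 hd1 hx.2
      _ ≤ ∑ x ∈ C.S, dfc s C.X x := by
          apply Finset.sum_le_sum_of_subset_of_nonneg (Finset.filter_subset _ _)
          intro x hx _
          exact dfc_nonneg hX hs (Count_S_X C hx)
  have h2 : dl g ^ 2 * (10 ^ 10 * (nrm g : ℝ) ^ 2) = 1 := by
    unfold dl
    field_simp
  calc (B.card : ℝ) = (B.card : ℝ) * (dl g ^ 2 * (10 ^ 10 * (nrm g : ℝ) ^ 2)) := by
        rw [h2, mul_one]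
    _ = (B.card : ℝ) * dl g ^ 2 * (10 ^ 10 * (nrm g : ℝ) ^ 2) := by ring
    _ ≤ (∑ x ∈ C.S, dfc s C.X x) * (10 ^ 10 * (nrm g : ℝ) ^ 2) :=
        mul_le_mul_of_nonneg_right h1 (by positivity)
    _ = _ := by ring

theorem count_nonperf (C : Cfg) (hX : Sep C.X) {s : ℝ} (hs : 200 ≤ s) {u : ℂ → ℂ}
    (hu : IsFrame C.X u) {g : ℤ × ℤ} (hg : 3 ≤ nrm g) :
    (nonperf C u g : ℝ) ≤
      324 * (nrm g : ℝ) * (10 ^ 10 * (nrm g : ℝ) ^ 2 * ∑ x ∈ C.S, dfc s C.X x) := by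
  classical
  have hn : (3 : ℝ) ≤ (nrm g : ℝ) := by exact_mod_cast hg
  set B := C.S.filter fun x => ¬ Good (dl g) C.X x with hB
  set W : ℂ → Finset ℂ := fun x' => C.S.filter fun x => ∃ γ ∈ C.Γ, ‖x' + γ - x‖ ≤ 8 * ‖lat g‖
    with hW
  have hsub : (C.S.filter fun x => ¬ Perf C.X u g x) ⊆ B.biUnion W := by
    intro x hx
    rw [Finset.mem_filter] at hx
    have hxX := Count_S_X C hx.1
    have : ¬ ∀ z ∈ C.X, ‖z - x‖ ≤ 8 * ‖lat g‖ → Good (dl g) C.X z :=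
      fun h => hx.2 (chart hX hu hg hxX h)
    push Not at this
    obtain ⟨z, ⟨x', hx', γ, hγ, rfl⟩, hz2, hz3⟩ := this
    rw [Finset.mem_biUnion]
    refine ⟨x', ?_, ?_⟩
    · rw [hB, Finset.mem_filter]
      exact ⟨hx', fun h => hz3 ((good_add C hX hγ (dl g)).2 h)⟩
    · simp only [hW, Finset.mem_filter]
      exact ⟨hx.1, γ, hγ, hz2⟩
  have h1 : (nonperf C u g : ℝ) ≤ ∑ x' ∈ B, ((W x').card : ℝ) := by
    have h2 : nonperf C u g ≤ ∑ x' ∈ B, (W x').card := by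
      unfold nonperf
      calc _ ≤ (B.biUnion W).card := by
            apply Finset.card_le_card
            convert hsub
        _ ≤ _ := Finset.card_biUnion_le
    exact_mod_cast h2
  calc (nonperf C u g : ℝ) ≤ ∑ x' ∈ B, ((W x').card : ℝ) := h1
    _ ≤ ∑ x' ∈ B, 324 * (nrm g : ℝ) := Finset.sum_le_sum fun x' _ => Count_W C hX hg x'
    _ = 324 * (nrm g : ℝ) * (B.card : ℝ) := by
        rw [Finset.sum_const, nsmul_eq_mul]; ring
    _ ≤ _ := mul_le_mul_of_nonneg_left (Count_B C hX hs hg) (by positivity)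

end Pool.Agent.Hex
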