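import Pool.Agent.Hex.Basic

/-!
Module `Cover` (covering radius of the Eisenstein lattice).
-/

open MeasureTheory Set
open scoped ENNReal

namespace Pool.Agent.Hex

private lemma norm_aux (z : ℂ) (p : ℤ × ℤ) (x y : ℝ) (hy : z.im = y * (Real.sqrt 3 / 2))
    (hx : z.re = x + y / 2) :
    ‖z - lat p‖ ^ 2 = (x - p.1) ^ 2 + (x - p.1) * (y - p.2) + (y - p.2) ^ 2 := by
  rw [← Complex.normSq_eq_norm_sq, Complex.normSq_apply, Complex.sub_re, Complex.sub_im,
    lat_re, lat_im, hx, hy]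
  have h := sqrt3_sq
  linear_combination ((y - p.2) ^ 2 / 4) * h

theorem cover (z : ℂ) : ∃ p : ℤ × ℤ, ‖z - lat p‖ ≤ 1 / Real.sqrt 3 := by
  have h3 := sqrt3_pos
  have h3s := sqrt3_sq
  set y : ℝ := z.im / (Real.sqrt 3 / 2) with hy
  set x : ℝ := z.re - y / 2 with hx
  have hy' : z.im = y * (Real.sqrt 3 / 2) := by rw [hy]; field_simp
  have hx' : z.re = x + y / 2 := by rw [hx]; ring
  set f := Int.fract x with hf
  set h := Int.fract y with hh
  have hf0 : 0 ≤ f := Int.fract_nonneg x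
  have hf1 : f < 1 := Int.fract_lt_one x
  have hh0 : 0 ≤ h := Int.fract_nonneg y
  have hh1 : h < 1 := Int.fract_lt_one y
  have ex : x = ⌊x⌋ + f := (Int.floor_add_fract x).symm
  have ey : y = ⌊y⌋ + h := (Int.floor_add_fract y).symm
  have fin : ∀ a b : ℤ, (f - a) ^ 2 + (f - a) * (h - b) + (h - b) ^ 2 ≤ 1 / 3 →
      ∃ p : ℤ × ℤ, ‖z - lat p‖ ≤ 1 / Real.sqrt 3 := by
    intro a b hab
    refine ⟨(⌊x⌋ + a, ⌊y⌋ + b), ?_⟩
    apply (sq_le_sq₀ (norm_nonneg _) (by positivity)).1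
    rw [norm_aux z _ x y hy' hx', div_pow, h3s]
    simp only
    push_cast
    have e1 : x - (⌊x⌋ + a) = f - a := by linarith
    have e2 : y - (⌊y⌋ + b) = h - b := by linarith
    rw [e1, e2]
    linarith
  by_contra hcon
  have g : ∀ a b : ℤ, 1 / 3 < (f - a) ^ 2 + (f - a) * (h - b) + (h - b) ^ 2 := by
    intro a b
    by_contra hc
    exact hcon (fin a b (not_lt.1 hc))
  rcases le_total (f + h) 1 with hs | hs
  · have g0 := g 0 0
    have g1 := g 1 0
    have g2 := g 0 1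
    push_cast at g0 g1 g2
    nlinarith [mul_nonneg hf0 (sub_nonneg.2 g1.le), mul_nonneg hh0 (sub_nonneg.2 g2.le),
      mul_nonneg (sub_nonneg.2 hs) (sub_nonneg.2 g0.le), sq_nonneg (f - h),
      sq_nonneg (f - (1 - f - h)), sq_nonneg (h - (1 - f - h))]
  · have g0 := g 1 1
    have g1 := g 0 1
    have g2 := g 1 0
    push_cast at g0 g1 g2
    nlinarith [mul_nonneg (sub_nonneg.2 hf1.le) (sub_nonneg.2 g1.le),
      mul_nonneg (sub_nonneg.2 hh1.le) (sub_nonneg.2 g2.le),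
      mul_nonneg (sub_nonneg.2 hs) (sub_nonneg.2 g0.le), sq_nonneg (f - h),
      sq_nonneg ((1 - f) - (f + h - 1)), sq_nonneg ((1 - h) - (f + h - 1))]

end Pool.Agent.Hex
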