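import Mathlib

/-!
# MP_dd05ac_mp: the hexagonal lattice minimises the periodic Riesz s-energy for s ≥ 200

Common definitions.  Everything happens in `ℂ`.  `om = e^{iπ/3}`, the Eisenstein lattice is
`Λ = {lat p = a + b·om : p = (a,b) ∈ ℤ²}`, `|lat p|² = nrm p = a² + ab + b²`.
Constants: `aa = 2/√3`, cell radius `R₀ = 1/√3`, `P s = 2√3 s`, `F0 s = 6 + 3 s`, separation
constant `0.97 = 97/100`, chart precision `ε = 1/100`, `dl g = 1/(10^5 · nrm g)`.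
-/

open MeasureTheory Set
open scoped ENNReal

namespace Pool.Agent.Hex

/-- `om = e^{iπ/3} = 1/2 + i √3/2`. -/
noncomputable def om : ℂ := ⟨1 / 2, Real.sqrt 3 / 2⟩

/-- The Eisenstein lattice point `a + b·om`. -/
noncomputable def lat (p : ℤ × ℤ) : ℂ := (p.1 : ℂ) + (p.2 : ℂ) * om

/-- Its squared norm `a² + ab + b²`. -/
def nrm (p : ℤ × ℤ) : ℤ := p.1 ^ 2 + p.1 * p.2 + p.2 ^ 2

/-- Multiplication by `om` in coordinates: `om (a + b om) = -b + (a+b) om`. -/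
def rot (p : ℤ × ℤ) : ℤ × ℤ := (-p.2, p.1 + p.2)

/-- Multiplication in coordinates: `lat (mulE p q) = lat p * lat q`. -/
def mulE (p q : ℤ × ℤ) : ℤ × ℤ :=
  (p.1 * q.1 - p.2 * q.2, p.1 * q.2 + p.2 * q.1 + p.2 * q.2)

/-- `a = 2/√3`, twice the covering radius of `Λ`. -/
noncomputable def aa : ℝ := 2 / Real.sqrt 3

/-- `qf r = ∫_r^{2/√3} √(4-3t²) dt` (it is `0` for `r ≥ 2/√3` because `Real.sqrt` of a
negative number is `0`).  `2√3 · (area of {|z|<1/√3, Re z > r/2}) = qf r`. -/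
noncomputable def qf (r : ℝ) : ℝ := ∫ t in r..aa, Real.sqrt (4 - 3 * t ^ 2)

noncomputable def P (s : ℝ) : ℝ := 2 * Real.sqrt 3 * s

noncomputable def F0 (s : ℝ) : ℝ := 6 + 3 * s

/-- `ψ(r) = r^{-s} - s·qf r` -/
noncomputable def psi (s r : ℝ) : ℝ := r ^ (-s) - s * qf r

/-- The periodic set `S + Γ`. -/
def per (Γ : AddSubgroup ℂ) (S : Finset ℂ) : Set ℂ := {z | ∃ x ∈ S, ∃ γ ∈ Γ, z = x + γ}

/-- A periodic configuration: a countable period group `Γ` with a fundamental domain `D` of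
finite area `A`, and a finite set `S` of pairwise `Γ`-inequivalent points. -/
structure Cfg where
  Γ : AddSubgroup ℂ
  S : Finset ℂ
  D : Set ℂ
  A : ℝ
  cnt : Countable Γ
  fd : IsAddFundamentalDomain Γ D (volume : Measure ℂ)
  hA : 0 ≤ A
  vol : (volume : Measure ℂ) D = ENNReal.ofReal A
  ineq : ∀ x ∈ S, ∀ y ∈ S, x - y ∈ Γ → x = y

attribute [instance] Cfg.cnt

/-- The point set of the configuration. -/
def Cfg.X (C : Cfg) : Set ℂ := per C.Γ C.S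

/-- Distinct points of `X` are at distance at least `0.97`. -/
def Sep (X : Set ℂ) : Prop := ∀ x ∈ X, ∀ y ∈ X, x ≠ y → (97 / 100 : ℝ) ≤ ‖y - x‖

/-- Neighbours of `x`: points of `X` other than `x` at distance `< 2/√3`. -/
def Nb (X : Set ℂ) (x : ℂ) : Set ℂ := {y | y ∈ X ∧ y ≠ x ∧ ‖y - x‖ < aa}

open Classical in
/-- The neighbours as a `Finset` (junk value `∅` if there are infinitely many). -/
noncomputable def nbF (X : Set ℂ) (x : ℂ) : Finset ℂ :=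
  if h : (Nb X x).Finite then h.toFinset else ∅

/-- The defect of a point. -/
noncomputable def dfc (s : ℝ) (X : Set ℂ) (x : ℂ) : ℝ :=
  ∑ y ∈ nbF X x, psi s ‖y - x‖ - 6 * psi s 1

/-- `z` is `δ`-good: exactly six neighbours, all at distance within `δ` of `1`. -/
def Good (δ : ℝ) (X : Set ℂ) (z : ℂ) : Prop :=
  (nbF X z).card = 6 ∧ ∀ y ∈ nbF X z, |‖y - z‖ - 1| ≤ δ

/-- A frame: a unit vector `u z` for every `z`, pointing to some neighbour of `z` whenever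
`z` has a neighbour. -/
def IsFrame (X : Set ℂ) (u : ℂ → ℂ) : Prop :=
  (∀ z, ‖u z‖ = 1) ∧
  ∀ z ∈ X, (Nb X z).Nonempty → ∃ y ∈ Nb X z, y - z = (‖y - z‖ : ℂ) * u z

/-- `δ_g = 1/(10^5 |g|²)`. -/
noncomputable def dl (g : ℤ × ℤ) : ℝ := 1 / (10 ^ 5 * (nrm g : ℝ))

/-- `x` is perfect at scale `g`: the chart `λ ↦ x + u_x λ` is within `1/100` of `X` for
`|λ| ≤ 3|g|`, and the frame at the chart points is aligned with `u_x` (mod 60°)
within `1/(100|g|)`. -/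
def Perf (X : Set ℂ) (u : ℂ → ℂ) (g : ℤ × ℤ) (x : ℂ) : Prop :=
  ∀ q : ℤ × ℤ, nrm q ≤ 9 * nrm g → ∃ z ∈ X, ‖z - x - u x * lat q‖ ≤ 1 / 100 ∧
    ∃ h : ℕ, ‖u z - u x * om ^ h‖ ≤ 1 / 100 / ‖lat g‖

/-- Truncated cell of `x` with scale `κ` with respect to the finite family `c i`, `i ∈ I`. -/
def cell {ι : Type*} (κ : ℝ) (x : ℂ) (I : Finset ι) (c : ι → ℂ) : Set ℂ :=
  {z | ‖z - x‖ < κ / Real.sqrt 3 ∧ ∀ i ∈ I, ‖z - x‖ < ‖z - c i‖}

/-- The cell of scale `g` at `x`: truncated Voronoi cell with respect to the (up to six)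
points of `X` which are within `1/100` of `x + u_x g om^j`. -/
def gcell (X : Set ℂ) (u : ℂ → ℂ) (g : ℤ × ℤ) (x : ℂ) : Set ℂ :=
  {z | ‖z - x‖ < ‖lat g‖ / Real.sqrt 3 ∧
    ∀ j : ℕ, ∀ c ∈ X, ‖c - x - u x * (lat g * om ^ j)‖ ≤ 1 / 100 → ‖z - x‖ < ‖z - c‖}

open Classical in
/-- The chart point near `x + u_x l`, if it exists (otherwise the junk value `x`). -/
noncomputable def ch (X : Set ℂ) (u : ℂ → ℂ) (x l : ℂ) : ℂ :=
  if h : ∃ z ∈ X, ‖z - x - u x * l‖ ≤ 1 / 100 then h.choose else x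

open Classical in
/-- Interaction of `x` with the six chart points `x + u_x g om^j`, if `x` is perfect at
scale `g`, else `0`. -/
noncomputable def shE (s : ℝ) (X : Set ℂ) (u : ℂ → ℂ) (g : ℤ × ℤ) (x : ℂ) : ℝ :=
  if Perf X u g x then ∑ j ∈ Finset.range 6, ‖ch X u x (lat g * om ^ j) - x‖ ^ (-s) else 0

open Classical in
/-- Number of points of `S` which are not perfect at scale `g`. -/
noncomputable def nonperf (C : Cfg) (u : ℂ → ℂ) (g : ℤ × ℤ) : ℕ :=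
  (C.S.filter fun x => ¬ Perf C.X u g x).card

/-- Energy of the point `x`. -/
noncomputable def en (s : ℝ) (X : Set ℂ) (x : ℂ) : ℝ≥0∞ :=
  ∑' y : {y // y ∈ X ∧ y ≠ x}, ENNReal.ofReal (‖(y : ℂ) - x‖ ^ (-s))

/-- Energy of the configuration (sum over the points of one period). -/
noncomputable def E (s : ℝ) (Γ : AddSubgroup ℂ) (S : Finset ℂ) : ℝ≥0∞ :=
  ∑ x ∈ S, en s (per Γ S) x

/-- `Z s = Σ_{λ ∈ Λ, λ ≠ 0} |λ|^{-s}`. -/
noncomputable def Z (s : ℝ) : ℝ := ∑' p : {p : ℤ × ℤ // p ≠ 0}, ‖lat p‖ ^ (-s)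

end Pool.Agent.Hex
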