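import Pool.Agent.Hex.Prob

/-!
Module `LattSum` (summability of the lattice sums for `s > 2`).

PROOF.  Use Mathlib's `ZLattice.summable_norm_sub_rpow` / `ZLattice.summable_norm_rpow`
(`Mathlib/Algebra/Module/ZLattice/Summable.lean`) for the `ℤ`-lattice
`L = span ℤ {v₁, v₂} ⊂ ℂ` (`DiscreteTopology L`: it is the `ℤ`-span of an `ℝ`-basis,
`ZSpan`-instances; `Module.finrank ℤ L = 2 < s`), whose elements are exactly those of
`latt v₁ v₂`; `‖z + v‖ = ‖v - (-z)‖`; transport along the obvious equivalence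
`L ≃ latt v₁ v₂`.
-/

open MeasureTheory Set

namespace Pool.Agent.Hex

private theorem LattSum_linInd {v₁ v₂ : ℂ} (h : det2 v₁ v₂ ≠ 0) :
    LinearIndependent ℝ ![v₁, v₂] := by
  rw [LinearIndependent.pair_iff]
  intro a b hab
  have h1 : a * v₁.re + b * v₂.re = 0 := by
    have := congrArg Complex.re hab
    simpa using this
  have h2 : a * v₁.im + b * v₂.im = 0 := by
    have := congrArg Complex.im hab
    simpa using this
  have ha : a * det2 v₁ v₂ = 0 := by
    unfold det2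
    linear_combination v₂.im * h1 - v₂.re * h2
  have hb : b * det2 v₁ v₂ = 0 := by
    unfold det2
    linear_combination v₁.re * h2 - v₁.im * h1
  exact ⟨(mul_eq_zero.1 ha).resolve_right h, (mul_eq_zero.1 hb).resolve_right h⟩

private noncomputable def LattSum_basis {v₁ v₂ : ℂ} (h : det2 v₁ v₂ ≠ 0) :
    Module.Basis (Fin 2) ℝ ℂ :=
  basisOfLinearIndependentOfCardEqFinrank (LattSum_linInd h)
    (by rw [Complex.finrank_real_complex]; rfl)

private theorem LattSum_basis_coe {v₁ v₂ : ℂ} (h : det2 v₁ v₂ ≠ 0) :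
    (LattSum_basis h : Fin 2 → ℂ) = ![v₁, v₂] := by
  unfold LattSum_basis
  exact coe_basisOfLinearIndependentOfCardEqFinrank _ _

private theorem LattSum_mem {v₁ v₂ : ℂ} (h : det2 v₁ v₂ ≠ 0) (z : ℂ) :
    z ∈ Submodule.span ℤ (Set.range (LattSum_basis h)) ↔ z ∈ latt v₁ v₂ := by
  rw [LattSum_basis_coe, Matrix.range_cons, Matrix.range_cons, Matrix.range_empty,
    Set.union_empty, Set.singleton_union, Submodule.mem_span_pair]
  constructor
  · rintro ⟨a, b, rfl⟩
    exact ⟨a, b, by simp [zsmul_eq_mul]⟩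
  · rintro ⟨a, b, rfl⟩
    exact ⟨a, b, by simp [zsmul_eq_mul]⟩

private noncomputable def LattSum_equiv {v₁ v₂ : ℂ} (h : det2 v₁ v₂ ≠ 0) :
    latt v₁ v₂ ≃ Submodule.span ℤ (Set.range (LattSum_basis h)) :=
  Equiv.subtypeEquivRight fun z => (LattSum_mem h z).symm

theorem latt_summable {v₁ v₂ : ℂ} (h : det2 v₁ v₂ ≠ 0) {s : ℝ} (hs : 2 < s) (z : ℂ) :
    Summable fun v : latt v₁ v₂ => ‖z + (v : ℂ)‖ ^ (-s) := by
  have hr : -s < -(Module.finrank ℤ (Submodule.span ℤ (Set.range (LattSum_basis h))) : ℝ) := by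
    rw [ZLattice.rank ℝ, Complex.finrank_real_complex]
    push_cast
    linarith
  have h1 := ZLattice.summable_norm_sub_rpow
    (L := Submodule.span ℤ (Set.range (LattSum_basis h))) (-s) hr (-z)
  rw [← (LattSum_equiv h).summable_iff] at h1
  refine h1.congr fun v => ?_
  show ‖((v : ℂ)) - -z‖ ^ (-s) = ‖z + (v : ℂ)‖ ^ (-s)
  rw [sub_neg_eq_add, add_comm]

theorem latt_summable' {v₁ v₂ : ℂ} (h : det2 v₁ v₂ ≠ 0) {s : ℝ} (hs : 2 < s) :
    Summable fun v : {v : latt v₁ v₂ // v ≠ 0} => ‖((v : latt v₁ v₂) : ℂ)‖ ^ (-s) := by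
  have h1 := latt_summable h hs 0
  have h2 : Summable fun v : latt v₁ v₂ => ‖(v : ℂ)‖ ^ (-s) := by
    simpa using h1
  exact h2.comp_injective Subtype.val_injective

end Pool.Agent.Hex
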