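import Pool.Agent.Hex.Basic

/-!
Module `PerSum` (the periodic energy as a sum over pairs and periods).

PROOF.  For `x ∈ S` the index set `{y // y ∈ per Γ S ∧ y ≠ x}` is in bijection with
`{γ : Γ // γ ≠ 0} ⊕ (Σ y ∈ S.erase x, Γ)`: `γ ↦ x + γ` and `(y, γ) ↦ y + γ` (injective: if
`y + γ = y' + γ'` with `y, y' ∈ S` then `y - y' ∈ Γ` so `y = y'` by `hineq`, `γ = γ'`; for
`y ∈ S.erase x` the point `y + γ` is not in `x + Γ`; surjective by definition of `per`).  So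
`en s (per Γ S) x = Σ'_{γ ≠ 0} ofReal(‖γ‖^{-s}) + Σ_{y ∈ S.erase x} Σ'_γ ofReal(‖y - x + γ‖^{-s})`.
Sum over `x ∈ S`.
-/

open MeasureTheory Set
open scoped ENNReal

namespace Pool.Agent.Hex

private theorem PerSum_tsum (Γ : AddSubgroup ℂ) (S : Finset ℂ)
    (hineq : ∀ x ∈ S, ∀ y ∈ S, x - y ∈ Γ → x = y) (g : ℂ → ℝ≥0∞) :
    ∑' z : per Γ S, g z = ∑ y ∈ S, ∑' γ : Γ, g (y + (γ : ℂ)) := by
  let F : (Σ _ : S, Γ) → per Γ S := fun p => ⟨(p.1 : ℂ) + (p.2 : ℂ), p.1, p.1.2, p.2, p.2.2, rfl⟩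
  have hF : Function.Bijective F := by
    constructor
    · rintro ⟨⟨y, hy⟩, ⟨γ, hγ⟩⟩ ⟨⟨y', hy'⟩, ⟨γ', hγ'⟩⟩ h
      have h' : y + γ = y' + γ' := congrArg (fun z : per Γ S => (z : ℂ)) h
      have h1 : y - y' ∈ Γ := by
        have : y - y' = γ' - γ := by linear_combination h'
        rw [this]
        exact Γ.sub_mem hγ' hγ
      have h2 := hineq y hy y' hy' h1
      subst h2
      have h3 : γ = γ' := by linear_combination h'
      subst h3
      rfl
    · rintro ⟨z, y, hy, γ, hγ, rfl⟩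
      exact ⟨⟨⟨y, hy⟩, ⟨γ, hγ⟩⟩, rfl⟩
  rw [← (Equiv.ofBijective F hF).tsum_eq (fun z : per Γ S => g z)]
  have h := ENNReal.tsum_sigma (fun (y : S) (γ : Γ) => g ((y : ℂ) + (γ : ℂ)))
  refine Eq.trans h ?_
  rw [tsum_fintype]
  exact Finset.sum_coe_sort S (fun y => ∑' γ : Γ, g (y + (γ : ℂ)))

private theorem PerSum_en (Γ : AddSubgroup ℂ) (S : Finset ℂ)
    (hineq : ∀ x ∈ S, ∀ y ∈ S, x - y ∈ Γ → x = y) (s : ℝ) (x : ℂ) (hx : x ∈ S) :
    en s (per Γ S) x = ∑' γ : {γ : Γ // γ ≠ 0}, ENNReal.ofReal (‖((γ : Γ) : ℂ)‖ ^ (-s)) +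
      ∑ y ∈ S.erase x, ∑' γ : Γ, ENNReal.ofReal (‖y - x + (γ : ℂ)‖ ^ (-s)) := by
  classical
  let f : ℂ → ℝ≥0∞ := fun z => ENNReal.ofReal (‖z - x‖ ^ (-s))
  let g : ℂ → ℝ≥0∞ := fun z => if z = x then 0 else f z
  have h1 : en s (per Γ S) x = ∑' z : per Γ S, g z := by
    have e1 := tsum_subtype {z | z ∈ per Γ S ∧ z ≠ x} f
    have e2 := tsum_subtype (per Γ S) g
    rw [e2]
    refine Eq.trans ?_ (e1.trans ?_)
    · rfl
    · refine tsum_congr (fun z => ?_)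
      by_cases hz : z ∈ per Γ S
      · by_cases hzx : z = x
        · have n1 : z ∉ {z | z ∈ per Γ S ∧ z ≠ x} := fun h => h.2 hzx
          rw [Set.indicator_of_notMem n1, Set.indicator_of_mem hz]
          simp only [g, hzx, if_true]
        · have n1 : z ∈ {z | z ∈ per Γ S ∧ z ≠ x} := ⟨hz, hzx⟩
          rw [Set.indicator_of_mem n1, Set.indicator_of_mem hz]
          simp only [g, hzx, if_false]
      · have n1 : z ∉ {z | z ∈ per Γ S ∧ z ≠ x} := fun h => hz h.1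
        rw [Set.indicator_of_notMem n1, Set.indicator_of_notMem hz]
  rw [h1, PerSum_tsum Γ S hineq g, ← Finset.add_sum_erase S _ hx]
  congr 1
  · have e1 := tsum_subtype {γ : Γ | γ ≠ 0} (fun γ : Γ => ENNReal.ofReal (‖(γ : ℂ)‖ ^ (-s)))
    refine Eq.trans ?_ (Eq.trans e1.symm ?_)
    · refine tsum_congr (fun γ => ?_)
      by_cases h0 : γ = 0
      · have n1 : γ ∉ {γ : Γ | γ ≠ 0} := fun h => h h0
        rw [Set.indicator_of_notMem n1]
        have : x + (γ : ℂ) = x := by rw [h0]; simp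
        simp only [g, this, if_true]
      · have n1 : γ ∈ {γ : Γ | γ ≠ 0} := h0
        rw [Set.indicator_of_mem n1]
        have : ¬ x + (γ : ℂ) = x := by
          intro h
          apply h0
          apply Subtype.ext
          show (γ : ℂ) = 0
          linear_combination h
        simp only [g, this, if_false, f]
        rw [add_sub_cancel_left]
    · rfl
  · refine Finset.sum_congr rfl (fun y hy => tsum_congr (fun γ => ?_))
    have hyx : y ≠ x := Finset.ne_of_mem_erase hy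
    have hyS : y ∈ S := Finset.mem_of_mem_erase hy
    have : ¬ y + (γ : ℂ) = x := by
      intro h
      apply hyx
      refine (hineq x hx y hyS ?_).symm
      have : x - y = (γ : ℂ) := by linear_combination -h
      rw [this]
      exact γ.2
    simp only [g, this, if_false, f]
    rw [add_sub_right_comm]

theorem E_eq (Γ : AddSubgroup ℂ) (S : Finset ℂ) (hineq : ∀ x ∈ S, ∀ y ∈ S, x - y ∈ Γ → x = y)
    (s : ℝ) :
    E s Γ S = ∑ x ∈ S, (∑' γ : {γ : Γ // γ ≠ 0}, ENNReal.ofReal (‖((γ : Γ) : ℂ)‖ ^ (-s)) +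
      ∑ y ∈ S.erase x, ∑' γ : Γ, ENNReal.ofReal (‖y - x + (γ : ℂ)‖ ^ (-s))) := by
  unfold E
  exact Finset.sum_congr rfl (fun x hx => PerSum_en Γ S hineq s x hx)

end Pool.Agent.Hex
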