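import Pool.Agent.Hex.Prob
import Pool.Agent.Hex.PerSum
import Pool.Agent.Hex.LattSum

/-!
Module `EpReal` (the energy of the problem and the `ℝ≥0∞`-valued periodic energy).  Uses
`E_eq`, `latt_summable`, `latt_summable'`.

PROOFS.
`Ep_top`: one of the terms `Kp` is `⊤`, and no term is `⊥` (each is `⊤` or a real number), so the sum
is `⊤` (`EReal`: a finite sum without `⊥` containing `⊤` is `⊤`; e.g. by induction, or
`EReal.add_top_of_ne_bot`).
`Ep_eq`: if all `ω i - ω j ∉ V` for `i ≠ j`, all terms are real (`EReal.coe_finset_sum`-type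
lemma), and `Σ_i Σ_{j ≠ i} (L(ω i - ω j) - c) = Σ_i Σ_{j≠i} L(ω i - ω j) - N (N-1) c`, where
`L z = Σ'_v ‖z + v‖^{-s}`.
`E_eq_Ep`: `ω` is injective (else `ω i - ω j = 0 ∈ V`); with `S = univ.image ω`, `E_eq` gives
`E s V S = Σ_i (Σ'_{v ≠ 0} ofReal ‖v‖^{-s} + Σ_{j≠i} Σ'_v ofReal ‖ω j - ω i + v‖^{-s})`, and
`Σ'_v ofReal f = ofReal (Σ'_v f)` for `f ≥ 0` summable (`ENNReal.ofReal_tsum_of_nonneg`); swap
the roles of `i` and `j` in the double sum (`Finset.sum_comm`) or use `L(-z) = L(z)`.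
-/

open MeasureTheory Set
open scoped ENNReal

namespace Pool.Agent.Hex

private lemma ereal_sum_ne_bot {ι : Type*} (s : Finset ι) (f : ι → EReal)
    (h : ∀ i ∈ s, f i ≠ ⊥) : ∑ i ∈ s, f i ≠ ⊥ := by
  classical
  induction s using Finset.induction_on with
  | empty => simp
  | insert a s ha ih =>
    rw [Finset.sum_insert ha, Ne, EReal.add_eq_bot_iff, not_or]
    exact ⟨h a (Finset.mem_insert_self _ _), ih fun i hi => h i (Finset.mem_insert_of_mem hi)⟩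

private lemma ereal_sum_top {ι : Type*} (s : Finset ι) (f : ι → EReal)
    (h : ∀ i ∈ s, f i ≠ ⊥) {i : ι} (hi : i ∈ s) (ht : f i = ⊤) : ∑ i ∈ s, f i = ⊤ := by
  classical
  rw [← Finset.add_sum_erase s f hi, ht]
  exact EReal.top_add_of_ne_bot (ereal_sum_ne_bot _ _ fun j hj => h j (Finset.mem_of_mem_erase hj))

private lemma Kp_ne_bot (s : ℝ) (V : AddSubgroup ℂ) (x y : ℂ) : Kp s V x y ≠ ⊥ := by
  unfold Kp
  split_ifs
  · exact top_ne_bot
  · exact EReal.coe_ne_bot _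

theorem Ep_top {s : ℝ} {V : AddSubgroup ℂ} {N : ℕ} (ω : Fin N → ℂ) {i j : Fin N} (hij : i ≠ j)
    (h : ω i - ω j ∈ V) : Ep s V ω = ⊤ := by
  unfold Ep
  refine ereal_sum_top _ _ (fun a _ => ereal_sum_ne_bot _ _ fun b _ => Kp_ne_bot s V _ _)
    (Finset.mem_univ i) ?_
  refine ereal_sum_top _ _ (fun b _ => Kp_ne_bot s V _ _)
    (Finset.mem_erase.2 ⟨Ne.symm hij, Finset.mem_univ j⟩) ?_
  unfold Kp
  rw [if_pos h]

private lemma ereal_coe_sum {ι : Type*} (s : Finset ι) (f : ι → ℝ) :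
    ((∑ i ∈ s, f i : ℝ) : EReal) = ∑ i ∈ s, (f i : EReal) := by
  classical
  induction s using Finset.induction_on with
  | empty => simp
  | insert a s ha ih => rw [Finset.sum_insert ha, Finset.sum_insert ha, EReal.coe_add, ih]

theorem Ep_eq {s : ℝ} {V : AddSubgroup ℂ} {N : ℕ} (ω : Fin N → ℂ)
    (h : ∀ i j, i ≠ j → ω i - ω j ∉ V) :
    Ep s V ω = (((∑ i, ∑ j ∈ Finset.univ.erase i, ∑' v : V, ‖ω i - ω j + (v : ℂ)‖ ^ (-s)) -
      (N : ℝ) * (N - 1) * (2 * Real.pi / (Real.Gamma (s / 2) * (s - 2))) : ℝ) : EReal) := by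
  set c : ℝ := 2 * Real.pi / (Real.Gamma (s / 2) * (s - 2)) with hc
  have h1 : Ep s V ω = ((∑ i, ∑ j ∈ Finset.univ.erase i,
      ((∑' v : V, ‖ω i - ω j + (v : ℂ)‖ ^ (-s)) - c) : ℝ) : EReal) := by
    unfold Ep
    rw [ereal_coe_sum]
    refine Finset.sum_congr rfl fun i _ => ?_
    rw [ereal_coe_sum]
    refine Finset.sum_congr rfl fun j hj => ?_
    unfold Kp
    rw [if_neg (h i j (Ne.symm (Finset.ne_of_mem_erase hj)))]
  rw [h1]
  congr 1
  have h2 : ∀ i : Fin N, ∑ j ∈ Finset.univ.erase i,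
      ((∑' v : V, ‖ω i - ω j + (v : ℂ)‖ ^ (-s)) - c) =
      (∑ j ∈ Finset.univ.erase i, ∑' v : V, ‖ω i - ω j + (v : ℂ)‖ ^ (-s)) - ((N : ℝ) - 1) * c := by
    intro i
    have hN : 1 ≤ N := by
      have := i.2
      omega
    rw [Finset.sum_sub_distrib, Finset.sum_const, Finset.card_erase_of_mem (Finset.mem_univ i),
      Finset.card_univ, Fintype.card_fin, nsmul_eq_mul, Nat.cast_sub hN, Nat.cast_one]
  rw [Finset.sum_congr rfl fun i _ => h2 i, Finset.sum_sub_distrib, Finset.sum_const,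
    Finset.card_univ, Fintype.card_fin, nsmul_eq_mul]
  ring

theorem E_eq_Ep {v₁ v₂ : ℂ} (hd : det2 v₁ v₂ ≠ 0) {s : ℝ} (hs : 2 < s) {N : ℕ}
    (ω : Fin N → ℂ) (h : ∀ i j, i ≠ j → ω i - ω j ∉ latt v₁ v₂) :
    E s (latt v₁ v₂) (Finset.univ.image ω) =
      ENNReal.ofReal (N * zetaV s (latt v₁ v₂) +
        ∑ i, ∑ j ∈ Finset.univ.erase i, ∑' v : latt v₁ v₂, ‖ω i - ω j + (v : ℂ)‖ ^ (-s)) := by
  have hinj : Function.Injective ω := by
    intro i j hij
    by_contra hne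
    refine h i j hne ?_
    rw [hij, sub_self]
    exact zero_mem _
  have hineq : ∀ x ∈ Finset.univ.image ω, ∀ y ∈ Finset.univ.image ω,
      x - y ∈ latt v₁ v₂ → x = y := by
    intro x hx y hy hxy
    obtain ⟨i, _, rfl⟩ := Finset.mem_image.1 hx
    obtain ⟨j, _, rfl⟩ := Finset.mem_image.1 hy
    by_contra hne
    exact h i j (fun hij => hne (by rw [hij])) hxy
  have hz : ∑' γ : {γ : latt v₁ v₂ // γ ≠ 0},
      ENNReal.ofReal (‖((γ : latt v₁ v₂) : ℂ)‖ ^ (-s)) =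
      ENNReal.ofReal (zetaV s (latt v₁ v₂)) := by
    unfold zetaV
    rw [ENNReal.ofReal_tsum_of_nonneg (fun γ => Real.rpow_nonneg (norm_nonneg _) _)
      (latt_summable' hd hs)]
  have hL : ∀ z : ℂ, ∑' γ : latt v₁ v₂, ENNReal.ofReal (‖z + (γ : ℂ)‖ ^ (-s)) =
      ENNReal.ofReal (∑' γ : latt v₁ v₂, ‖z + (γ : ℂ)‖ ^ (-s)) := by
    intro z
    rw [ENNReal.ofReal_tsum_of_nonneg (fun γ => Real.rpow_nonneg (norm_nonneg _) _)
      (latt_summable hd hs z)]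
  have hL0 : ∀ z : ℂ, 0 ≤ ∑' γ : latt v₁ v₂, ‖z + (γ : ℂ)‖ ^ (-s) := fun z =>
    tsum_nonneg fun γ => Real.rpow_nonneg (norm_nonneg _) _
  have hz0 : 0 ≤ zetaV s (latt v₁ v₂) := tsum_nonneg fun γ => Real.rpow_nonneg (norm_nonneg _) _
  rw [E_eq _ _ hineq s, Finset.sum_image fun a _ b _ hab => hinj hab]
  have herase : ∀ i : Fin N, (Finset.univ.image ω).erase (ω i) = (Finset.univ.erase i).image ω := by
    intro i
    ext z
    simp only [Finset.mem_erase, Finset.mem_image, Finset.mem_univ, true_and, and_true]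
    constructor
    · rintro ⟨h1, j, rfl⟩
      exact ⟨j, fun hji => h1 (by rw [hji]), rfl⟩
    · rintro ⟨j, h1, rfl⟩
      exact ⟨fun h2 => h1 (hinj h2), j, rfl⟩
  have hterm : ∀ i : Fin N, (∑' γ : {γ : latt v₁ v₂ // γ ≠ 0},
      ENNReal.ofReal (‖((γ : latt v₁ v₂) : ℂ)‖ ^ (-s)) +
      ∑ y ∈ (Finset.univ.image ω).erase (ω i), ∑' γ : latt v₁ v₂,
        ENNReal.ofReal (‖y - ω i + (γ : ℂ)‖ ^ (-s))) =
      ENNReal.ofReal (zetaV s (latt v₁ v₂) + ∑ j ∈ Finset.univ.erase i,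
        ∑' γ : latt v₁ v₂, ‖ω j - ω i + (γ : ℂ)‖ ^ (-s)) := by
    intro i
    rw [hz, herase i, Finset.sum_image fun a _ b _ hab => hinj hab,
      ENNReal.ofReal_add hz0 (Finset.sum_nonneg fun j _ => hL0 _),
      ENNReal.ofReal_sum_of_nonneg fun j _ => hL0 _]
    congr 1
    exact Finset.sum_congr rfl fun j _ => hL _
  rw [Finset.sum_congr rfl fun i _ => hterm i,
    ← ENNReal.ofReal_sum_of_nonneg fun i _ => add_nonneg hz0 (Finset.sum_nonneg fun j _ => hL0 _)]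
  congr 1
  rw [Finset.sum_add_distrib, Finset.sum_const, Finset.card_univ, Fintype.card_fin, nsmul_eq_mul]
  congr 1
  exact Finset.sum_comm' fun i j => by
    simp only [Finset.mem_univ, Finset.mem_erase, ne_eq, and_true, true_and]
    exact ⟨fun h => fun h' => h h'.symm, fun h => fun h' => h h'.symm⟩

end Pool.Agent.Hex
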