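import Pool.Agent.Hex.Lim

/-! Assembly of the final statement. -/

open MeasureTheory Set Filter
open scoped ENNReal Topology

namespace Pool.Agent.Hex

theorem star_optimal {s : ℝ} (hs : 200 ≤ s) (m : ℕ) (hm : 1 ≤ m) (ω : Fin (m ^ 2) → ℂ)
    (hi : Function.Injective ω) (hr : range ω = {z | z ∈ Ω2 ∧ (m : ℂ) * z ∈ V2}) :
    Ep s V2 ω = infE s V2 Ω2 (m ^ 2) := by
  apply le_antisymm
  · apply le_iInf
    rintro ⟨ω', h'⟩
    have h1 := Ep_lower (v₁ := (cc : ℂ)) (v₂ := ww) (by rw [det2_V2]; simp) hs ω'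
    rw [Ep_star m hm ω hi hr (by linarith)]
    exact h1
  · exact iInf_le (fun ω : {ω : Fin (m ^ 2) → ℂ // ∀ i, ω i ∈ Ω2} => Ep s V2 ω.1)
      ⟨ω, fun i => by
        have : ω i ∈ range ω := ⟨i, rfl⟩
        rw [hr] at this
        exact this.1⟩

end Pool.Agent.Hex
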