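import Pool.Agent.Hex.PerInv

/-!
Module `Frame` (existence of a `Γ`-periodic frame).  Uses `X_add`.

PROOF.
`exists_frame`: for `w : ℂ` let `u0 w` be: if `w ∈ X` and `Nb X w` is nonempty, choose `y ∈ Nb X w`
and put `u0 w = (y-w)/‖y-w‖`; otherwise `u0 w = 1`.  Put `u z := u0 (Quotient.out (z : ℂ ⧸ Γ))`
(`QuotientAddGroup.mk z`).  It is `Γ`-periodic by construction, unit valued; and for `z ∈ X` with
`Nb X z ≠ ∅`, `w = Quotient.out (z : ℂ ⧸ Γ) = z + γ` with `γ ∈ Γ`, so `w ∈ X`, `Nb X w = Nb X z + γ`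
is nonempty, the chosen `y ∈ Nb X w` gives `y - γ ∈ Nb X z` with `(y - γ) - z = y - w`.
-/

open MeasureTheory Set
open scoped ENNReal

namespace Pool.Agent.Hex

theorem exists_frame (C : Cfg) :
    ∃ u : ℂ → ℂ, IsFrame C.X u ∧ ∀ z, ∀ γ ∈ C.Γ, u (z + γ) = u z := by
  classical
  set u0 : ℂ → ℂ := fun w => if h : (Nb C.X w).Nonempty then
    ((h.some - w) / (‖h.some - w‖ : ℂ)) else 1 with hu0
  have hne : ∀ w (h : (Nb C.X w).Nonempty), h.some - w ≠ 0 := by
    intro w h h0
    exact h.some_mem.2.1 (sub_eq_zero.1 h0)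
  have hunit : ∀ w, ‖u0 w‖ = 1 := by
    intro w
    by_cases h : (Nb C.X w).Nonempty
    · have h1 : u0 w = (h.some - w) / (‖h.some - w‖ : ℂ) := by
        simp only [hu0]; rw [dif_pos h]
      rw [h1, norm_div, Complex.norm_real, norm_norm]
      exact div_self (norm_ne_zero_iff.2 (hne w h))
    · have h1 : u0 w = 1 := by
        simp only [hu0]; rw [dif_neg h]
      rw [h1, norm_one]
  refine ⟨fun z => u0 (Quotient.out (QuotientAddGroup.mk z : ℂ ⧸ C.Γ)), ⟨fun z => hunit _, ?_⟩, ?_⟩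
  · intro z hz hNb
    set w : ℂ := Quotient.out (QuotientAddGroup.mk z : ℂ ⧸ C.Γ) with hw
    have hwz : -z + w ∈ C.Γ := by
      rw [← QuotientAddGroup.eq]
      exact (Quotient.out_eq (QuotientAddGroup.mk z : ℂ ⧸ C.Γ)).symm
    set γ : ℂ := w - z with hγ
    have hγm : γ ∈ C.Γ := by rw [hγ, sub_eq_neg_add]; exact hwz
    have hwe : w = z + γ := by rw [hγ]; ring
    obtain ⟨y0, hy0⟩ := hNb
    have hNw : (Nb C.X w).Nonempty := by
      refine ⟨y0 + γ, (X_add C hγm).2 hy0.1, ?_, ?_⟩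
      · intro h
        apply hy0.2.1
        rw [hwe] at h
        exact add_right_cancel h
      · rw [hwe, show y0 + γ - (z + γ) = y0 - z by ring]
        exact hy0.2.2
    have h1 : u0 w = (hNw.some - w) / (‖hNw.some - w‖ : ℂ) := by
      simp only [hu0]; rw [dif_pos hNw]
    have hy := hNw.some_mem
    set y := hNw.some with hydef
    have hX : y - γ ∈ C.X := by
      have := X_add C (z := y) (C.Γ.neg_mem hγm)
      rw [← sub_eq_add_neg] at this
      exact this.2 hy.1
    have hsub : y - γ - z = y - w := by rw [hwe]; ring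
    refine ⟨y - γ, ⟨hX, ?_, ?_⟩, ?_⟩
    · intro h
      apply hy.2.1
      rw [hwe, ← h]; ring
    · rw [hsub]; exact hy.2.2
    · rw [hsub]
      show y - w = (‖y - w‖ : ℂ) * u0 w
      rw [h1]
      have h3 : (‖y - w‖ : ℂ) ≠ 0 := by
        rw [Complex.ofReal_ne_zero, norm_ne_zero_iff]
        exact hne w hNw
      field_simp
  · intro z γ hγ
    have : (QuotientAddGroup.mk (z + γ) : ℂ ⧸ C.Γ) = QuotientAddGroup.mk z := by
      rw [QuotientAddGroup.eq]
      have : -(z + γ) + z = -γ := by ring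
      rw [this]
      exact C.Γ.neg_mem hγ
    simp only [this]

end Pool.Agent.Hex
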