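import Pool.Agent.Hex.Basic

/-!
Module `Pack` (packing bounds).
-/

open MeasureTheory Set
open scoped ENNReal

namespace Pool.Agent.Hex

theorem pack {X : Set ℂ} (hX : Sep X) (x : ℂ) (R : ℝ) (hR : 0 ≤ R) (T : Finset ℂ)
    (hT : ∀ y ∈ T, y ∈ X ∧ ‖y - x‖ ≤ R) :
    (T.card : ℝ) * (485 / 1000) ^ 2 ≤ (R + 485 / 1000) ^ 2 := by
  have hdis : (↑T : Set ℂ).PairwiseDisjoint fun y => Metric.ball y (485 / 1000 : ℝ) := by
    intro y hy z hz hne
    apply Metric.ball_disjoint_ball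
    have := hX z (hT z hz).1 y (hT y hy).1 (Ne.symm hne)
    rw [dist_eq_norm]
    linarith
  have hsub : (⋃ y ∈ T, Metric.ball y (485 / 1000 : ℝ)) ⊆
      Metric.closedBall x (R + 485 / 1000) := by
    intro w hw
    simp only [Set.mem_iUnion] at hw
    obtain ⟨y, hy, hw⟩ := hw
    rw [Metric.mem_ball, dist_eq_norm] at hw
    rw [Metric.mem_closedBall, dist_eq_norm]
    have h1 := (hT y hy).2
    have h2 : w - x = (w - y) + (y - x) := by ring
    rw [h2]
    have h3 := norm_add_le (w - y) (y - x)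
    linarith
  have hm := measure_mono (μ := (volume : Measure ℂ)) hsub
  rw [measure_biUnion_finset hdis (fun y _ => measurableSet_ball)] at hm
  simp only [Complex.volume_ball, Complex.volume_closedBall] at hm
  rw [Finset.sum_const, nsmul_eq_mul] at hm
  have hr : (0 : ℝ) ≤ 485 / 1000 := by norm_num
  have hRr : (0 : ℝ) ≤ R + 485 / 1000 := by positivity
  rw [← ENNReal.ofReal_pow hr, ← ENNReal.ofReal_pow hRr] at hm
  have hpi : ((NNReal.pi : NNReal) : ℝ≥0∞) = ENNReal.ofReal Real.pi := by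
    rw [← NNReal.coe_real_pi, ENNReal.ofReal_coe_nnreal]
  rw [hpi, ← ENNReal.ofReal_natCast, ← ENNReal.ofReal_mul (by positivity),
    ← ENNReal.ofReal_mul (by positivity), ← ENNReal.ofReal_mul (by positivity)] at hm
  rw [ENNReal.ofReal_le_ofReal_iff (by positivity)] at hm
  have hp := Real.pi_pos
  rw [← mul_assoc] at hm
  exact le_of_mul_le_mul_right hm hp

theorem finite_ball {X : Set ℂ} (hX : Sep X) (x : ℂ) (R : ℝ) :
    {y | y ∈ X ∧ ‖y - x‖ ≤ R}.Finite := by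
  by_contra hinf
  have hinf : {y | y ∈ X ∧ ‖y - x‖ ≤ R}.Infinite := hinf
  obtain ⟨n, hn⟩ := exists_nat_gt ((|R| + 485 / 1000) ^ 2 / (485 / 1000) ^ 2)
  obtain ⟨T, hT, hc⟩ := hinf.exists_subset_card_eq n
  have h := pack hX x |R| (abs_nonneg R) T (fun y hy => by
    have := hT (Finset.mem_coe.2 hy)
    exact ⟨this.1, this.2.trans (le_abs_self R)⟩)
  rw [hc] at h
  rw [div_lt_iff₀ (by norm_num)] at hn
  linarith

theorem Nb_finite {X : Set ℂ} (hX : Sep X) (x : ℂ) : (Nb X x).Finite := by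
  apply (finite_ball hX x 2).subset
  intro y hy
  have h := aa_lt
  exact ⟨hy.1, by linarith [hy.2.2]⟩

theorem mem_nbF {X : Set ℂ} (hX : Sep X) {x y : ℂ} :
    y ∈ nbF X x ↔ y ∈ X ∧ y ≠ x ∧ ‖y - x‖ < aa := by
  unfold nbF
  rw [dif_pos (Nb_finite hX x), Set.Finite.mem_toFinset]
  rfl

end Pool.Agent.Hex
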