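import Pool.Agent.Hex.Area
import Pool.Agent.Hex.Pack

/-!
Module `Gcell` (chart points and cells of a perfect point).  Uses `measurableSet_cell`.

PROOFS.  `ch_spec`: unfold `ch`; the existence is `Perf` for `q` (`Classical.choose_spec`).
`ch_spec_j`: `lat g * om^j = lat (rot^[j] g)`, `nrm (rot^[j] g) = nrm g ≤ 9 nrm g`
(`lat_rot_iter`, `nrm_rot_iter`, `nrm_nonneg`).
`ch_unique`: two points of `X` within `1/100` of the same point are at distance
`≤ 2/100 < 97/100`, so equal by `Sep`.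
`norm_ch_ge`: `‖u x * (lat g * om^j)‖ = ‖lat g‖`, triangle inequality.
`gcell_eq`: in the definition of `gcell`, `c` is necessarily `ch X u x (lat g * om^j)`
(`ch_unique`), and `om^j = om^(j % 6)` (`om_pow_mod`).
`measurableSet_gcell`: from `gcell_eq` and `measurableSet_cell`.
-/

open MeasureTheory Set
open scoped ENNReal

namespace Pool.Agent.Hex

theorem ch_spec {X : Set ℂ} {u : ℂ → ℂ} {g : ℤ × ℤ} {x : ℂ} (hp : Perf X u g x) {q : ℤ × ℤ}
    (hq : nrm q ≤ 9 * nrm g) :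
    ch X u x (lat q) ∈ X ∧ ‖ch X u x (lat q) - x - u x * lat q‖ ≤ 1 / 100 := by
  obtain ⟨z, hz, h1, -⟩ := hp q hq
  have h : ∃ z ∈ X, ‖z - x - u x * lat q‖ ≤ 1 / 100 := ⟨z, hz, h1⟩
  unfold ch
  rw [dif_pos h]
  exact h.choose_spec

theorem ch_spec_j {X : Set ℂ} {u : ℂ → ℂ} {g : ℤ × ℤ} {x : ℂ} (hp : Perf X u g x) (j : ℕ) :
    ch X u x (lat g * om ^ j) ∈ X ∧
      ‖ch X u x (lat g * om ^ j) - x - u x * (lat g * om ^ j)‖ ≤ 1 / 100 := by
  rw [← lat_rot_iter]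
  apply ch_spec hp
  rw [nrm_rot_iter]
  have := nrm_nonneg g
  omega

theorem ch_unique {X : Set ℂ} (hX : Sep X) {u : ℂ → ℂ} {x l c : ℂ} (hc : c ∈ X)
    (h : ‖c - x - u x * l‖ ≤ 1 / 100) : ch X u x l = c := by
  have hex : ∃ z ∈ X, ‖z - x - u x * l‖ ≤ 1 / 100 := ⟨c, hc, h⟩
  have hs : ch X u x l ∈ X ∧ ‖ch X u x l - x - u x * l‖ ≤ 1 / 100 := by
    unfold ch
    rw [dif_pos hex]
    exact hex.choose_spec
  by_contra hne
  have h1 := hX _ hc _ hs.1 (Ne.symm hne)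
  have h2 : ‖ch X u x l - c‖ ≤ 2 / 100 := by
    have e : ch X u x l - c = (ch X u x l - x - u x * l) - (c - x - u x * l) := by ring
    rw [e]
    refine (norm_sub_le _ _).trans ?_
    linarith [hs.2]
  linarith

theorem norm_ch_ge {X : Set ℂ} {u : ℂ → ℂ} (hu : ∀ z, ‖u z‖ = 1) {g : ℤ × ℤ} {x : ℂ}
    (hp : Perf X u g x) (j : ℕ) :
    ‖lat g‖ - 1 / 100 ≤ ‖ch X u x (lat g * om ^ j) - x‖ := by
  have h := (ch_spec_j hp j).2
  have h1 : ‖u x * (lat g * om ^ j)‖ = ‖lat g‖ := by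
    rw [norm_mul, norm_mul, hu, norm_om_pow, one_mul, mul_one]
  have h2 : u x * (lat g * om ^ j) = (ch X u x (lat g * om ^ j) - x) -
      (ch X u x (lat g * om ^ j) - x - u x * (lat g * om ^ j)) := by ring
  have h3 := norm_sub_le (ch X u x (lat g * om ^ j) - x)
    (ch X u x (lat g * om ^ j) - x - u x * (lat g * om ^ j))
  rw [← h2, h1] at h3
  linarith

theorem gcell_eq {X : Set ℂ} (hX : Sep X) {u : ℂ → ℂ} {g : ℤ × ℤ} {x : ℂ}
    (hp : Perf X u g x) :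
    gcell X u g x =
      cell ‖lat g‖ x (Finset.range 6) (fun j => ch X u x (lat g * om ^ j)) := by
  ext z
  unfold gcell cell
  simp only [mem_ofPred_eq]
  refine and_congr_right fun _ => ⟨fun h j _ => ?_, fun h j c hc hcl => ?_⟩
  · exact h j _ (ch_spec_j hp j).1 (ch_spec_j hp j).2
  · have h1 := h (j % 6) (Finset.mem_range.2 (Nat.mod_lt _ (by norm_num)))
    rw [← om_pow_mod] at h1
    rwa [ch_unique hX hc hcl] at h1

theorem measurableSet_gcell {X : Set ℂ} (hX : Sep X) {u : ℂ → ℂ} {g : ℤ × ℤ} {x : ℂ}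
    (hp : Perf X u g x) : MeasurableSet (gcell X u g x) := by
  rw [gcell_eq hX hp]
  exact measurableSet_cell _ _ _ _

end Pool.Agent.Hex
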