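import Pool.Agent.Hex.Pack

/-!
Module `HexCos` (two neighbours of a good point).  Uses `mem_nbF`.

PROOF of `hex_cos`.  `ρ = ‖y-z‖`, `ρ' = ‖y'-z‖` are in `[1-δ,1+δ]`.
For `y ≠ y'` in `N`: `d = ‖y-y'‖ ≥ 1-δ`: if `d < aa` then `y' ∈ nbF X y` and `y` is good so
`|d-1| ≤ δ`; otherwise `d ≥ aa > 1`.  So
`Re((y-z) conj(y'-z)) = (ρ²+ρ'²-d²)/2 ≤ ρρ' cos(π/3-3δ)`: indeed
`(ρ²+ρ'²-d²)/(2ρρ') ≤ 1/2 + 2δ`.  (It is `ρ²+ρ'²-d² ≤ (1+4δ)ρρ'`: the left minus right is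
`(ρ-ρ')² + (1-4δ)ρρ' - d² ≤ 4δ² + (1-4δ)(1+δ)² - (1-δ)²
 = 4δ² + (1 - 2δ - 7δ² - 4δ³) - (1 - 2δ + δ²) = -4δ² - 4δ³ ≤ 0`.)
And `1/2 + 2δ ≤ cos(π/3 - 3δ) = (1/2) cos 3δ + (√3/2) sin 3δ` for `0 ≤ δ ≤ 1/1000`
(`cos x ≥ 1 - x²/2`, `sin x ≥ x - x³/4` for `0 ≤ x ≤ 1`: `Real.one_sub_sq_div_two_le_cos`,
`Real.sin_gt_sub_cube`; `(√3/2)·3δ ≥ 2.59 δ`).
`om_eq_exp`: `cos(π/3) = 1/2`, `sin(π/3) = √3/2`.
`om_pow_eq_exp`: `om^j = exp(i jπ/3)`.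
`norm_exp_sub_exp_le`: `‖e^{ia} - e^{ib}‖ ≤ |a-b|` (e.g. `= 2|sin((a-b)/2)|`, or Mathlib's
`Real.norm_exp_I_mul_ofReal_sub_one_le`-type lemma / mean value theorem).
-/

open MeasureTheory Set
open scoped ENNReal ComplexConjugate

namespace Pool.Agent.Hex

theorem om_eq_exp : om = Complex.exp (Complex.I * (Real.pi / 3 : ℝ)) := by
  rw [mul_comm, Complex.exp_mul_I, ← Complex.ofReal_cos, ← Complex.ofReal_sin,
    Real.cos_pi_div_three, Real.sin_pi_div_three]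
  apply Complex.ext
  · simp [om_re]
  · simp [om_im]

theorem om_pow_eq_exp (j : ℕ) :
    om ^ j = Complex.exp (Complex.I * ((j * (Real.pi / 3) : ℝ) : ℂ)) := by
  rw [om_eq_exp, ← Complex.exp_nat_mul]
  congr 1
  push_cast
  ring

theorem norm_exp_sub_exp_le (a b : ℝ) :
    ‖Complex.exp (Complex.I * (a : ℂ)) - Complex.exp (Complex.I * (b : ℂ))‖ ≤ |a - b| := by
  have h1 : Complex.exp (Complex.I * (a : ℂ)) - Complex.exp (Complex.I * (b : ℂ)) =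
      Complex.exp (Complex.I * (b : ℂ)) * (Complex.exp (Complex.I * ((a - b : ℝ) : ℂ)) - 1) := by
    rw [mul_sub, ← Complex.exp_add, mul_one]
    congr 2
    push_cast
    ring
  rw [h1, norm_mul, mul_comm Complex.I, Complex.norm_exp_ofReal_mul_I, one_mul]
  exact Real.norm_exp_I_mul_ofReal_sub_one_le

private theorem cos_bound {δ : ℝ} (h0 : 0 ≤ δ) (h1 : δ ≤ 1 / 1000) :
    1 / 2 + 2 * δ ≤ Real.cos (Real.pi / 3 - 3 * δ) := by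
  rw [Real.cos_sub, Real.cos_pi_div_three, Real.sin_pi_div_three]
  have hc : 1 - (3 * δ) ^ 2 / 2 ≤ Real.cos (3 * δ) := Real.one_sub_sq_div_two_le_cos
  have hs : 3 * δ - (3 * δ) ^ 3 / 4 ≤ Real.sin (3 * δ) := by
    rcases eq_or_lt_of_le h0 with h | h
    · rw [← h]
      simp
    · have h8 : 3 * δ - (3 * δ) ^ 3 / 6 < Real.sin (3 * δ) :=
        Real.sin_gt_sub_cube (by linarith)
      have h9 : 0 ≤ (3 * δ) ^ 3 := by positivity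
      linarith
  have h3 := sqrt3_gt
  have h4 : 0 ≤ 3 * δ - (3 * δ) ^ 3 / 4 := by
    have : δ ^ 2 ≤ 1 := by nlinarith
    nlinarith [mul_nonneg h0 (sq_nonneg δ)]
  have h5 : (1.7320508 / 2) * (3 * δ - (3 * δ) ^ 3 / 4) ≤
      Real.sqrt 3 / 2 * Real.sin (3 * δ) := by
    apply mul_le_mul (by linarith) hs h4 (by positivity)
  have h6 : δ ^ 2 ≤ δ / 1000 := by nlinarith
  have h7 : δ ^ 3 ≤ δ / 1000 := by nlinarith [sq_nonneg δ]
  nlinarith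

theorem hex_cos {X : Set ℂ} (hX : Sep X) {δ : ℝ} (h0 : 0 ≤ δ) (h1 : δ ≤ 1 / 1000) {z : ℂ}
    (hg : Good δ X z) (hgn : ∀ y ∈ nbF X z, Good δ X y) {y y' : ℂ}
    (hy : y ∈ nbF X z) (hy' : y' ∈ nbF X z) (hne : y ≠ y') :
    ((y - z) * conj (y' - z)).re ≤
      Real.cos (Real.pi / 3 - 3 * δ) * (‖y - z‖ * ‖y' - z‖) := by
  have hy1 := (mem_nbF hX).1 hy
  have hy1' := (mem_nbF hX).1 hy'
  have hd : 1 - δ ≤ ‖y' - y‖ := by
    by_cases h : ‖y' - y‖ < aa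
    · have h2 : y' ∈ nbF X y := (mem_nbF hX).2 ⟨hy1'.1, hne.symm, h⟩
      have h3 := (hgn y hy).2 y' h2
      have := (abs_le.1 h3).1
      linarith
    · have := aa_gt
      push Not at h
      linarith
  have hr := abs_le.1 (hg.2 y hy)
  have hr' := abs_le.1 (hg.2 y' hy')
  have hn : ‖y' - y‖ ^ 2 = ‖y - z‖ ^ 2 + ‖y' - z‖ ^ 2 - 2 * ((y - z) * conj (y' - z)).re := by
    have h2 := Complex.normSq_sub (y - z) (y' - z)
    rw [Complex.normSq_eq_norm_sq, Complex.normSq_eq_norm_sq, Complex.normSq_eq_norm_sq] at h2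
    rw [← h2, norm_sub_rev]
    congr 2
    ring
  have hcb := cos_bound h0 h1
  set r := ‖y - z‖ with hrdef
  set r' := ‖y' - z‖ with hrdef'
  set d := ‖y' - y‖ with hddef
  have hr0 : 0 ≤ r := norm_nonneg _
  have hr0' : 0 ≤ r' := norm_nonneg _
  have hrr : 0 ≤ r * r' := mul_nonneg hr0 hr0'
  have h2 : (1 / 2 + 2 * δ) * (r * r') ≤ Real.cos (Real.pi / 3 - 3 * δ) * (r * r') :=
    mul_le_mul_of_nonneg_right hcb hrr
  refine le_trans ?_ h2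
  have h3 : (1 - δ) ^ 2 ≤ d ^ 2 := by
    apply pow_le_pow_left₀ (by linarith) hd
  have h4 : (r - r') ^ 2 ≤ 4 * δ ^ 2 := by
    have : |r - r'| ≤ 2 * δ := by
      rw [abs_le]
      constructor <;> linarith
    have h5 := pow_le_pow_left₀ (abs_nonneg _) this 2
    rw [sq_abs] at h5
    linarith
  have h5 : r * r' ≤ (1 + δ) ^ 2 := by
    have : r * r' ≤ (1 + δ) * (1 + δ) :=
      mul_le_mul (by linarith) (by linarith) hr0' (by linarith)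
    linarith
  have h6 : (1 - 4 * δ) * (r * r') ≤ (1 - 4 * δ) * (1 + δ) ^ 2 :=
    mul_le_mul_of_nonneg_left h5 (by linarith)
  have h7 : 4 * δ ^ 2 + (1 - 4 * δ) * (1 + δ) ^ 2 ≤ (1 - δ) ^ 2 := by
    have : 0 ≤ δ ^ 3 := by positivity
    nlinarith [sq_nonneg δ]
  nlinarith

end Pool.Agent.Hex
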