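import Pool.Agent.Hex.Basic

/-!
Module `Six` (six angles).  Pure real analysis.

PROOF.  Enumerate `T` increasingly, `t 0 < t 1 < … < t 5` (`Finset.orderEmbOfFin T h`); `t 0 = 0`
because `0 ∈ T` is the minimum.  With `g = π/3 - 3δ` (note nothing is claimed about its sign, but
all inequalities below are linear): `t (i+1) - t i ≥ g` for `i = 0..4` and `2π - t 5 ≥ g` (the pair
`t 5, t 0`).  So `t j ≥ j g` and `t j ≤ 2π - (6-j) g`, i.e.
`jπ/3 - 3jδ ≤ t j ≤ jπ/3 + 3(6-j)δ` for `j ≥ 1`, and `t 0 = 0`; hence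
`|t j - jπ/3| ≤ 15 δ`.  Both conclusions follow (every element of `T` is some `t j`).
-/

open MeasureTheory Set
open scoped ENNReal

namespace Pool.Agent.Hex

theorem six_angles {δ : ℝ} (h0 : 0 ≤ δ) (T : Finset ℝ) (hc : T.card = 6) (hz : (0 : ℝ) ∈ T)
    (hT : ∀ t ∈ T, 0 ≤ t ∧ t < 2 * Real.pi)
    (hg : ∀ t ∈ T, ∀ t' ∈ T, t < t' → Real.pi / 3 - 3 * δ ≤ t' - t ∧
      Real.pi / 3 - 3 * δ ≤ 2 * Real.pi - (t' - t)) :
    (∀ j : ℕ, j < 6 → ∃ t ∈ T, |t - j * (Real.pi / 3)| ≤ 15 * δ) ∧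
    (∀ t ∈ T, ∃ j : ℕ, j < 6 ∧ |t - j * (Real.pi / 3)| ≤ 15 * δ) := by
  have hmem : ∀ i, T.orderEmbOfFin hc i ∈ T := Finset.orderEmbOfFin_mem T hc
  have hsurj : ∀ t ∈ T, ∃ i, T.orderEmbOfFin hc i = t := by
    intro t ht
    have h1 : t ∈ Set.range (T.orderEmbOfFin hc) := by
      rw [Finset.range_orderEmbOfFin]
      exact ht
    exact h1
  have hmono : StrictMono (T.orderEmbOfFin hc) := (T.orderEmbOfFin hc).strictMono
  have hz0 : T.orderEmbOfFin hc 0 = 0 := by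
    obtain ⟨i, hi⟩ := hsurj 0 hz
    have h1 : T.orderEmbOfFin hc 0 ≤ T.orderEmbOfFin hc i := hmono.monotone (Fin.zero_le i)
    have h2 := (hT _ (hmem 0)).1
    rw [hi] at h1
    exact le_antisymm h1 h2
  have g01 := hg _ (hmem 0) _ (hmem 1) (hmono (by decide))
  have g12 := hg _ (hmem 1) _ (hmem 2) (hmono (by decide))
  have g23 := hg _ (hmem 2) _ (hmem 3) (hmono (by decide))
  have g34 := hg _ (hmem 3) _ (hmem 4) (hmono (by decide))
  have g45 := hg _ (hmem 4) _ (hmem 5) (hmono (by decide))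
  have g05 := hg _ (hmem 0) _ (hmem 5) (hmono (by decide))
  have key : ∀ i : Fin 6, |T.orderEmbOfFin hc i - ((i : ℕ) : ℝ) * (Real.pi / 3)| ≤ 15 * δ := by
    intro i
    rw [abs_le]
    fin_cases i
    · simp only [Fin.zero_eta, Nat.cast_zero]
      constructor <;> linarith [g01.1, g12.1, g23.1, g34.1, g45.1, g05.2]
    · simp only [Fin.mk_one, Nat.cast_one]
      constructor <;> linarith [g01.1, g12.1, g23.1, g34.1, g45.1, g05.2]
    · simp only [Fin.reduceFinMk]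
      norm_num
      constructor <;> linarith [g01.1, g12.1, g23.1, g34.1, g45.1, g05.2]
    · simp only [Fin.reduceFinMk]
      norm_num
      constructor <;> linarith [g01.1, g12.1, g23.1, g34.1, g45.1, g05.2]
    · simp only [Fin.reduceFinMk]
      norm_num
      constructor <;> linarith [g01.1, g12.1, g23.1, g34.1, g45.1, g05.2]
    · simp only [Fin.reduceFinMk]
      norm_num
      constructor <;> linarith [g01.1, g12.1, g23.1, g34.1, g45.1, g05.2]
  constructor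
  · intro j hj
    exact ⟨T.orderEmbOfFin hc ⟨j, hj⟩, hmem _, key ⟨j, hj⟩⟩
  · intro t ht
    obtain ⟨i, hi⟩ := hsurj t ht
    exact ⟨i, i.2, by rw [← hi]; exact key i⟩

end Pool.Agent.Hex
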