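import Pool.Agent.Hex.HexCos
import Pool.Agent.Hex.Six

/-!
Module `HexLoc` (local hexagonal structure at a good point).  Uses `mem_nbF`, `hex_cos`,
`six_angles`, `om_pow_eq_exp`, `norm_exp_sub_exp_le`.

PROOF.  `N = nbF X z` has six elements, `ρ_y = ‖y-z‖ ∈ [1-δ,1+δ]`.
Step 1 is `hex_cos`: `Re((y-z) conj(y'-z)) ≤ ρρ' cos(π/3-3δ)` for `y ≠ y'` in `N`.
Step 2.  For `y ∈ N` let `t_y ∈ [0,2π)` be the argument of `(y-z)/v` normalised to `[0,2π)`,
`y - z = ρ_y v exp(i t_y)`; `t_{y0} = 0`.  For `y ≠ y'`, `Re((y-z) conj(y'-z)) =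
ρρ' cos(t_y - t_{y'})`, so `cos(t_y - t_{y'}) ≤ cos(π/3-3δ)`, which for `0 ≤ |t_y - t_{y'}| < 2π`
means `|t_y - t_{y'}| ≥ π/3-3δ` and `2π - |t_y - t_{y'}| ≥ π/3-3δ` (in particular `t` is injective
on `N`).  Apply `six_angles` to `T = t(N)` (card 6).
Step 3.  If `|t_y - jπ/3| ≤ 15δ` then
`‖y - z - v om^j‖ = ‖ρ_y e^{i t_y} - e^{i jπ/3}‖ ≤ |ρ_y - 1| + |t_y - jπ/3| ≤ 16 δ`
(`‖e^{ia} - e^{ib}‖ ≤ |a-b|`; `om^j = e^{i jπ/3}`).  For general `j : ℕ` reduce mod 6
(`om_pow_mod`).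
-/

open MeasureTheory Set
open scoped ENNReal ComplexConjugate

namespace Pool.Agent.Hex

/-- from the cosine bound to the two gap bounds -/
private lemma gap_of_cos {g D : ℝ} (hg0 : 0 ≤ g) (hg1 : g ≤ Real.pi) (hD0 : 0 < D)
    (hD1 : D < 2 * Real.pi) (h : Real.cos D ≤ Real.cos g) : g ≤ D ∧ g ≤ 2 * Real.pi - D := by
  constructor
  · by_contra hlt
    push Not at hlt
    have := Real.cos_lt_cos_of_nonneg_of_le_pi hD0.le hg1 hlt
    linarith
  · by_contra hlt
    push Not at hlt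
    have h1 : 0 ≤ 2 * Real.pi - D := by linarith
    have := Real.cos_lt_cos_of_nonneg_of_le_pi h1 hg1 hlt
    rw [Real.cos_two_pi_sub] at this
    linarith

/-- normalised argument of `w` in `[0, 2π)` -/
private noncomputable def nar (w : ℂ) : ℝ := toIcoMod Real.two_pi_pos 0 (Complex.arg w)

private lemma nar_nonneg (w : ℂ) : 0 ≤ nar w := by
  have := (toIcoMod_mem_Ico Real.two_pi_pos 0 (Complex.arg w)).1
  exact this

private lemma nar_lt (w : ℂ) : nar w < 2 * Real.pi := by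
  have := (toIcoMod_mem_Ico Real.two_pi_pos 0 (Complex.arg w)).2
  simpa [nar] using this

private lemma nar_exp (w : ℂ) : w = (‖w‖ : ℂ) * Complex.exp (Complex.I * (nar w : ℂ)) := by
  have h1 : Complex.exp (Complex.I * (nar w : ℂ)) = Complex.exp (Complex.arg w * Complex.I) := by
    rw [Complex.exp_eq_exp_iff_exists_int]
    refine ⟨-toIcoDiv Real.two_pi_pos 0 (Complex.arg w), ?_⟩
    have h2 : nar w = Complex.arg w - toIcoDiv Real.two_pi_pos 0 (Complex.arg w) * (2 * Real.pi) := by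
      have := toIcoMod_add_toIcoDiv_zsmul Real.two_pi_pos 0 (Complex.arg w)
      unfold nar
      rw [zsmul_eq_mul] at this
      linarith
    rw [h2]
    push_cast
    ring
  rw [h1]
  exact (Complex.norm_mul_exp_arg_mul_I w).symm

private lemma nar_real {r : ℝ} (hr : 0 ≤ r) : nar (r : ℂ) = 0 := by
  unfold nar
  rw [Complex.arg_ofReal_of_nonneg hr]
  have : (0 : ℝ) ∈ Set.Ico (0 : ℝ) (0 + 2 * Real.pi) := by
    constructor
    · exact le_refl _
    · have := Real.pi_pos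
      linarith
  exact (toIcoMod_eq_self Real.two_pi_pos).2 this

theorem hex_local {X : Set ℂ} (hX : Sep X) {δ : ℝ} (h0 : 0 ≤ δ) (h1 : δ ≤ 1 / 1000) {z : ℂ}
    (hz : z ∈ X) (hg : Good δ X z) (hgn : ∀ y ∈ nbF X z, Good δ X y) {y0 : ℂ}
    (hy0 : y0 ∈ nbF X z) {v : ℂ} (hv : ‖v‖ = 1) (hdir : y0 - z = (‖y0 - z‖ : ℂ) * v) :
    (∀ j : ℕ, ∃ y ∈ nbF X z, ‖y - z - v * om ^ j‖ ≤ 16 * δ) ∧
    (∀ y ∈ nbF X z, ∃ j : ℕ, ‖y - z - v * om ^ j‖ ≤ 16 * δ) := by
  have hpi := Real.pi_gt_three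
  have hpi2 := Real.pi_lt_four
  have hv0 : v ≠ 0 := by
    intro h
    rw [h, norm_zero] at hv
    exact zero_ne_one hv
  set tt : ℂ → ℝ := fun y => nar ((y - z) / v) with htt
  -- polar form
  have hpol : ∀ y : ℂ, y - z = (‖y - z‖ : ℂ) * v * Complex.exp (Complex.I * (tt y : ℂ)) := by
    intro y
    have h2 := nar_exp ((y - z) / v)
    have h3 : ‖(y - z) / v‖ = ‖y - z‖ := by rw [norm_div, hv, div_one]
    rw [h3] at h2
    calc y - z = ((y - z) / v) * v := by field_simp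
      _ = (‖y - z‖ : ℂ) * Complex.exp (Complex.I * (tt y : ℂ)) * v := by
          simp only [htt]
          rw [← h2]
      _ = _ := by ring
  have htt0 : tt y0 = 0 := by
    have h2 : (y0 - z) / v = (‖y0 - z‖ : ℂ) := by
      rw [hdir]
      rw [norm_mul, hv, Complex.norm_real, norm_norm, mul_one]
      field_simp
    simp only [htt]
    rw [h2]
    exact nar_real (norm_nonneg _)
  have hρ : ∀ y ∈ nbF X z, |‖y - z‖ - 1| ≤ δ := hg.2
  have hρ0 : ∀ y ∈ nbF X z, 0 < ‖y - z‖ := by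
    intro y hy
    have := (abs_le.1 (hρ y hy)).1
    linarith
  -- scalar product
  have hsp : ∀ y y' : ℂ, ((y - z) * conj (y' - z)).re =
      Real.cos (tt y - tt y') * (‖y - z‖ * ‖y' - z‖) := by
    intro y y'
    have hvv : v * conj v = 1 := by
      rw [Complex.mul_conj, Complex.normSq_eq_norm_sq, hv]
      norm_num
    have h2 : (y - z) * conj (y' - z) = ((‖y - z‖ * ‖y' - z‖ : ℝ) : ℂ) *
        Complex.exp (((tt y - tt y' : ℝ) : ℂ) * Complex.I) := by
      conv_lhs => rw [hpol y, hpol y']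
      rw [map_mul, map_mul, ← Complex.exp_conj, map_mul, Complex.conj_I, Complex.conj_ofReal,
        Complex.conj_ofReal]
      have h3 : Complex.exp (((tt y - tt y' : ℝ) : ℂ) * Complex.I) =
          Complex.exp (Complex.I * (tt y : ℂ)) * Complex.exp (-Complex.I * (tt y' : ℂ)) := by
        rw [← Complex.exp_add]
        congr 1
        push_cast
        ring
      rw [h3]
      push_cast
      linear_combination ((‖y - z‖ : ℂ) * Complex.exp (Complex.I * (tt y : ℂ)) *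
        (‖y' - z‖ : ℂ) * Complex.exp (-Complex.I * (tt y' : ℂ))) * hvv
    rw [h2, Complex.re_ofReal_mul, Complex.exp_ofReal_mul_I_re]
    ring
  have hcos : ∀ y ∈ nbF X z, ∀ y' ∈ nbF X z, y ≠ y' →
      Real.cos (tt y - tt y') ≤ Real.cos (Real.pi / 3 - 3 * δ) := by
    intro y hy y' hy' hne
    have h2 := hex_cos hX h0 h1 hg hgn hy hy' hne
    rw [hsp] at h2
    exact le_of_mul_le_mul_right h2 (mul_pos (hρ0 y hy) (hρ0 y' hy'))
  have hg0 : 0 < Real.pi / 3 - 3 * δ := by linarith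
  have hg1 : Real.pi / 3 - 3 * δ < Real.pi := by linarith
  have hinj : Set.InjOn tt (nbF X z : Set ℂ) := by
    intro y hy y' hy' hyy
    by_contra hne
    have h2 := hcos y hy y' hy' hne
    rw [hyy, sub_self] at h2
    have h3 := Real.cos_lt_cos_of_nonneg_of_le_pi (le_refl 0) hg1.le hg0
    linarith
  classical
  have hcard : ((nbF X z).image tt).card = 6 := by
    rw [Finset.card_image_of_injOn hinj, hg.1]
  obtain ⟨hA, hB⟩ := six_angles h0 ((nbF X z).image tt) hcard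
    (Finset.mem_image.2 ⟨y0, hy0, htt0⟩)
    (by
      intro t ht
      obtain ⟨y, -, rfl⟩ := Finset.mem_image.1 ht
      exact ⟨nar_nonneg _, nar_lt _⟩)
    (by
      intro t ht t' ht' hlt
      obtain ⟨y, hy, rfl⟩ := Finset.mem_image.1 ht
      obtain ⟨y', hy', rfl⟩ := Finset.mem_image.1 ht'
      have hne : y' ≠ y := by
        rintro rfl
        exact lt_irrefl _ hlt
      have h2 := hcos y' hy' y hy hne
      have h3 : 0 ≤ tt y := nar_nonneg _
      have h4 : tt y' < 2 * Real.pi := nar_lt _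
      exact gap_of_cos hg0.le hg1.le (by linarith) (by linarith) h2)
  -- final estimate
  have hfin : ∀ y ∈ nbF X z, ∀ j : ℕ, |tt y - j * (Real.pi / 3)| ≤ 15 * δ →
      ‖y - z - v * om ^ j‖ ≤ 16 * δ := by
    intro y hy j hj
    have h2 : y - z - v * om ^ j = v * (((‖y - z‖ - 1 : ℝ) : ℂ) *
        Complex.exp (Complex.I * (tt y : ℂ)) +
        (Complex.exp (Complex.I * (tt y : ℂ)) -
          Complex.exp (Complex.I * ((j * (Real.pi / 3) : ℝ) : ℂ)))) := by
      rw [om_pow_eq_exp j]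
      conv_lhs => rw [hpol y]
      push_cast
      ring
    have h3 : ‖Complex.exp (Complex.I * (tt y : ℂ))‖ = 1 := by
      rw [mul_comm]
      exact Complex.norm_exp_ofReal_mul_I _
    rw [h2, norm_mul, hv, one_mul]
    calc _ ≤ ‖((‖y - z‖ - 1 : ℝ) : ℂ) * Complex.exp (Complex.I * (tt y : ℂ))‖ +
          ‖Complex.exp (Complex.I * (tt y : ℂ)) -
          Complex.exp (Complex.I * ((j * (Real.pi / 3) : ℝ) : ℂ))‖ := norm_add_le _ _
      _ ≤ δ + 15 * δ := by
          apply add_le_add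
          · rw [norm_mul, h3, mul_one, Complex.norm_real, Real.norm_eq_abs]
            exact hρ y hy
          · exact (norm_exp_sub_exp_le _ _).trans hj
      _ = 16 * δ := by ring
  constructor
  · intro j
    obtain ⟨t, ht, htj⟩ := hA (j % 6) (Nat.mod_lt _ (by norm_num))
    obtain ⟨y, hy, rfl⟩ := Finset.mem_image.1 ht
    refine ⟨y, hy, ?_⟩
    rw [om_pow_mod j]
    exact hfin y hy _ htj
  · intro y hy
    obtain ⟨j, -, hj⟩ := hB (tt y) (Finset.mem_image.2 ⟨y, hy, rfl⟩)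
    exact ⟨j, hfin y hy j hj⟩

end Pool.Agent.Hex
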