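import Pool.Agent.Hex.Basic

/-!
Module `Index` (`[Λ : gΛ] = |g|²`, only `≤` is needed).

PROOF (any of these).  In coordinates, `q ↦ mulE g q` is the integer matrix
`M = [[a, -b], [b, a+b]]` (`g = (a,b)`) of determinant `a² + ab + b² = nrm g ≠ 0`.  The subgroup
`H = M ℤ² ⊂ ℤ²` has index `|det M| = nrm g` (Mathlib: `Submodule.natAbs_det_equiv`,
`Int.natAbs_det_basis_change`, `Matrix.toLin`.., `AddSubgroup.index`…), and pairwise
`H`-incongruent points inject in the quotient.
Elementary alternative: let `d = gcd(a,b)`, `N = nrm g`, and `e = N/d`.  `H` contains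
`(e, 0)`-type vectors: Hermite normal form `H = ℤ(e,0) + ℤ(f,d)`, so every class contains a
point of `[0,e) × [0,d)`, and there are `e·d = N` of these.
Measure-theoretic alternative: the half-open parallelograms `lat p + {α + β om : 0 ≤ α,β < 1}`,
`p ∈ T`, have pairwise disjoint `gΛ`-translates, so total area `#T·√3/2 ≤` area of a fundamental
domain of `gΛ`, which is `|g|²·√3/2`.
Another elementary alternative: for `R` large count points: the sets `T + gΛ_R` (`Λ_R` = points with
coordinates in `[0,R)`), all of size `#T·R²` (pairwise distinct), lie in a ball... (area count).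
-/

open MeasureTheory Set
open scoped ENNReal

namespace Pool.Agent.Hex

/-- multiplication by `g` as a linear map -/
private def mulLin (g : ℤ × ℤ) : (ℤ × ℤ) →ₗ[ℤ] (ℤ × ℤ) where
  toFun p := mulE g p
  map_add' p q := by
    apply Prod.ext
    · simp only [mulE, Prod.fst_add, Prod.snd_add]
      ring
    · simp only [mulE, Prod.fst_add, Prod.snd_add]
      ring
  map_smul' c p := by
    apply Prod.ext
    · simp only [mulE, Prod.smul_fst, Prod.smul_snd, smul_eq_mul, RingHom.id_apply]
      ring
    · simp only [mulE, Prod.smul_fst, Prod.smul_snd, smul_eq_mul, RingHom.id_apply]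
      ring

private theorem mulLin_det (g : ℤ × ℤ) : LinearMap.det (mulLin g) = nrm g := by
  rw [← LinearMap.det_toMatrix (Module.Basis.finTwoProd ℤ), Matrix.det_fin_two]
  simp only [LinearMap.toMatrix_apply, Module.Basis.finTwoProd_zero, Module.Basis.finTwoProd_one,
    Module.Basis.coe_finTwoProd_repr, mulLin, LinearMap.coe_mk, AddHom.coe_mk, mulE, nrm]
  simp
  ring

theorem index_bound {g : ℤ × ℤ} (hg : g ≠ 0) (T : Finset (ℤ × ℤ))
    (hT : ∀ p ∈ T, ∀ q ∈ T, p ≠ q → ∀ m : ℤ × ℤ, p - q ≠ mulE g m) :
    (T.card : ℤ) ≤ nrm g := by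
  have hinj : Function.Injective (mulLin g) := by
    intro p q h
    have h1 : mulE g p = mulE g q := h
    have h2 : lat g * lat p = lat g * lat q := by rw [← lat_mulE, ← lat_mulE, h1]
    exact lat_injective (mul_left_cancel₀ (fun h0 => hg (lat_eq_zero.1 h0)) h2)
  have hcard : (LinearMap.det (mulLin g)).natAbs =
      Nat.card ((ℤ × ℤ) ⧸ LinearMap.range (mulLin g)) := by
    rw [← Submodule.natAbs_det_equiv (LinearMap.range (mulLin g))
      (LinearEquiv.ofInjective (mulLin g) hinj)]
    congr 2
  rw [mulLin_det] at hcard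
  have hnn := nrm_nonneg g
  have hn0 : nrm g ≠ 0 := fun h => hg (nrm_eq_zero.1 h)
  have hpos : 0 < Nat.card ((ℤ × ℤ) ⧸ LinearMap.range (mulLin g)) := by
    rw [← hcard]
    omega
  have hfin : Finite ((ℤ × ℤ) ⧸ LinearMap.range (mulLin g)) := Nat.finite_of_card_ne_zero hpos.ne'
  have hle : T.card ≤ Nat.card ((ℤ × ℤ) ⧸ LinearMap.range (mulLin g)) := by
    have h1 : Function.Injective (fun p : T =>
        (Submodule.Quotient.mk (p : ℤ × ℤ) : (ℤ × ℤ) ⧸ LinearMap.range (mulLin g))) := by
      intro p q h
      have h2 := (Submodule.Quotient.eq _).1 h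
      obtain ⟨m, hm⟩ := h2
      by_contra hne
      exact hT p p.2 q q.2 (fun h3 => hne (Subtype.ext h3)) m hm.symm
    have h2 := Nat.card_le_card_of_injective _ h1
    rwa [Nat.card_eq_fintype_card, Fintype.card_coe] at h2
  omega

end Pool.Agent.Hex
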