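import Pool.Agent.Hex.Prob

/-!
Module `LattFD` (the cell is a fundamental domain of area `|det|`).

PROOF.  `det2 v₁ v₂ ≠ 0` iff `v₁, v₂` are linearly independent over `ℝ`; let `b : Basis (Fin 2) ℝ ℂ`
be the basis `![v₁, v₂]` (`basisOfLinearIndependentOfCardEqFinrank`, or build it).  Then
`cellΩ v₁ v₂ = ZSpan.fundamentalDomain b` and `latt v₁ v₂ = (span ℤ (range b)).toAddSubgroup`;
`ZSpan.isAddFundamentalDomain'` (or `ZSpan.isAddFundamentalDomain`) gives the fundamental domain.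
(A direct proof through `IsAddFundamentalDomain.mk'` is also easy: every `z` is `α v₁ + β v₂`, and
exactly one translate by `latt` lies in the cell, by `Int.floor`/`Int.fract`.)
Area: the cell is the image of `[0,1)²` (as `{z : ℂ | z.re ∈ [0,1), z.im ∈ [0,1)}`) under the
real-linear map `z ↦ z.re v₁ + z.im v₂` of determinant `det2 v₁ v₂`
(`MeasureTheory.Measure.addHaar_image_linearMap`, `Complex.basisOneI`, `LinearMap.det_toLin`…; the
unit square in `ℂ` has volume 1 by `Complex.volume_preserving_equiv_real_prod`).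
`latt_countable`: image of `ℤ × ℤ`.
-/

open MeasureTheory Set

namespace Pool.Agent.Hex

theorem latt_countable (v₁ v₂ : ℂ) : Countable (latt v₁ v₂) := by
  have hs : Function.Surjective (fun q : ℤ × ℤ =>
      (⟨(q.1 : ℂ) * v₁ + (q.2 : ℂ) * v₂, ⟨q.1, q.2, rfl⟩⟩ : latt v₁ v₂)) := by
    rintro ⟨z, a, b, rfl⟩
    exact ⟨(a, b), rfl⟩
  exact hs.countable

private noncomputable def LattFD_al (v₁ v₂ z : ℂ) : ℝ := (z.re * v₂.im - z.im * v₂.re) / det2 v₁ v₂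

private noncomputable def LattFD_be (v₁ v₂ z : ℂ) : ℝ := (v₁.re * z.im - v₁.im * z.re) / det2 v₁ v₂

private theorem LattFD_rep {v₁ v₂ : ℂ} (h : det2 v₁ v₂ ≠ 0) (z : ℂ) :
    z = (LattFD_al v₁ v₂ z : ℂ) * v₁ + (LattFD_be v₁ v₂ z : ℂ) * v₂ := by
  unfold LattFD_al LattFD_be
  have hd : v₁.re * v₂.im - v₁.im * v₂.re ≠ 0 := h
  apply Complex.ext
  · simp only [Complex.add_re, Complex.mul_re, Complex.ofReal_re, Complex.ofReal_im, zero_mul,
      sub_zero, det2]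
    rw [div_mul_eq_mul_div, div_mul_eq_mul_div, ← add_div, eq_div_iff hd]
    ring
  · simp only [Complex.add_im, Complex.mul_im, Complex.ofReal_re, Complex.ofReal_im, zero_mul,
      add_zero, det2]
    rw [div_mul_eq_mul_div, div_mul_eq_mul_div, ← add_div, eq_div_iff hd]
    ring

private theorem LattFD_al_eq {v₁ v₂ : ℂ} (h : det2 v₁ v₂ ≠ 0) (α β : ℝ) :
    LattFD_al v₁ v₂ ((α : ℂ) * v₁ + (β : ℂ) * v₂) = α := by
  unfold LattFD_al
  have hd : v₁.re * v₂.im - v₁.im * v₂.re ≠ 0 := h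
  simp only [Complex.add_re, Complex.mul_re, Complex.ofReal_re, Complex.ofReal_im, zero_mul,
      sub_zero, det2, Complex.add_im, Complex.mul_im, add_zero]
  rw [div_eq_iff hd]
  ring

private theorem LattFD_be_eq {v₁ v₂ : ℂ} (h : det2 v₁ v₂ ≠ 0) (α β : ℝ) :
    LattFD_be v₁ v₂ ((α : ℂ) * v₁ + (β : ℂ) * v₂) = β := by
  unfold LattFD_be
  have hd : v₁.re * v₂.im - v₁.im * v₂.re ≠ 0 := h
  simp only [Complex.add_re, Complex.mul_re, Complex.ofReal_re, Complex.ofReal_im, zero_mul,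
      sub_zero, det2, Complex.add_im, Complex.mul_im, add_zero]
  rw [div_eq_iff hd]
  ring

private theorem LattFD_mem {v₁ v₂ : ℂ} (h : det2 v₁ v₂ ≠ 0) (z : ℂ) :
    z ∈ cellΩ v₁ v₂ ↔ (0 ≤ LattFD_al v₁ v₂ z ∧ LattFD_al v₁ v₂ z < 1) ∧
      (0 ≤ LattFD_be v₁ v₂ z ∧ LattFD_be v₁ v₂ z < 1) := by
  constructor
  · rintro ⟨α, β, h1, h2, h3, h4, rfl⟩
    rw [LattFD_al_eq h, LattFD_be_eq h]
    exact ⟨⟨h1, h2⟩, ⟨h3, h4⟩⟩
  · rintro ⟨⟨h1, h2⟩, ⟨h3, h4⟩⟩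
    exact ⟨_, _, h1, h2, h3, h4, LattFD_rep h z⟩

private theorem LattFD_meas {v₁ v₂ : ℂ} (h : det2 v₁ v₂ ≠ 0) : MeasurableSet (cellΩ v₁ v₂) := by
  have e : cellΩ v₁ v₂ = {z | (0 ≤ LattFD_al v₁ v₂ z ∧ LattFD_al v₁ v₂ z < 1) ∧
      (0 ≤ LattFD_be v₁ v₂ z ∧ LattFD_be v₁ v₂ z < 1)} := by
    ext z; exact LattFD_mem h z
  rw [e]
  have h1 : Measurable (LattFD_al v₁ v₂) := by
    unfold LattFD_al
    fun_prop
  have h2 : Measurable (LattFD_be v₁ v₂) := by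
    unfold LattFD_be
    fun_prop
  exact ((measurableSet_le measurable_const h1).inter (measurableSet_lt h1 measurable_const)).inter
    ((measurableSet_le measurable_const h2).inter (measurableSet_lt h2 measurable_const))

theorem latt_fd {v₁ v₂ : ℂ} (h : det2 v₁ v₂ ≠ 0) :
    IsAddFundamentalDomain (latt v₁ v₂) (cellΩ v₁ v₂) (volume : Measure ℂ) := by
  refine IsAddFundamentalDomain.mk' (LattFD_meas h).nullMeasurableSet ?_
  intro z
  have hkey : ∀ a b : ℤ, ((a : ℂ) * v₁ + (b : ℂ) * v₂) + z ∈ cellΩ v₁ v₂ ↔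
      (0 ≤ (a : ℝ) + LattFD_al v₁ v₂ z ∧ (a : ℝ) + LattFD_al v₁ v₂ z < 1) ∧
      (0 ≤ (b : ℝ) + LattFD_be v₁ v₂ z ∧ (b : ℝ) + LattFD_be v₁ v₂ z < 1) := by
    intro a b
    have e : ((a : ℂ) * v₁ + (b : ℂ) * v₂) + z =
        (((a : ℝ) + LattFD_al v₁ v₂ z : ℝ) : ℂ) * v₁ + (((b : ℝ) + LattFD_be v₁ v₂ z : ℝ) : ℂ) * v₂ := by
      conv_lhs => rw [LattFD_rep h z]
      push_cast
      ring
    rw [LattFD_mem h, e, LattFD_al_eq h, LattFD_be_eq h]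
  refine ⟨⟨((-⌊LattFD_al v₁ v₂ z⌋ : ℤ) : ℂ) * v₁ + ((-⌊LattFD_be v₁ v₂ z⌋ : ℤ) : ℂ) * v₂,
    ⟨_, _, rfl⟩⟩, ?_, ?_⟩
  · show ((((-⌊LattFD_al v₁ v₂ z⌋ : ℤ) : ℂ) * v₁ + ((-⌊LattFD_be v₁ v₂ z⌋ : ℤ) : ℂ) * v₂) + z)
      ∈ cellΩ v₁ v₂
    rw [hkey]
    have h1 := Int.floor_le (LattFD_al v₁ v₂ z)
    have h2 := Int.lt_floor_add_one (LattFD_al v₁ v₂ z)
    have h3 := Int.floor_le (LattFD_be v₁ v₂ z)
    have h4 := Int.lt_floor_add_one (LattFD_be v₁ v₂ z)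
    push_cast
    refine ⟨⟨?_, ?_⟩, ⟨?_, ?_⟩⟩ <;> linarith
  · rintro ⟨w, a, b, rfl⟩ hw
    have hw' : ((a : ℂ) * v₁ + (b : ℂ) * v₂) + z ∈ cellΩ v₁ v₂ := hw
    rw [hkey] at hw'
    obtain ⟨⟨h1, h2⟩, ⟨h3, h4⟩⟩ := hw'
    have ha : a = -⌊LattFD_al v₁ v₂ z⌋ := by
      have : ⌊LattFD_al v₁ v₂ z⌋ = -a := by
        rw [Int.floor_eq_iff]
        push_cast
        constructor <;> linarith
      rw [this]; ring
    have hb : b = -⌊LattFD_be v₁ v₂ z⌋ := by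
      have : ⌊LattFD_be v₁ v₂ z⌋ = -b := by
        rw [Int.floor_eq_iff]
        push_cast
        constructor <;> linarith
      rw [this]; ring
    apply Subtype.ext
    show (a : ℂ) * v₁ + (b : ℂ) * v₂ = _
    rw [ha, hb]

private theorem LattFD_sq :
    (volume : Measure ℂ) {z : ℂ | (0 ≤ z.re ∧ z.re < 1) ∧ (0 ≤ z.im ∧ z.im < 1)} = 1 := by
  have e : {z : ℂ | (0 ≤ z.re ∧ z.re < 1) ∧ (0 ≤ z.im ∧ z.im < 1)}
      = Complex.measurableEquivRealProd ⁻¹' (Ico (0 : ℝ) 1 ×ˢ Ico (0 : ℝ) 1) := by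
    ext z
    simp [Complex.measurableEquivRealProd]
  rw [e, Complex.volume_preserving_equiv_real_prod.measure_preimage
    (measurableSet_Ico.prod measurableSet_Ico).nullMeasurableSet]
  rw [Measure.volume_eq_prod, Measure.prod_prod, Real.volume_Ico]
  simp

private noncomputable def LattFD_f (v₁ v₂ : ℂ) : ℂ →ₗ[ℝ] ℂ where
  toFun z := ⟨LattFD_al v₁ v₂ z, LattFD_be v₁ v₂ z⟩
  map_add' z w := by
    apply Complex.ext <;> simp [LattFD_al, LattFD_be] <;> ring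
  map_smul' c z := by
    apply Complex.ext <;> simp [LattFD_al, LattFD_be] <;> ring

private theorem LattFD_det {v₁ v₂ : ℂ} (h : det2 v₁ v₂ ≠ 0) :
    LinearMap.det (LattFD_f v₁ v₂) = (det2 v₁ v₂)⁻¹ := by
  rw [← LinearMap.det_toMatrix Complex.basisOneI, Matrix.det_fin_two]
  have hd : v₁.re * v₂.im - v₁.im * v₂.re ≠ 0 := h
  simp [LinearMap.toMatrix_apply, Complex.coe_basisOneI, LattFD_f, LattFD_al, LattFD_be, det2]
  rw [div_mul_div_comm, div_mul_div_comm, ← sub_div, div_eq_iff (mul_ne_zero hd hd),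
    ← mul_assoc, inv_mul_cancel₀ hd, one_mul]
  ring

theorem latt_vol {v₁ v₂ : ℂ} (h : det2 v₁ v₂ ≠ 0) :
    (volume : Measure ℂ) (cellΩ v₁ v₂) = ENNReal.ofReal |det2 v₁ v₂| := by
  have e : cellΩ v₁ v₂ = (LattFD_f v₁ v₂) ⁻¹'
      {z : ℂ | (0 ≤ z.re ∧ z.re < 1) ∧ (0 ≤ z.im ∧ z.im < 1)} := by
    ext z
    rw [LattFD_mem h]
    rfl
  rw [e, Measure.addHaar_preimage_linearMap _ (by rw [LattFD_det h]; exact inv_ne_zero h),
    LattFD_sq, mul_one, LattFD_det h, inv_inv]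

end Pool.Agent.Hex
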