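import Pool.Agent.Hex.StarB

/-!
Module `UpB` (upper bound for the minimal energy for every `N`).  Uses `star_exists`, `star_sum`,
`Ω2_inequiv`, `Ep_eq`.

PROOF.  Let `m ≥ 1` with `N ≤ m²` and `ω* : Fin (m²) → ℂ` from `star_exists`;
`ω = ω* ∘ Fin.castLE` is an `N`-point configuration in `Ω2` with pairwise inequivalent points, so by
`Ep_eq` its energy is `Σ_i Σ_{j≠i} L(ω i - ω j) - N(N-1)c`, `c ≥ 0` (`Γ(s/2) > 0`, `s > 2`).
For each `i < N`: `Σ_{j<N, j≠i} L ≤ Σ_{j<m², j≠i} L = (m^s - 1) ζ ≤ m^s ζ` (`star_sum`; all terms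
`≥ 0`).  So `infE ≤ Ep ω ≤ N m^s ζ`.
-/

open MeasureTheory Set
open scoped ENNReal

namespace Pool.Agent.Hex

theorem infE_upper {s : ℝ} (hs : 2 < s) {N m : ℕ} (hm : 1 ≤ m) (hN : N ≤ m ^ 2) :
    infE s V2 Ω2 N ≤ ((N * ((m : ℝ) ^ s * zetaV s V2) : ℝ) : EReal) := by
  obtain ⟨ω', hi', hr'⟩ := star_exists m hm
  let L : ℂ → ℝ := fun z => ∑' v : V2, ‖z + (v : ℂ)‖ ^ (-s)
  have hL0 : ∀ z, 0 ≤ L z := fun z => tsum_nonneg (fun v => Real.rpow_nonneg (norm_nonneg _) _)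
  let ω : Fin N → ℂ := fun i => ω' (Fin.castLE hN i)
  have hinj : Function.Injective ω := hi'.comp (Fin.castLE_injective hN)
  have hmem : ∀ i, ω i ∈ Ω2 := by
    intro i
    have : ω i ∈ range ω' := ⟨_, rfl⟩
    rw [hr'] at this
    exact this.1
  have hne : ∀ i j, i ≠ j → ω i - ω j ∉ V2 := fun i j hij h =>
    hij (hinj (Ω2_inequiv (hmem i) (hmem j) h))
  have h1 : infE s V2 Ω2 N ≤ Ep s V2 ω :=
    iInf_le (fun ω : {ω : Fin N → ℂ // ∀ i, ω i ∈ Ω2} => Ep s V2 ω.1) ⟨ω, hmem⟩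
  refine h1.trans ?_
  rw [Ep_eq ω hne, EReal.coe_le_coe_iff]
  have hz : 0 ≤ zetaV s V2 := tsum_nonneg (fun v => Real.rpow_nonneg (norm_nonneg _) _)
  have hsum : ∀ i : Fin N, ∑ j ∈ Finset.univ.erase i, L (ω i - ω j) ≤ (m : ℝ) ^ s * zetaV s V2 := by
    intro i
    have h2 := star_sum m hm ω' hi' hr' hs (Fin.castLE hN i)
    have h3 : ∑ j ∈ Finset.univ.erase i, L (ω i - ω j)
        ≤ ∑ j ∈ Finset.univ.erase (Fin.castLE hN i), L (ω' (Fin.castLE hN i) - ω' j) := by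
      have h4 : ∑ j ∈ Finset.univ.erase i, L (ω i - ω j)
          = ∑ j ∈ (Finset.univ.erase i).map (Fin.castLEEmb hN),
            L (ω' (Fin.castLE hN i) - ω' j) := by
        rw [Finset.sum_map]
        rfl
      rw [h4]
      refine Finset.sum_le_sum_of_subset_of_nonneg ?_ (fun _ _ _ => hL0 _)
      intro j hj
      obtain ⟨k, hk, rfl⟩ := Finset.mem_map.1 hj
      refine Finset.mem_erase.2 ⟨?_, Finset.mem_univ _⟩
      intro h
      exact (Finset.mem_erase.1 hk).1 (Fin.castLE_injective hN h)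
    linarith
  have hS : ∑ i, ∑ j ∈ Finset.univ.erase i, L (ω i - ω j) ≤ N * ((m : ℝ) ^ s * zetaV s V2) := by
    have h5 := Finset.sum_le_sum (s := Finset.univ) (fun (i : Fin N) _ => hsum i)
    rw [Finset.sum_const, Finset.card_univ, Fintype.card_fin, nsmul_eq_mul] at h5
    exact h5
  have hc1 : 0 ≤ 2 * Real.pi / (Real.Gamma (s / 2) * (s - 2)) := by
    have hG : 0 < Real.Gamma (s / 2) := Real.Gamma_pos_of_pos (by linarith)
    have hs2 : 0 < s - 2 := by linarith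
    have := Real.pi_pos
    positivity
  have hc2 : 0 ≤ (N : ℝ) * ((N : ℝ) - 1) := by
    rcases Nat.eq_zero_or_pos N with h0 | h0
    · rw [h0]; simp
    · have : (1 : ℝ) ≤ (N : ℝ) := by exact_mod_cast h0
      exact mul_nonneg (by linarith) (by linarith)
  have hc := mul_nonneg hc2 hc1
  have hS' : ∑ i, ∑ j ∈ Finset.univ.erase i, ∑' v : V2, ‖ω i - ω j + (v : ℂ)‖ ^ (-s)
      ≤ N * ((m : ℝ) ^ s * zetaV s V2) := hS
  linarith

end Pool.Agent.Hex
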