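import Pool.Agent.Hex.LowB
import Pool.Agent.Hex.UpB

/-!
Module `Lim` (`C_{s,2} = ζ_{V2}(s)` for `s ≥ 200`).  Uses `Ep_lower`, `infE_upper`, `det2_V2`.

PROOF.  Let `ζ = ζ_{V2}(s)`, `c = 2π/(Γ(s/2)(s-2))`.  For `N ≥ 1` and `m = ⌈√N⌉₊` (or
`Nat.sqrt N + 1`, so `m ≤ √N + 1`, `N ≤ m²`):
`N^{1+s/2} ζ - N ζ - N(N-1) c ≤ infE N ≤ N m^s ζ`
(lower: `Ep_lower` for `V2 = latt cc ww`, `|det| = 1`, `le_iInf`), so `infE N` is a real number and
after division by `N^{1+s/2}`: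
`ζ - ζ N^{-s/2} - c (N-1) N^{-s/2} ≤ q_N ≤ (m/√N)^s ζ ≤ (1 + 1/√N)^s ζ`.
Both sides tend to `ζ` (`s/2 > 1`).  Squeeze (`tendsto_of_tendsto_of_tendsto_of_le_of_le'`).
-/

open MeasureTheory Set Filter
open scoped ENNReal Topology

namespace Pool.Agent.Hex

lemma Lim_det : |det2 (cc : ℂ) ww| = 1 := by rw [det2_V2, abs_one]

lemma Lim_lower {s : ℝ} (hs : 200 ≤ s) (N : ℕ) :
    (((N : ℝ) ^ (1 + s / 2) * zetaV s V2 - N * zetaV s V2 -
      (N : ℝ) * (N - 1) * (2 * Real.pi / (Real.Gamma (s / 2) * (s - 2))) : ℝ) : EReal) ≤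
      infE s V2 Ω2 N :=
  le_iInf fun ω => Ep_lower Lim_det hs ω.1

theorem infE_ne_top {s : ℝ} (hs : 200 ≤ s) (N : ℕ) : infE s V2 Ω2 N ≠ ⊤ := by
  have h := infE_upper (s := s) (by linarith) (N := N) (m := N + 1) (by omega) (by nlinarith)
  exact ne_top_of_le_ne_top (EReal.coe_ne_top _) h

theorem infE_ne_bot {s : ℝ} (hs : 200 ≤ s) (N : ℕ) : infE s V2 Ω2 N ≠ ⊥ := by
  have h := Lim_lower hs N
  exact ne_bot_of_le_ne_bot (EReal.coe_ne_bot _) h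

theorem infE_limit {s : ℝ} (hs : 200 ≤ s) :
    Tendsto (fun N : ℕ => (infE s V2 Ω2 N).toReal / (N : ℝ) ^ (1 + s / 2)) atTop
      (𝓝 (zetaV s V2)) := by
  have hz : 0 ≤ zetaV s V2 := tsum_nonneg fun _ => Real.rpow_nonneg (norm_nonneg _) _
  set ζ := zetaV s V2 with hζ
  set c := 2 * Real.pi / (Real.Gamma (s / 2) * (s - 2)) with hc
  have hcoe : ∀ N : ℕ, ((infE s V2 Ω2 N).toReal : EReal) = infE s V2 Ω2 N := fun N =>
    EReal.coe_toReal (infE_ne_top hs N) (infE_ne_bot hs N)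
  have hlow : ∀ N : ℕ, (N : ℝ) ^ (1 + s / 2) * ζ - N * ζ - (N : ℝ) * (N - 1) * c ≤
      (infE s V2 Ω2 N).toReal := by
    intro N
    have h := Lim_lower hs N
    rw [← hcoe N] at h
    exact EReal.coe_le_coe_iff.1 h
  have hup : ∀ N m : ℕ, 1 ≤ m → N ≤ m ^ 2 →
      (infE s V2 Ω2 N).toReal ≤ N * ((m : ℝ) ^ s * ζ) := by
    intro N m hm hN
    have h := infE_upper (s := s) (by linarith) hm hN
    rw [← hcoe N] at h
    exact EReal.coe_le_coe_iff.1 h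
  have hNt : Tendsto (fun N : ℕ => (N : ℝ)) atTop atTop := tendsto_natCast_atTop_atTop
  have t1 : Tendsto (fun N : ℕ => (N : ℝ) ^ (-(s / 2))) atTop (𝓝 0) :=
    (tendsto_rpow_neg_atTop (by linarith)).comp hNt
  have t2 : Tendsto (fun N : ℕ => (N : ℝ) ^ (-(s / 2 - 1))) atTop (𝓝 0) :=
    (tendsto_rpow_neg_atTop (by linarith)).comp hNt
  have tl : Tendsto (fun N : ℕ => ζ - ζ * (N : ℝ) ^ (-(s / 2)) - |c| * (N : ℝ) ^ (-(s / 2 - 1)))
      atTop (𝓝 ζ) := by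
    have := (tendsto_const_nhds (x := ζ)).sub (t1.const_mul ζ) |>.sub (t2.const_mul |c|)
    simpa using this
  have t3 : Tendsto (fun N : ℕ => (1 + 1 / Real.sqrt N) ^ s * ζ) atTop (𝓝 ζ) := by
    have h1 : Tendsto (fun N : ℕ => 1 / Real.sqrt (N : ℝ)) atTop (𝓝 0) :=
      tendsto_const_nhds.div_atTop (Real.tendsto_sqrt_atTop.comp hNt)
    have h2 : Tendsto (fun N : ℕ => 1 + 1 / Real.sqrt (N : ℝ)) atTop (𝓝 (1 + 0)) :=
      tendsto_const_nhds.add h1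
    have h3 := (h2.rpow_const (p := s) (Or.inl (by norm_num))).mul_const ζ
    simpa using h3
  refine tendsto_of_tendsto_of_tendsto_of_le_of_le' tl t3 ?_ ?_
  · filter_upwards [eventually_ge_atTop 1] with N hN
    have hN0 : (0 : ℝ) < N := by exact_mod_cast hN
    have hN1 : (1 : ℝ) ≤ N := by exact_mod_cast hN
    have hp : 0 < (N : ℝ) ^ (1 + s / 2) := Real.rpow_pos_of_pos hN0 _
    rw [le_div_iff₀ hp]
    refine le_trans ?_ (hlow N)
    have e1 : (N : ℝ) ^ (-(s / 2)) * (N : ℝ) ^ (1 + s / 2) = N := by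
      rw [← Real.rpow_add hN0, show -(s / 2) + (1 + s / 2) = 1 by ring, Real.rpow_one]
    have e2 : (N : ℝ) ^ (-(s / 2 - 1)) * (N : ℝ) ^ (1 + s / 2) = N ^ 2 := by
      rw [← Real.rpow_add hN0, show -(s / 2 - 1) + (1 + s / 2) = 2 by ring]
      norm_num
    have e3 : (ζ - ζ * (N : ℝ) ^ (-(s / 2)) - |c| * (N : ℝ) ^ (-(s / 2 - 1))) *
        (N : ℝ) ^ (1 + s / 2) = (N : ℝ) ^ (1 + s / 2) * ζ -
          ζ * ((N : ℝ) ^ (-(s / 2)) * (N : ℝ) ^ (1 + s / 2)) -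
          |c| * ((N : ℝ) ^ (-(s / 2 - 1)) * (N : ℝ) ^ (1 + s / 2)) := by ring
    rw [e3, e1, e2]
    have h4 : (N : ℝ) * (N - 1) * c ≤ |c| * (N : ℝ) ^ 2 := by
      calc (N : ℝ) * (N - 1) * c ≤ (N : ℝ) * (N - 1) * |c| :=
            mul_le_mul_of_nonneg_left (le_abs_self c) (mul_nonneg hN0.le (by linarith))
        _ ≤ |c| * (N : ℝ) ^ 2 := by nlinarith [abs_nonneg c]
    linarith
  · filter_upwards [eventually_ge_atTop 1] with N hN
    have hN0 : (0 : ℝ) < N := by exact_mod_cast hN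
    have hp : 0 < (N : ℝ) ^ (1 + s / 2) := Real.rpow_pos_of_pos hN0 _
    have hsq : 0 < Real.sqrt N := Real.sqrt_pos.2 hN0
    rw [div_le_iff₀ hp]
    have hm : N ≤ (Nat.sqrt N + 1) ^ 2 := by
      have := Nat.lt_succ_sqrt' N
      rw [Nat.succ_eq_add_one] at this
      omega
    refine (hup N (Nat.sqrt N + 1) (by omega) hm).trans ?_
    have e1 : (N : ℝ) ^ (1 + s / 2) = N * Real.sqrt N ^ s := by
      rw [Real.rpow_add hN0, Real.rpow_one, Real.sqrt_eq_rpow, ← Real.rpow_mul hN0.le]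
      congr 2
      ring
    have e2 : (1 + 1 / Real.sqrt N) ^ s * Real.sqrt N ^ s = (Real.sqrt N + 1) ^ s := by
      rw [← Real.mul_rpow (by positivity) hsq.le]
      congr 1
      field_simp
    have e3 : (1 + 1 / Real.sqrt N) ^ s * ζ * (N : ℝ) ^ (1 + s / 2) =
        N * ((Real.sqrt N + 1) ^ s * ζ) := by
      rw [e1, ← e2]; ring
    rw [e3]
    have h5 : ((Nat.sqrt N : ℕ) : ℝ) ≤ Real.sqrt N := by
      apply Real.le_sqrt_of_sq_le
      exact_mod_cast Nat.sqrt_le' N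
    have h6 : ((Nat.sqrt N + 1 : ℕ) : ℝ) ^ s ≤ (Real.sqrt N + 1) ^ s := by
      apply Real.rpow_le_rpow (by positivity) _ (by linarith)
      push_cast
      linarith
    gcongr

end Pool.Agent.Hex
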