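import Mathlib

/-!
# MP_dd05ac_mp, the objects of the problem (dimension `t = 2`, exponents `s > 2`)

The plane `ℝ²` is `ℂ`.  A lattice is `latt v₁ v₂ = ℤ v₁ + ℤ v₂`; co-volume one means
`|det (v₁, v₂)| = 1`.  The hexagonal lattice scaled to co-volume one is
`V2 = latt cc (cc·e^{iπ/3})` with `cc² = 2/√3`.
-/

open MeasureTheory Set

namespace Pool.Agent.Hex

/-- The lattice `ℤ v₁ + ℤ v₂`. -/
def latt (v₁ v₂ : ℂ) : AddSubgroup ℂ where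
  carrier := {z | ∃ a b : ℤ, z = a * v₁ + b * v₂}
  zero_mem' := ⟨0, 0, by simp⟩
  add_mem' := by
    rintro _ _ ⟨a, b, rfl⟩ ⟨c, d, rfl⟩
    exact ⟨a + c, b + d, by push_cast; ring⟩
  neg_mem' := by
    rintro _ ⟨a, b, rfl⟩
    exact ⟨-a, -b, by push_cast; ring⟩

/-- `det (v₁, v₂)`; its absolute value is the co-volume of `latt v₁ v₂`. -/
def det2 (v₁ v₂ : ℂ) : ℝ := v₁.re * v₂.im - v₁.im * v₂.re

/-- The half-open fundamental cell `{α v₁ + β v₂ : α, β ∈ [0,1)}`. -/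
def cellΩ (v₁ v₂ : ℂ) : Set ℂ :=
  {z | ∃ α β : ℝ, 0 ≤ α ∧ α < 1 ∧ 0 ≤ β ∧ β < 1 ∧ z = (α : ℂ) * v₁ + (β : ℂ) * v₂}

open Classical in
/-- The periodic Riesz `s`-kernel for `s > 2` (`t = 2`):
`Σ_{v ∈ V} |x-y+v|^{-s} - 2π/(Γ(s/2)(s-2))`, and `+∞` if `x - y ∈ V`. -/
noncomputable def Kp (s : ℝ) (V : AddSubgroup ℂ) (x y : ℂ) : EReal :=
  if x - y ∈ V then ⊤
  else (((∑' v : V, ‖x - y + (v : ℂ)‖ ^ (-s)) -
    2 * Real.pi / (Real.Gamma (s / 2) * (s - 2)) : ℝ) : EReal)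

/-- The energy `E_s^p(ω_N) = Σ_{i ≠ j} K_s^p(x_i, x_j)`. -/
noncomputable def Ep (s : ℝ) (V : AddSubgroup ℂ) {N : ℕ} (ω : Fin N → ℂ) : EReal :=
  ∑ i, ∑ j ∈ Finset.univ.erase i, Kp s V (ω i) (ω j)

/-- The minimal `N`-point energy `𝓔_s^p(Ω, N)`. -/
noncomputable def infE (s : ℝ) (V : AddSubgroup ℂ) (Ω : Set ℂ) (N : ℕ) : EReal :=
  ⨅ ω : {ω : Fin N → ℂ // ∀ i, ω i ∈ Ω}, Ep s V ω.1

/-- The Epstein zeta function `ζ_V(s) = Σ_{v ∈ V, v ≠ 0} |v|^{-s}`. -/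
noncomputable def zetaV (s : ℝ) (V : AddSubgroup ℂ) : ℝ :=
  ∑' v : {v : V // v ≠ 0}, ‖((v : V) : ℂ)‖ ^ (-s)

/-- The scaling constant of the hexagonal lattice, `cc² = 2/√3`. -/
noncomputable def cc : ℝ := Real.sqrt (2 / Real.sqrt 3)

/-- Second basis vector: `cc·e^{iπ/3}`. -/
noncomputable def ww : ℂ := ⟨cc * (1 / 2), cc * (Real.sqrt 3 / 2)⟩

/-- The hexagonal lattice of co-volume one. -/
noncomputable def V2 : AddSubgroup ℂ := latt (cc : ℂ) ww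

/-- Its half-open fundamental cell. -/
noncomputable def Ω2 : Set ℂ := cellΩ (cc : ℂ) ww

end Pool.Agent.Hex
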