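import Pool.Agent.Hex.Basic
import Pool.Agent.Hex.Prob

/-!
Module `ScaleE` (scaling).

PROOF.  `y ↦ κ y` is a bijection from `{y // y ∈ per (latt v₁ v₂) S ∧ y ≠ x}` onto
`{y // y ∈ per (latt (κ v₁) (κ v₂)) (κ S) ∧ y ≠ κ x}`, and
`‖κ y - κ x‖^{-s} = κ^{-s} ‖y-x‖^{-s}` (`Real.mul_rpow`); `ENNReal.ofReal_mul`,
`ENNReal.tsum_mul_left`, `Finset.sum_image` (injective since `κ ≠ 0`), `Finset.mul_sum`.
-/

open MeasureTheory Set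
open scoped ENNReal

namespace Pool.Agent.Hex

private lemma mem_latt_scale (κ : ℂ) (v₁ v₂ z : ℂ) :
    z ∈ latt (κ * v₁) (κ * v₂) ↔ ∃ γ ∈ latt v₁ v₂, z = κ * γ := by
  constructor
  · rintro ⟨a, b, rfl⟩
    exact ⟨a * v₁ + b * v₂, ⟨a, b, rfl⟩, by ring⟩
  · rintro ⟨γ, ⟨a, b, rfl⟩, rfl⟩
    exact ⟨a, b, by ring⟩

private lemma mem_per_scale {κ : ℂ} (hκ : κ ≠ 0) (v₁ v₂ : ℂ) (S : Finset ℂ) (z : ℂ) :
    κ * z ∈ per (latt (κ * v₁) (κ * v₂)) (S.image fun z => κ * z) ↔ z ∈ per (latt v₁ v₂) S := by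
  constructor
  · rintro ⟨x', hx', γ', hγ', h⟩
    obtain ⟨x, hx, rfl⟩ := Finset.mem_image.1 hx'
    obtain ⟨γ, hγ, rfl⟩ := (mem_latt_scale κ v₁ v₂ γ').1 hγ'
    refine ⟨x, hx, γ, hγ, ?_⟩
    have : κ * z = κ * (x + γ) := by rw [h]; ring
    exact mul_left_cancel₀ hκ this
  · rintro ⟨x, hx, γ, hγ, rfl⟩
    exact ⟨κ * x, Finset.mem_image.2 ⟨x, hx, rfl⟩, κ * γ,
      (mem_latt_scale κ v₁ v₂ _).2 ⟨γ, hγ, rfl⟩, by ring⟩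

theorem E_scale {κ : ℝ} (hκ : 0 < κ) (v₁ v₂ : ℂ) (S : Finset ℂ) (s : ℝ) :
    E s (latt (κ * v₁) (κ * v₂)) (S.image fun z => (κ : ℂ) * z) =
      ENNReal.ofReal (κ ^ (-s)) * E s (latt v₁ v₂) S := by
  have hκ0 : (κ : ℂ) ≠ 0 := by exact_mod_cast hκ.ne'
  unfold E
  rw [Finset.sum_image (fun x _ y _ h => mul_left_cancel₀ hκ0 h), Finset.mul_sum]
  refine Finset.sum_congr rfl fun x _ => ?_
  unfold en
  rw [← ENNReal.tsum_mul_left]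
  have e : {y // y ∈ per (latt v₁ v₂) S ∧ y ≠ x} ≃
      {y // y ∈ per (latt (κ * v₁) (κ * v₂)) (S.image fun z => (κ : ℂ) * z) ∧ y ≠ (κ : ℂ) * x} :=
    (Equiv.mulLeft₀ (κ : ℂ) hκ0).subtypeEquiv (fun y => by
      show _ ↔ ((κ : ℂ) * y ∈ _ ∧ (κ : ℂ) * y ≠ (κ : ℂ) * x)
      rw [mem_per_scale hκ0]
      refine and_congr_right fun _ => not_congr ?_
      exact ⟨fun h => by rw [h], fun h => mul_left_cancel₀ hκ0 h⟩)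
  rw [← (show {y // y ∈ per (latt v₁ v₂) S ∧ y ≠ x} ≃
      {y // y ∈ per (latt (κ * v₁) (κ * v₂)) (S.image fun z => (κ : ℂ) * z) ∧ y ≠ (κ : ℂ) * x} from
    (Equiv.mulLeft₀ (κ : ℂ) hκ0).subtypeEquiv (fun y => by
      show _ ↔ ((κ : ℂ) * y ∈ _ ∧ (κ : ℂ) * y ≠ (κ : ℂ) * x)
      rw [mem_per_scale hκ0]
      refine and_congr_right fun _ => not_congr ?_
      exact ⟨fun h => by rw [h], fun h => mul_left_cancel₀ hκ0 h⟩)).tsum_eq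
    (fun y => ENNReal.ofReal (‖(y : ℂ) - κ * x‖ ^ (-s)))]
  refine tsum_congr fun y => ?_
  have h1 : ‖(κ : ℂ) * (y : ℂ) - κ * x‖ = κ * ‖(y : ℂ) - x‖ := by
    rw [← mul_sub, norm_mul, Complex.norm_real, Real.norm_eq_abs, abs_of_pos hκ]
  show ENNReal.ofReal (‖(κ : ℂ) * (y : ℂ) - κ * x‖ ^ (-s)) = _
  rw [h1, Real.mul_rpow hκ.le (norm_nonneg _), ENNReal.ofReal_mul (by positivity)]

theorem det2_scale (κ : ℝ) (v₁ v₂ : ℂ) :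
    det2 ((κ : ℂ) * v₁) ((κ : ℂ) * v₂) = κ ^ 2 * det2 v₁ v₂ := by
  simp only [det2, Complex.re_ofReal_mul, Complex.im_ofReal_mul]
  ring

end Pool.Agent.Hex
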