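import Pool.Agent.Hex.Basic
import Pool.Agent.Hex.Prob

/-!
Module `ZetaHex` (the hexagonal lattice of co-volume one).

PROOFS.  `ww = cc·om`; so `a·cc + b·ww = cc·lat (a,b)`; `mem_V2` follows.
`det2 cc ww = cc·cc·(√3/2) = cc²·√3/2 = 1`.
`zetaV_V2`: `p ↦ cc·lat p` is a bijection from `{p // p ≠ 0}` onto `{v : V2 // v ≠ 0}`
(`lat_injective`), `‖cc·lat p‖^{-s} = cc^{-s} ‖lat p‖^{-s}`; `tsum_mul_left`, `Equiv.tsum_eq`.
-/

open MeasureTheory Set
open scoped ENNReal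

namespace Pool.Agent.Hex

theorem cc_pos : 0 < cc := by
  unfold cc
  exact Real.sqrt_pos.2 (div_pos two_pos sqrt3_pos)

theorem cc_sq : cc ^ 2 = 2 / Real.sqrt 3 := by
  unfold cc
  exact Real.sq_sqrt (div_pos two_pos sqrt3_pos).le

theorem ww_eq : ww = (cc : ℂ) * om := by
  apply Complex.ext
  · rw [Complex.re_ofReal_mul, om_re]
    rfl
  · rw [Complex.im_ofReal_mul, om_im]
    rfl

theorem mem_V2 {z : ℂ} : z ∈ V2 ↔ ∃ p : ℤ × ℤ, z = (cc : ℂ) * lat p := by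
  constructor
  · rintro ⟨a, b, rfl⟩
    refine ⟨(a, b), ?_⟩
    rw [ww_eq]
    simp only [lat]
    ring
  · rintro ⟨p, rfl⟩
    refine ⟨p.1, p.2, ?_⟩
    rw [ww_eq]
    simp only [lat]
    ring

theorem det2_V2 : det2 (cc : ℂ) ww = 1 := by
  have h1 := cc_sq
  have h2 := sqrt3_pos
  have h : det2 (cc : ℂ) ww = cc ^ 2 * (Real.sqrt 3 / 2) := by
    simp only [det2, ww, Complex.ofReal_re, Complex.ofReal_im]
    ring
  rw [h, h1]
  field_simp

theorem zetaV_V2 (s : ℝ) : zetaV s V2 = cc ^ (-s) * Z s := by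
  unfold zetaV Z
  rw [← tsum_mul_left]
  have hcc : (cc : ℂ) ≠ 0 := by exact_mod_cast cc_pos.ne'
  let F : {p : ℤ × ℤ // p ≠ 0} → {v : V2 // v ≠ 0} := fun p =>
    ⟨⟨(cc : ℂ) * lat p.1, mem_V2.2 ⟨p.1, rfl⟩⟩, by
      intro h
      have h' : (cc : ℂ) * lat p.1 = 0 := congrArg (fun v : V2 => (v : ℂ)) h
      rcases mul_eq_zero.1 h' with h'' | h''
      · exact hcc h''
      · exact p.2 (lat_eq_zero.1 h'')⟩
  have hF : Function.Bijective F := by
    constructor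
    · intro p q hpq
      have h' : (cc : ℂ) * lat p.1 = (cc : ℂ) * lat q.1 :=
        congrArg (fun v : {v : V2 // v ≠ 0} => ((v : V2) : ℂ)) hpq
      exact Subtype.ext (lat_injective (mul_left_cancel₀ hcc h'))
    · rintro ⟨⟨v, hv⟩, hv0⟩
      obtain ⟨p, hp⟩ := mem_V2.1 hv
      refine ⟨⟨p, ?_⟩, ?_⟩
      · rintro rfl
        apply hv0
        apply Subtype.ext
        show v = 0
        rw [hp, lat_zero, mul_zero]
      · apply Subtype.ext
        apply Subtype.ext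
        exact hp.symm
  rw [← (Equiv.ofBijective F hF).tsum_eq (fun v : {v : V2 // v ≠ 0} => ‖((v : V2) : ℂ)‖ ^ (-s))]
  refine tsum_congr (fun p => ?_)
  show ‖(cc : ℂ) * lat p.1‖ ^ (-s) = cc ^ (-s) * ‖lat p.1‖ ^ (-s)
  rw [norm_mul, Complex.norm_real, Real.norm_eq_abs, abs_of_pos cc_pos,
    Real.mul_rpow cc_pos.le (norm_nonneg _)]

end Pool.Agent.Hex
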