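import Pool.Agent.Hex.Core
import Pool.Agent.Hex.LattFD
import Pool.Agent.Hex.ScaleE
import Pool.Agent.Hex.ZetaHex
import Pool.Agent.Hex.EpReal

/-!
Module `LowB` (lower bound for every lattice of co-volume one and every `N`).  Uses `core`,
`latt_fd`, `latt_vol`, `latt_countable`, `E_scale`, `det2_scale`, `zetaV_V2`, `cc_sq`, `Ep_top`,
`Ep_eq`, `E_eq_Ep`.

PROOF.  `N = 0`: both sides are `0` (`0^(1+s/2) = 0`).  Let `N ≥ 1`, `V = latt v₁ v₂`.  If
`ω i - ω j ∈ V` for some `i ≠ j`, then `Ep = ⊤`.  Otherwise `ω` is injective, `S = image ω`,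
`#S = N`.  Let `κ = √(N √3/2) > 0`, `κ² = N √3/2`.  The configuration `C` with
`Γ = latt (κ v₁) (κ v₂)`, `S' = κ S`, `D = cellΩ (κ v₁) (κ v₂)`,
`A = |det2 (κ v₁) (κ v₂)| = κ² = N √3/2` is a `Cfg`, and `F0 s·N - P s·A = 6N` so `core` gives
`ofReal (Z s·N) ≤ E s Γ S' = ofReal (κ^{-s})·E s V S`, i.e. `ofReal (κ^s·Z s·N) ≤ E s V S
= ofReal (N ζ_V(s) + Σ_i Σ_{j≠i} L)` (`E_eq_Ep`), and so (the right argument is `≥ 0`)
`κ^s Z N ≤ N ζ_V(s) + Σ Σ L`.  Finally
`κ^s = (N √3/2)^{s/2} = N^{s/2} (cc²)^{-s/2} = N^{s/2} cc^{-s}`, `ζ_{V2}(s) = cc^{-s} Z s`, so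
`κ^s Z N = N^{1+s/2} ζ_{V2}(s)`.
-/

open MeasureTheory Set
open scoped ENNReal

namespace Pool.Agent.Hex

theorem sum_lower {v₁ v₂ : ℂ} (hd : |det2 v₁ v₂| = 1) {s : ℝ} (hs : 200 ≤ s) {N : ℕ}
    (ω : Fin N → ℂ) (h : ∀ i j, i ≠ j → ω i - ω j ∉ latt v₁ v₂) :
    (N : ℝ) ^ (1 + s / 2) * zetaV s V2 ≤ N * zetaV s (latt v₁ v₂) +
      ∑ i, ∑ j ∈ Finset.univ.erase i, ∑' v : latt v₁ v₂, ‖ω i - ω j + (v : ℂ)‖ ^ (-s) := by
  classical
  rcases Nat.eq_zero_or_pos N with hN | hN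
  · subst hN
    have h1 : (1 + s / 2 : ℝ) ≠ 0 := by linarith
    simp [Real.zero_rpow h1]
  have hd0 : det2 v₁ v₂ ≠ 0 := by
    intro h0
    rw [h0, abs_zero] at hd
    exact zero_ne_one hd
  have hNR : (0 : ℝ) < (N : ℝ) := by exact_mod_cast hN
  have h3 := sqrt3_pos
  have h3' := sqrt3_sq
  have hinj : Function.Injective ω := by
    intro i j hij
    by_contra hne
    apply h i j hne
    rw [hij, sub_self]
    exact (latt v₁ v₂).zero_mem
  set κ : ℝ := Real.sqrt (N * Real.sqrt 3 / 2) with hκdef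
  have hκ2 : κ ^ 2 = N * Real.sqrt 3 / 2 := Real.sq_sqrt (by positivity)
  have hκ : 0 < κ := Real.sqrt_pos.2 (by positivity)
  have hκC : (κ : ℂ) ≠ 0 := by exact_mod_cast hκ.ne'
  have hdet : |det2 ((κ : ℂ) * v₁) ((κ : ℂ) * v₂)| = κ ^ 2 := by
    rw [det2_scale, abs_mul, hd, mul_one, abs_of_nonneg (by positivity)]
  have hdet0 : det2 ((κ : ℂ) * v₁) ((κ : ℂ) * v₂) ≠ 0 := by
    rw [det2_scale]
    exact mul_ne_zero (by positivity) hd0
  have hcard : ((Finset.univ.image ω).image fun z => (κ : ℂ) * z).card = N := by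
    rw [Finset.card_image_of_injective _ (mul_right_injective₀ hκC),
      Finset.card_image_of_injective _ hinj, Finset.card_univ, Fintype.card_fin]
  let C : Cfg :=
    { Γ := latt ((κ : ℂ) * v₁) ((κ : ℂ) * v₂)
      S := (Finset.univ.image ω).image fun z => (κ : ℂ) * z
      D := cellΩ ((κ : ℂ) * v₁) ((κ : ℂ) * v₂)
      A := κ ^ 2
      cnt := latt_countable _ _
      fd := latt_fd hdet0
      hA := by positivity
      vol := by rw [latt_vol hdet0, hdet]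
      ineq := by
        intro x hx y hy hxy
        simp only [Finset.mem_image, Finset.mem_univ, true_and] at hx hy
        obtain ⟨_, ⟨i, rfl⟩, rfl⟩ := hx
        obtain ⟨_, ⟨j, rfl⟩, rfl⟩ := hy
        by_contra hne
        have hij : i ≠ j := by
          rintro rfl
          exact hne rfl
        apply h i j hij
        obtain ⟨a, b, hab⟩ := hxy
        refine ⟨a, b, ?_⟩
        apply mul_left_cancel₀ hκC
        linear_combination hab }
  have hcore := core C hs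
  have e1 : Z s / 6 * (F0 s * C.S.card - P s * C.A) = Z s * N := by
    have f1 : (C.S.card : ℝ) = N := by
      have : C.S.card = N := hcard
      exact_mod_cast this
    have f2 : C.A = N * Real.sqrt 3 / 2 := hκ2
    rw [f1, f2]
    unfold F0 P
    linear_combination (-(Z s / 6 * s * N)) * h3'
  rw [e1] at hcore
  have e2 : E s C.Γ C.S = ENNReal.ofReal (κ ^ (-s)) * E s (latt v₁ v₂) (Finset.univ.image ω) :=
    E_scale hκ v₁ v₂ _ s
  rw [e2, E_eq_Ep hd0 (by linarith : (2 : ℝ) < s) ω h, ← ENNReal.ofReal_mul (by positivity)]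
    at hcore
  set R : ℝ := N * zetaV s (latt v₁ v₂) +
      ∑ i, ∑ j ∈ Finset.univ.erase i, ∑' v : latt v₁ v₂, ‖ω i - ω j + (v : ℂ)‖ ^ (-s) with hR
  have hR0 : 0 ≤ R := by
    apply add_nonneg
    · apply mul_nonneg hNR.le
      exact tsum_nonneg fun _ => Real.rpow_nonneg (norm_nonneg _) _
    · exact Finset.sum_nonneg fun _ _ => Finset.sum_nonneg fun _ _ =>
        tsum_nonneg fun _ => Real.rpow_nonneg (norm_nonneg _) _
  rw [ENNReal.ofReal_le_ofReal_iff (by positivity)] at hcore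
  have e3 : κ ^ s * (κ ^ (-s) * R) = R := by
    rw [← mul_assoc, ← Real.rpow_add hκ, add_neg_cancel, Real.rpow_zero, one_mul]
  have e4 : κ ^ s * (Z s * N) ≤ R := by
    rw [← e3]
    exact mul_le_mul_of_nonneg_left hcore (by positivity)
  have hcc := cc_pos
  have hcc2 := cc_sq
  have e5 : κ = Real.sqrt N / cc := by
    have f1 : κ ^ 2 = (Real.sqrt N / cc) ^ 2 := by
      rw [div_pow, hcc2, Real.sq_sqrt hNR.le, hκ2]
      field_simp
    exact (pow_left_inj₀ hκ.le (by positivity) two_ne_zero).1 f1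
  have e6 : κ ^ s = (N : ℝ) ^ (s / 2) * cc ^ (-s) := by
    rw [e5, Real.div_rpow (Real.sqrt_nonneg _) hcc.le, Real.sqrt_eq_rpow, ← Real.rpow_mul hNR.le,
      Real.rpow_neg hcc.le, div_eq_mul_inv]
    congr 2
    ring
  have e7 : (N : ℝ) ^ (1 + s / 2) * zetaV s V2 = κ ^ s * (Z s * N) := by
    rw [e6, zetaV_V2, Real.rpow_add hNR, Real.rpow_one]
    ring
  rw [e7]
  exact e4

theorem Ep_lower {v₁ v₂ : ℂ} (hd : |det2 v₁ v₂| = 1) {s : ℝ} (hs : 200 ≤ s) {N : ℕ}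
    (ω : Fin N → ℂ) :
    (((N : ℝ) ^ (1 + s / 2) * zetaV s V2 - N * zetaV s (latt v₁ v₂) -
      (N : ℝ) * (N - 1) * (2 * Real.pi / (Real.Gamma (s / 2) * (s - 2))) : ℝ) : EReal) ≤
      Ep s (latt v₁ v₂) ω := by
  by_cases h : ∀ i j, i ≠ j → ω i - ω j ∉ latt v₁ v₂
  · rw [Ep_eq ω h, EReal.coe_le_coe_iff]
    have := sum_lower hd hs ω h
    linarith
  · push Not at h
    obtain ⟨i, j, hij, hmem⟩ := h
    rw [Ep_top ω hij hmem]
    exact le_top

end Pool.Agent.Hex
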