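import Pool.Agent.Hex.Basic

/-!
Module `MeasMult` (total measure of the cells of multiplicity `M`).

PROOF.  For `x ∈ I`: `volume (K x) = ∑' γ : Γ, volume ((γ +ᵥ K x) ∩ D)`
(`IsAddFundamentalDomain.measure_eq_tsum`), and `γ +ᵥ K x = {z | z - γ ∈ K x} = K (x + γ)` by
`hper`.  So, `χ` denoting indicators and using `lintegral_tsum`, `lintegral_finset_sum`,
`Σ_{x ∈ I} volume (K x) = ∫⁻_{z ∈ D} Σ_{x ∈ I} Σ'_{γ ∈ Γ} χ_{K (x+γ)}(z)`.
For fixed `z` the inner double sum is the (extended) number of pairs `(x,γ) ∈ I × Γ` with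
`z ∈ K (x + γ)`; it is `≤ M`: the map `(x,γ) ↦ x + γ` is injective on `I × Γ`
(`x + γ = x' + γ'` gives `x - x' ∈ Γ`, so `x = x'` by `C.ineq`, `hI`), and any finite set of such
pairs gives a finite set `T` of the same size with `x+γ ∈ per Γ I` and `z ∈ K (x+γ)`
(`ENNReal.tsum_le_of_sum_le`-type argument: a tsum of `0/1` values is the sup of finite sums).
Hence `Σ volume (K x) ≤ M · volume D = M · ofReal A < ⊤`, and all `volume (K x)` are finite; take
`toReal` (`ENNReal.toReal_sum`).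
-/

open MeasureTheory Set
open scoped ENNReal

namespace Pool.Agent.Hex

open Pointwise in
lemma MeasMult_vol (C : Cfg) (K : ℂ → Set ℂ) 
    (hper : ∀ x, ∀ γ ∈ C.Γ, ∀ z, z ∈ K (x + γ) ↔ z - γ ∈ K x) (x : ℂ) (hK : MeasurableSet (K x)) :
    (∀ γ : C.Γ, MeasurableSet (K (x + γ))) ∧
    volume (K x) = ∫⁻ z in C.D, ∑' γ : C.Γ, (K (x + γ)).indicator (fun _ => (1 : ℝ≥0∞)) z := by
  have hset : ∀ γ : C.Γ, (γ +ᵥ K x) = K (x + γ) := by
    intro γ
    ext z
    rw [Set.mem_vadd_set_iff_neg_vadd_mem, hper x γ γ.2]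
    have : -γ +ᵥ z = z - (γ : ℂ) := by
      rw [AddSubgroup.vadd_def]
      simp [sub_eq_neg_add]
    rw [this]
  have hm : ∀ γ : C.Γ, MeasurableSet (K (x + γ)) := by
    intro γ
    rw [← hset γ]
    exact hK.const_vadd γ
  refine ⟨hm, ?_⟩
  rw [C.fd.measure_eq_tsum, lintegral_tsum]
  · refine tsum_congr fun γ => ?_
    rw [lintegral_indicator (hm γ)]
    simp only [lintegral_const, one_mul]
    rw [hset γ, Measure.restrict_apply MeasurableSet.univ, Set.univ_inter, Measure.restrict_apply (hm γ)]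
  · intro γ
    exact (measurable_const.indicator (hm γ)).aemeasurable

lemma MeasMult_pt (C : Cfg) (I : Finset ℂ) (hI : I ⊆ C.S) (K : ℂ → Set ℂ)
    (M : ℕ)
    (hM : ∀ z, ∀ T : Finset ℂ, (∀ x ∈ T, x ∈ per C.Γ I ∧ z ∈ K x) → T.card ≤ M) (z : ℂ) :
    ∑ x ∈ I, ∑' γ : C.Γ, (K (x + γ)).indicator (fun _ => (1 : ℝ≥0∞)) z ≤ M := by
  classical
  rw [← Summable.tsum_finsetSum (fun _ _ => ENNReal.summable)]
  refine ENNReal.summable.tsum_le_of_sum_le fun F => ?_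
  rw [← Finset.sum_product']
  have h1 : ∀ p ∈ F ×ˢ I, (K (p.2 + (p.1 : ℂ))).indicator (fun _ => (1 : ℝ≥0∞)) z =
      if z ∈ K (p.2 + (p.1 : ℂ)) then 1 else 0 := by
    intro p _
    rw [Set.indicator_apply]
  rw [Finset.sum_congr rfl h1, Finset.sum_boole]
  have hinj : Set.InjOn (fun p : C.Γ × ℂ => p.2 + (p.1 : ℂ))
      ((F ×ˢ I).filter fun p => z ∈ K (p.2 + (p.1 : ℂ)) : Finset (C.Γ × ℂ)) := by
    rintro ⟨γ, x⟩ hp ⟨γ', x'⟩ hq h
    simp only [Finset.coe_filter, Set.mem_ofPred_eq, Finset.mem_product] at hp hq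
    simp only at h
    have h2 : x - x' = ((γ' - γ : C.Γ) : ℂ) := by
      push_cast
      linear_combination h
    have h3 : x = x' := C.ineq x (hI hp.1.2) x' (hI hq.1.2) (by rw [h2]; exact (γ' - γ).2)
    subst h3
    have h4 : (γ : ℂ) = γ' := by linear_combination h
    have h5 : γ = γ' := Subtype.ext h4
    rw [h5]
  rw [← Finset.card_image_of_injOn hinj]
  have := hM z (((F ×ˢ I).filter fun p => z ∈ K (p.2 + (p.1 : ℂ))).image
    (fun p : C.Γ × ℂ => p.2 + (p.1 : ℂ))) ?_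
  · exact_mod_cast this
  · intro y hy
    rw [Finset.mem_image] at hy
    obtain ⟨p, hp, rfl⟩ := hy
    rw [Finset.mem_filter, Finset.mem_product] at hp
    exact ⟨⟨p.2, hp.1.2, p.1, p.1.2, rfl⟩, hp.2⟩

theorem meas_mult (C : Cfg) (I : Finset ℂ) (hI : I ⊆ C.S) (K : ℂ → Set ℂ)
    (hK : ∀ x ∈ I, MeasurableSet (K x))
    (hper : ∀ x, ∀ γ ∈ C.Γ, ∀ z, z ∈ K (x + γ) ↔ z - γ ∈ K x) (M : ℕ)
    (hM : ∀ z, ∀ T : Finset ℂ, (∀ x ∈ T, x ∈ per C.Γ I ∧ z ∈ K x) → T.card ≤ M) :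
    ∑ x ∈ I, (volume (K x)).toReal ≤ M * C.A := by
  have h1 : ∑ x ∈ I, volume (K x) ≤ M * ENNReal.ofReal C.A := by
    have h2 : ∑ x ∈ I, volume (K x) = ∫⁻ z in C.D, ∑ x ∈ I,
        ∑' γ : C.Γ, (K (x + γ)).indicator (fun _ => (1 : ℝ≥0∞)) z := by
      rw [lintegral_finsetSum']
      · exact Finset.sum_congr rfl fun x hx => (MeasMult_vol C K hper x (hK x hx)).2
      · intro x hx
        exact AEMeasurable.tsum fun γ => 
          (measurable_const.indicator ((MeasMult_vol C K hper x (hK x hx)).1 γ)).aemeasurable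
    rw [h2]
    calc _ ≤ ∫⁻ _ in C.D, (M : ℝ≥0∞) := lintegral_mono fun z => MeasMult_pt C I hI K M hM z
      _ = M * ENNReal.ofReal C.A := by
          rw [lintegral_const, Measure.restrict_apply MeasurableSet.univ, Set.univ_inter, C.vol]
  have hfin : (M : ℝ≥0∞) * ENNReal.ofReal C.A ≠ ⊤ := ENNReal.mul_ne_top (ENNReal.natCast_ne_top M) ENNReal.ofReal_ne_top
  have hne : ∀ x ∈ I, volume (K x) ≠ ⊤ := by
    intro x hx
    have := (Finset.single_le_sum (f := fun x => volume (K x)) (fun _ _ => zero_le) hx).trans h1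
    exact ne_top_of_le_ne_top hfin this
  rw [← ENNReal.toReal_sum hne]
  calc (∑ x ∈ I, volume (K x)).toReal ≤ ((M : ℝ≥0∞) * ENNReal.ofReal C.A).toReal := ENNReal.toReal_mono hfin h1
    _ = M * C.A := by
      rw [ENNReal.toReal_mul, ENNReal.toReal_natCast, ENNReal.toReal_ofReal C.hA]

end Pool.Agent.Hex
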