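import Pool.Agent.Hex.Cover
import Pool.Agent.Hex.Index

/-!
Module `Mult` (a point lies in at most `|g|²` cells of scale `g`).  Uses `cover`, `index_bound`.

PROOF.  `ε = 1/100`, `|g| = ‖lat g‖ ≥ √3`.  If `T = ∅` trivial; else fix `x0 ∈ T`, `v = u x0`
(`|v| = 1`).
Step 1.  For `x ∈ T`: `‖x-x0‖ ≤ ‖x-z‖ + ‖z-x0‖ < 2|g|/√3`.  By `cover` applied to `(x-x0)/v` there is
`q_x` with `‖(x-x0)/v - lat q_x‖ ≤ 1/√3`; `‖lat q_x‖ ≤ 2|g|/√3 + 1/√3 ≤ 3|g|`, so
`nrm q_x ≤ 9 nrm g` and `Perf x0` gives `c ∈ X`, `‖c - x0 - v lat q_x‖ ≤ ε` and `h_x` with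
`‖u c - v om^{h_x}‖ ≤ ε/|g|`.  `‖c - x‖ ≤ ε + 1/√3 < 0.97`, so `c = x` by `Sep`.  Hence
(i) `‖x - x0 - v lat q_x‖ ≤ ε`, (ii) `‖u x - v om^{h_x}‖ ≤ ε/|g|`.
Step 2.  `x ↦ q_x` is injective on `T` (`‖x-x'‖ ≤ 2ε < 0.97`).
Step 3.  If `x ≠ x'` in `T`, `q_{x'} - q_x ≠ mulE g m` for every `m`.  Suppose equality.  `m ≠ 0` by
Step 2.  `|g|·|lat m| = |lat q_{x'} - lat q_x| ≤ ‖x'-x‖ + 2ε < 2|g|/√3 + 2ε`, so
`|lat m|² < (1.1548 + 0.0116)² < 3`, so `nrm m = 1` (`nrm_ne_two`) and `lat m = om^k`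
(`unit_of_nrm_one`).  Claim: there is `j` with `‖x' - x - u x (lat g om^j)‖ ≤ ε`: take
`j = k + 5 h_x`; `‖u x lat g om^{j} - v lat g om^k‖ = |g| ‖u x - v om^{h_x}‖ ≤ ε`, so
`‖x' - x - u x lat g om^j‖ ≤ 3ε`; `lat g * om^j` is a lattice point `lat q` with
`nrm q = nrm g ≤ 9 nrm g` (`lat_rot_iter`), so `Perf x` gives `c ∈ X` with
`‖c - x - u x lat g om^j‖ ≤ ε`, `‖c - x'‖ ≤ 4ε < 0.97`, `c = x'`.  By definition of
`z ∈ gcell x`: `‖z-x‖ < ‖z-x'‖`.  Exchanging the roles of `x` and `x'` (with `-m`):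
`‖z-x'‖ < ‖z-x‖`.  Contradiction.
Step 4.  Apply `index_bound` to the image of `x ↦ q_x`.
-/

open MeasureTheory Set
open scoped ENNReal

namespace Pool.Agent.Hex

private theorem sep_eq {X : Set ℂ} (hX : Sep X) {x y : ℂ} (hx : x ∈ X) (hy : y ∈ X)
    (h : ‖y - x‖ < 97 / 100) : y = x := by
  by_contra hne
  have := hX x hx y hy (fun h' => hne h'.symm)
  linarith

/-- one comparison -/
private theorem comp {X : Set ℂ} (hX : Sep X) {u : ℂ → ℂ}
    {g : ℤ × ℤ} (hg : 3 ≤ nrm g) (z : ℂ) (x x' x0 v : ℂ) (p p' : ℤ × ℤ) (h : ℕ)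
    (hx : x ∈ X) (hperf : Perf X u g x') (hz : z ∈ gcell X u g x')
    (h1 : ‖x - x0 - v * lat p‖ ≤ 1 / 100) (h2 : ‖x' - x0 - v * lat p'‖ ≤ 1 / 100)
    (h3 : ‖u x' - v * om ^ h‖ ≤ 1 / 100 / ‖lat g‖) (k : ℕ)
    (h4 : lat p - lat p' = lat g * om ^ k) : ‖z - x'‖ < ‖z - x‖ := by
  have hG := norm_lat_ge_sqrt3 hg
  have hs3 := sqrt3_gt
  have hG0 : 0 < ‖lat g‖ := by linarith
  have hom : om ^ h * om ^ (k + 5 * h) = om ^ k := by
    rw [← pow_add, show h + (k + 5 * h) = k + 6 * h by ring, pow_add, pow_mul, om_six, one_pow,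
      mul_one]
  have h5 : ‖(u x' - v * om ^ h) * (lat g * om ^ (k + 5 * h))‖ ≤ 1 / 100 := by
    rw [norm_mul, norm_mul, norm_om_pow, mul_one]
    calc ‖u x' - v * om ^ h‖ * ‖lat g‖ ≤ 1 / 100 / ‖lat g‖ * ‖lat g‖ :=
          mul_le_mul_of_nonneg_right h3 hG0.le
      _ = 1 / 100 := by field_simp
  have h6 : ‖x - x' - u x' * (lat g * om ^ (k + 5 * h))‖ ≤ 3 / 100 := by
    have e : x - x' - u x' * (lat g * om ^ (k + 5 * h)) =
        (x - x0 - v * lat p) - (x' - x0 - v * lat p') -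
          (u x' - v * om ^ h) * (lat g * om ^ (k + 5 * h)) := by
      have e1 : v * om ^ h * (lat g * om ^ (k + 5 * h)) = v * (lat g * om ^ k) := by
        rw [← hom]
        ring
      rw [sub_mul, e1, ← h4]
      ring
    rw [e]
    calc ‖(x - x0 - v * lat p) - (x' - x0 - v * lat p') -
          (u x' - v * om ^ h) * (lat g * om ^ (k + 5 * h))‖
        ≤ ‖(x - x0 - v * lat p) - (x' - x0 - v * lat p')‖ +
          ‖(u x' - v * om ^ h) * (lat g * om ^ (k + 5 * h))‖ := norm_sub_le _ _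
      _ ≤ (‖x - x0 - v * lat p‖ + ‖x' - x0 - v * lat p'‖) +
          ‖(u x' - v * om ^ h) * (lat g * om ^ (k + 5 * h))‖ := by
          gcongr
          exact norm_sub_le _ _
      _ ≤ 3 / 100 := by linarith
  obtain ⟨c, hc, hc1, -⟩ := hperf (rot^[k + 5 * h] g) (by
    rw [nrm_rot_iter]
    have := nrm_nonneg g
    linarith)
  rw [lat_rot_iter] at hc1
  have hcx : c = x := by
    apply sep_eq hX hx hc
    have e : c - x = (c - x' - u x' * (lat g * om ^ (k + 5 * h))) -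
        (x - x' - u x' * (lat g * om ^ (k + 5 * h))) := by ring
    rw [e]
    calc _ ≤ ‖c - x' - u x' * (lat g * om ^ (k + 5 * h))‖ +
        ‖x - x' - u x' * (lat g * om ^ (k + 5 * h))‖ := norm_sub_le _ _
      _ < 97 / 100 := by linarith
  rw [hcx] at hc1
  exact hz.2 (k + 5 * h) x hx hc1

theorem mult_bound {X : Set ℂ} (hX : Sep X) {u : ℂ → ℂ} (hu : ∀ z, ‖u z‖ = 1) {g : ℤ × ℤ}
    (hg : 3 ≤ nrm g) (z : ℂ) (T : Finset ℂ)
    (hT : ∀ x ∈ T, x ∈ X ∧ Perf X u g x ∧ z ∈ gcell X u g x) : (T.card : ℤ) ≤ nrm g := by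
  have hG := norm_lat_ge_sqrt3 hg
  have hs3 := sqrt3_gt
  have hs3' := sqrt3_lt
  have hG0 : 0 < ‖lat g‖ := by linarith
  have hg0 : g ≠ 0 := by
    intro h
    rw [h] at hg
    simp [nrm] at hg
  have hinv : 1 / Real.sqrt 3 < 0.58 := by
    rw [div_lt_iff₀ sqrt3_pos]
    nlinarith
  rcases T.eq_empty_or_nonempty with hTe | ⟨x0, hx0⟩
  · rw [hTe]
    simpa using nrm_nonneg g
  obtain ⟨hx0X, hx0P, hx0z⟩ := hT x0 hx0
  set v := u x0 with hv
  have hv1 : ‖v‖ = 1 := hu x0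
  have hv0 : v ≠ 0 := by
    intro h
    rw [h, norm_zero] at hv1
    exact zero_ne_one hv1
  -- Step 1
  have step1 : ∀ x ∈ T, ∃ q : ℤ × ℤ, ∃ h : ℕ, ‖x - x0 - v * lat q‖ ≤ 1 / 100 ∧
      ‖u x - v * om ^ h‖ ≤ 1 / 100 / ‖lat g‖ := by
    intro x hx
    obtain ⟨hxX, hxP, hxz⟩ := hT x hx
    have h1 : ‖x - x0‖ < 2 * (‖lat g‖ / Real.sqrt 3) := by
      have e : x - x0 = (z - x0) - (z - x) := by ring
      rw [e]
      calc _ ≤ ‖z - x0‖ + ‖z - x‖ := norm_sub_le _ _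
        _ < 2 * (‖lat g‖ / Real.sqrt 3) := by
          have a1 := hx0z.1
          have a2 := hxz.1
          linarith
    obtain ⟨q, hq⟩ := cover ((x - x0) / v)
    have h2 : ‖(x - x0) / v‖ = ‖x - x0‖ := by rw [norm_div, hv1, div_one]
    have h3 : ‖lat q‖ ≤ 3 * ‖lat g‖ := by
      have e : lat q = (x - x0) / v - ((x - x0) / v - lat q) := by ring
      rw [e]
      calc _ ≤ ‖(x - x0) / v‖ + ‖(x - x0) / v - lat q‖ := norm_sub_le _ _
        _ ≤ 2 * (‖lat g‖ / Real.sqrt 3) + 1 / Real.sqrt 3 := by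
          rw [h2]
          linarith
        _ ≤ 3 * ‖lat g‖ := by
          have e2 : 2 * (‖lat g‖ / Real.sqrt 3) = 2 * ‖lat g‖ * (1 / Real.sqrt 3) := by ring
          rw [e2]
          nlinarith
    have h4 : nrm q ≤ 9 * nrm g := by
      have a1 := norm_lat_sq q
      have a2 := norm_lat_sq g
      have a3 : ‖lat q‖ ^ 2 ≤ (3 * ‖lat g‖) ^ 2 := pow_le_pow_left₀ (norm_nonneg _) h3 2
      have a4 : (nrm q : ℝ) ≤ ((9 * nrm g : ℤ) : ℝ) := by
        push_cast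
        rw [← a1, ← a2]
        nlinarith
      exact_mod_cast a4
    obtain ⟨c, hc, hc1, h, hh⟩ := hx0P q h4
    change ‖c - x0 - v * lat q‖ ≤ 1 / 100 at hc1
    have h5 : ‖x - x0 - v * lat q‖ ≤ 1 / Real.sqrt 3 := by
      have e : x - x0 - v * lat q = v * ((x - x0) / v - lat q) := by
        field_simp
      rw [e, norm_mul, hv1, one_mul]
      exact hq
    have hcx : c = x := by
      apply sep_eq hX hxX hc
      have e : c - x = (c - x0 - v * lat q) - (x - x0 - v * lat q) := by ring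
      rw [e]
      calc _ ≤ ‖c - x0 - v * lat q‖ + ‖x - x0 - v * lat q‖ := norm_sub_le _ _
        _ < 97 / 100 := by linarith
    rw [hcx] at hc1 hh
    exact ⟨q, h, hc1, hh⟩
  choose! q h hq hh using step1
  -- Step 2
  have hinj : Set.InjOn q T := by
    intro x hx x' hx' he
    apply sep_eq hX (hT x' hx').1 (hT x hx).1
    have a1 := hq x hx
    have a2 := hq x' hx'
    rw [← he] at a2
    have e : x - x' = (x - x0 - v * lat (q x)) - (x' - x0 - v * lat (q x)) := by ring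
    rw [e]
    calc _ ≤ ‖x - x0 - v * lat (q x)‖ + ‖x' - x0 - v * lat (q x)‖ := norm_sub_le _ _
      _ < 97 / 100 := by linarith
  have hcard : (T.image q).card = T.card := Finset.card_image_of_injOn hinj
  rw [← hcard]
  apply index_bound hg0
  intro p hp p' hp' hne m hm
  obtain ⟨x, hx, rfl⟩ := Finset.mem_image.1 hp
  obtain ⟨x', hx', rfl⟩ := Finset.mem_image.1 hp'
  have hxx : x ≠ x' := fun h' => hne (by rw [h'])
  have hm0 : m ≠ 0 := by
    intro h'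
    rw [h'] at hm
    have : mulE g 0 = 0 := by simp [mulE]
    rw [this, sub_eq_zero] at hm
    exact hne hm
  have hl : lat (q x) - lat (q x') = lat g * lat m := by
    rw [← lat_sub, hm, lat_mulE]
  have a1 := hq x hx
  have a2 := hq x' hx'
  have hd : ‖x - x'‖ < 2 * (‖lat g‖ / Real.sqrt 3) := by
    have e : x - x' = (z - x') - (z - x) := by ring
    rw [e]
    calc _ ≤ ‖z - x'‖ + ‖z - x‖ := norm_sub_le _ _
      _ < 2 * (‖lat g‖ / Real.sqrt 3) := by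
        have b1 := (hT x hx).2.2.1
        have b2 := (hT x' hx').2.2.1
        linarith
  have hgm : ‖lat g‖ * ‖lat m‖ < 2 * (‖lat g‖ / Real.sqrt 3) + 2 / 100 := by
    have e : v * (lat g * lat m) = (x - x') - (x - x0 - v * lat (q x)) +
        (x' - x0 - v * lat (q x')) := by
      rw [← hl]
      ring
    have e2 : ‖lat g‖ * ‖lat m‖ = ‖v * (lat g * lat m)‖ := by
      rw [norm_mul, norm_mul, hv1, one_mul]
    rw [e2, e]
    calc _ ≤ ‖(x - x') - (x - x0 - v * lat (q x))‖ + ‖x' - x0 - v * lat (q x')‖ := norm_add_le _ _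
      _ ≤ ‖x - x'‖ + ‖x - x0 - v * lat (q x)‖ + ‖x' - x0 - v * lat (q x')‖ := by
        gcongr
        exact norm_sub_le _ _
      _ < 2 * (‖lat g‖ / Real.sqrt 3) + 2 / 100 := by linarith
  have hm1 : ‖lat m‖ < 1.2 := by
    by_contra hcon
    push Not at hcon
    have e2 : 2 * (‖lat g‖ / Real.sqrt 3) = 2 * ‖lat g‖ * (1 / Real.sqrt 3) := by ring
    rw [e2] at hgm
    nlinarith
  have hn1 : nrm m = 1 := by
    have b1 := norm_lat_sq m
    have b2 : (nrm m : ℝ) < 3 := by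
      rw [← b1]
      nlinarith [norm_nonneg (lat m)]
    have b3 : nrm m < 3 := by exact_mod_cast b2
    have b4 := nrm_ne_two m
    have b5 := nrm_nonneg m
    have b6 : nrm m ≠ 0 := fun h' => hm0 (nrm_eq_zero.1 h')
    omega
  obtain ⟨k, -, hk⟩ := unit_of_nrm_one hn1
  rw [hk] at hl
  have c1 := comp hX hg z x x' x0 v (q x) (q x') (h x') (hT x hx).1 (hT x' hx').2.1
    (hT x' hx').2.2 a1 a2 (hh x' hx') k hl
  have hl' : lat (q x') - lat (q x) = lat g * om ^ (k + 3) := by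
    rw [pow_add, om_cube]
    linear_combination -hl
  have c2 := comp hX hg z x' x x0 v (q x') (q x) (h x) (hT x' hx').1 (hT x hx).2.1
    (hT x hx).2.2 a2 a1 (hh x hx) (k + 3) hl'
  exact lt_asymm c1 c2

end Pool.Agent.Hex
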