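import Pool.Agent.Hex.Psi
import Pool.Agent.Hex.Pack
import Pool.Agent.Hex.Area
import Pool.Agent.Hex.MeasMult

/-!
Module `NN` (nearest-neighbour energy plus area).  Uses `area_cell`, `meas_mult`,
`measurableSet_cell`, `F0_eq`, `mem_nbF`.

PROOF.  Let `X = C.X`, and `K x = cell 1 x (nbF X x) id`
(`= {z | ‖z-x‖ < 1/√3 ∧ ∀ y ∈ nbF X x, ‖z-x‖ < ‖z-y‖}`) for `x ∈ X`; to have a definition for all
`x : ℂ` with the periodicity `z ∈ K (x+γ) ↔ z - γ ∈ K x` note that `X + γ = X` for `γ ∈ Γ`, so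
`y ∈ nbF X (x+γ) ↔ y - γ ∈ nbF X x` (`mem_nbF`).
* Multiplicity `M = 1`: if `z ∈ K x ∩ K x'` with `x ≠ x'` in `X`, then
  `‖x-x'‖ < 2/√3 = aa`, so `x' ∈ nbF X x`, `x ∈ nbF X x'`, whence `‖z-x‖ < ‖z-x'‖ < ‖z-x‖`.
  (`per Γ S = C.X`; a finite set `T` of such points has card `≤ 1`.)
  So `meas_mult` with `I = C.S` gives `Σ_{x∈S} |K x| ≤ A`.
* `area_cell` with `κ = 1`: `π/3 - Σ_{y ∈ nbF X x} qf(‖y-x‖)/(2√3) ≤ |K x|`.
Multiply by `P s = 2√3 s ≥ 0` and sum: `Σ_x (P s·π/3 - Σ_y s·qf(‖y-x‖)) ≤ P s·A`.  Now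
`Σ_y ‖y-x‖^{-s} = Σ_y ψ(‖y-x‖) + Σ_y s·qf(‖y-x‖) = dfc x + 6ψ(1) + Σ_y s·qf(..)` and
`P s·π/3 + 6ψ(1) = F0 s`.
-/

open MeasureTheory Set
open scoped ENNReal

namespace Pool.Agent.Hex

lemma NN_X_add (C : Cfg) {z γ : ℂ} (hγ : γ ∈ C.Γ) (hz : z ∈ C.X) : z + γ ∈ C.X := by
  obtain ⟨x, hx, γ', hγ', rfl⟩ := hz
  exact ⟨x, hx, γ' + γ, C.Γ.add_mem hγ' hγ, by ring⟩

lemma NN_per1 (C : Cfg) (hX : Sep C.X) (x γ : ℂ) (hγ : γ ∈ C.Γ) (z : ℂ)
    (h : z - γ ∈ cell 1 x (nbF C.X x) id) : z ∈ cell 1 (x + γ) (nbF C.X (x + γ)) id := by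
  refine ⟨?_, fun y hy => ?_⟩
  · have := h.1
    rwa [show z - γ - x = z - (x + γ) by ring] at this
  · rw [mem_nbF hX] at hy
    have h1 : y - γ ∈ nbF C.X x := by
      rw [mem_nbF hX]
      refine ⟨?_, fun h' => hy.2.1 (by rw [← h']; ring), ?_⟩
      · have := NN_X_add C (C.Γ.neg_mem hγ) hy.1
        rwa [← sub_eq_add_neg] at this
      · have := hy.2.2
        rwa [show y - (x + γ) = y - γ - x by ring] at this
    have h2 := h.2 _ h1
    simp only [id] at h2 ⊢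
    rwa [show z - γ - x = z - (x + γ) by ring, show z - γ - (y - γ) = z - y by ring] at h2

theorem nn_sum (C : Cfg) (hX : Sep C.X) {s : ℝ} (hs : 200 ≤ s) :
    F0 s * C.S.card + ∑ x ∈ C.S, dfc s C.X x ≤
      ∑ x ∈ C.S, ∑ y ∈ nbF C.X x, ‖y - x‖ ^ (-s) + P s * C.A := by
  have h3 := sqrt3_pos
  have hP : 0 ≤ P s := by unfold P; positivity
  have hmeas := meas_mult C C.S (Finset.Subset.refl _) (fun x => cell 1 x (nbF C.X x) id)
    (fun x _ => measurableSet_cell _ _ _ _) (by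
      intro x γ hγ z
      constructor
      · intro h
        have h1 := NN_per1 C hX (x + γ) (-γ) (C.Γ.neg_mem hγ) (z - γ) (by simpa using h)
        simpa using h1
      · exact NN_per1 C hX x γ hγ z) 1 (by
      intro z T hT
      rw [Finset.card_le_one]
      intro a ha b hb
      by_contra hab
      obtain ⟨ha1, ha2⟩ := hT a ha
      obtain ⟨hb1, hb2⟩ := hT b hb
      have hd : ‖a - b‖ < aa := by
        have h1 : ‖a - b‖ ≤ ‖z - a‖ + ‖z - b‖ := by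
          have : a - b = (z - b) - (z - a) := by ring
          rw [this]
          exact (norm_sub_le _ _).trans (by linarith)
        have h2 := ha2.1
        have h4 := hb2.1
        have h5 : aa = 1 / Real.sqrt 3 + 1 / Real.sqrt 3 := by unfold aa; ring
        rw [h5]
        linarith
      have h1 : b ∈ nbF C.X a := by
        rw [mem_nbF hX]
        refine ⟨hb1, fun h => hab h.symm, ?_⟩
        rwa [norm_sub_rev]
      have h2 : a ∈ nbF C.X b := by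
        rw [mem_nbF hX]
        exact ⟨ha1, hab, hd⟩
      have h4 := ha2.2 _ h1
      have h5 := hb2.2 _ h2
      simp only [id] at h4 h5
      linarith)
  have harea : ∀ x ∈ C.S, Real.pi / 3 - ∑ y ∈ nbF C.X x, qf ‖y - x‖ / (2 * Real.sqrt 3) ≤
      (volume (cell 1 x (nbF C.X x) id)).toReal := by
    intro x _
    have := area_cell 1 one_pos x (nbF C.X x) id (fun y hy => ((mem_nbF hX).1 hy).2.1)
    simpa using this
  have hsum : ∑ x ∈ C.S, P s * (Real.pi / 3 - ∑ y ∈ nbF C.X x, qf ‖y - x‖ / (2 * Real.sqrt 3))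
      ≤ P s * C.A := by
    rw [← Finset.mul_sum]
    refine mul_le_mul_of_nonneg_left ?_ hP
    calc _ ≤ ∑ x ∈ C.S, (volume (cell 1 x (nbF C.X x) id)).toReal := Finset.sum_le_sum harea
      _ ≤ _ := by simpa using hmeas
  have hterm : ∀ x ∈ C.S, F0 s + dfc s C.X x = ∑ y ∈ nbF C.X x, ‖y - x‖ ^ (-s) +
      P s * (Real.pi / 3 - ∑ y ∈ nbF C.X x, qf ‖y - x‖ / (2 * Real.sqrt 3)) := by
    intro x _
    have e1 : P s * ∑ y ∈ nbF C.X x, qf ‖y - x‖ / (2 * Real.sqrt 3) =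
        ∑ y ∈ nbF C.X x, s * qf ‖y - x‖ := by
      rw [Finset.mul_sum]
      refine Finset.sum_congr rfl fun y _ => ?_
      unfold P
      field_simp
    rw [mul_sub, e1, ← F0_eq]
    unfold dfc
    simp only [psi, Finset.sum_sub_distrib]
    ring
  calc F0 s * C.S.card + ∑ x ∈ C.S, dfc s C.X x = ∑ x ∈ C.S, (F0 s + dfc s C.X x) := by
        rw [Finset.sum_add_distrib, Finset.sum_const, nsmul_eq_mul]; ring
    _ = ∑ x ∈ C.S, (∑ y ∈ nbF C.X x, ‖y - x‖ ^ (-s) +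
      P s * (Real.pi / 3 - ∑ y ∈ nbF C.X x, qf ‖y - x‖ / (2 * Real.sqrt 3))) :=
        Finset.sum_congr rfl hterm
    _ ≤ _ := by
        rw [Finset.sum_add_distrib]
        linarith

end Pool.Agent.Hex
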