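import Pool.Agent.Hex.Basic

/-!
Module `QfOne` (exact value of `qf 1`).
-/

open MeasureTheory Set
open scoped ENNReal

namespace Pool.Agent.Hex

private noncomputable def FF (t : ℝ) : ℝ :=
  t / 2 * Real.sqrt (4 - 3 * t ^ 2) + 2 / Real.sqrt 3 * Real.arcsin (Real.sqrt 3 * t / 2)

private lemma FF_cont : Continuous FF := by
  unfold FF
  have : Continuous Real.arcsin := Real.continuous_arcsin
  fun_prop

private lemma FF_deriv {t : ℝ} (h0 : 1 < t) (h1 : t < aa) :
    HasDerivAt FF (Real.sqrt (4 - 3 * t ^ 2)) t := by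
  have h3 := sqrt3_sq
  have h3p := sqrt3_pos
  have haa := aa_sq
  have hap := aa_pos
  have hpos : 0 < 4 - 3 * t ^ 2 := by nlinarith
  have hs := Real.sqrt_pos.2 hpos
  have hsq := Real.sq_sqrt hpos.le
  have e1 : HasDerivAt (fun t : ℝ => 4 - 3 * t ^ 2) (-(6 * t)) t := by
    have := ((hasDerivAt_pow 2 t).const_mul 3).const_sub 4
    refine this.congr_deriv ?_
    push_cast
    ring
  have e2 := e1.sqrt hpos.ne'
  have e3 := ((hasDerivAt_id t).div_const 2).mul e2
  have e4 : HasDerivAt (fun t : ℝ => Real.sqrt 3 * t / 2) (Real.sqrt 3 / 2) t := by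
    have := ((hasDerivAt_id t).const_mul (Real.sqrt 3)).div_const 2
    simpa using this
  have hlt : Real.sqrt 3 * t / 2 < 1 := by
    have : (Real.sqrt 3 * t / 2) ^ 2 < 1 := by
      have : (Real.sqrt 3 * t / 2) ^ 2 = 3 * t ^ 2 / 4 := by
        rw [div_pow, mul_pow, h3]; norm_num
      rw [this]; linarith
    nlinarith [show 0 ≤ Real.sqrt 3 * t / 2 by positivity]
  have hgt : -1 < Real.sqrt 3 * t / 2 := by
    have : 0 ≤ Real.sqrt 3 * t / 2 := by positivity
    linarith
  have e5 := (Real.hasDerivAt_arcsin hgt.ne' hlt.ne).comp t e4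
  have e6 := e3.add (e5.const_mul (2 / Real.sqrt 3))
  have hden : Real.sqrt (1 - (Real.sqrt 3 * t / 2) ^ 2) = Real.sqrt (4 - 3 * t ^ 2) / 2 := by
    have : 1 - (Real.sqrt 3 * t / 2) ^ 2 = (4 - 3 * t ^ 2) / 2 ^ 2 := by
      rw [div_pow, mul_pow, h3]; ring
    rw [this, Real.sqrt_div hpos.le, Real.sqrt_sq (by norm_num)]
  have e7 : HasDerivAt FF _ t := e6
  refine e7.congr_deriv ?_
  rw [hden]
  simp only [id]
  field_simp
  nlinarith

theorem qf_one : qf 1 = Real.pi / (3 * Real.sqrt 3) - 1 / 2 := by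
  have h3 := sqrt3_sq
  have h3p := sqrt3_pos
  have hag := aa_gt
  have haa := aa_sq
  unfold qf
  have h := intervalIntegral.integral_eq_sub_of_hasDerivAt_of_le (a := 1) (b := aa) (f := FF)
    (f' := fun t => Real.sqrt (4 - 3 * t ^ 2)) (by linarith) FF_cont.continuousOn
    (fun t ht => FF_deriv ht.1 ht.2)
    ((by fun_prop : Continuous fun t : ℝ => Real.sqrt (4 - 3 * t ^ 2)).intervalIntegrable _ _)
  rw [h]
  have h1 : FF aa = 2 / Real.sqrt 3 * (Real.pi / 2) := by
    unfold FF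
    have : 4 - 3 * aa ^ 2 = 0 := by rw [haa]; norm_num
    rw [this, Real.sqrt_zero, mul_zero, zero_add]
    have : Real.sqrt 3 * aa / 2 = 1 := by
      unfold aa; field_simp
    rw [this, Real.arcsin_one]
  have h2 : FF 1 = 1 / 2 + 2 / Real.sqrt 3 * (Real.pi / 3) := by
    unfold FF
    have : (4 - 3 * (1:ℝ) ^ 2) = 1 := by norm_num
    rw [this, Real.sqrt_one, mul_one]
    have : Real.arcsin (Real.sqrt 3 * 1 / 2) = Real.pi / 3 := by
      rw [mul_one, ← Real.sin_pi_div_three, Real.arcsin_sin] <;> linarith [Real.pi_pos]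
    rw [this]
  rw [h1, h2]
  field_simp
  ring

end Pool.Agent.Hex
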