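import Pool.Agent.Hex.Qf
import Pool.Agent.Hex.QfOne

/-!
Module `Psi` (the function `ψ(r) = r^{-s} - s·qf r`, `s ≥ 200`).  Uses the statements of `Qf`, `QfOne`.

PROOFS.
* `F0_eq`: `P s·π/3 + 6 ψ(1) = 2√3 s π/3 + 6 - 6 s (π/(3√3) - 1/2) = 6 + 3s` (`1^{-s} = 1`,
  `qf_one`, `2√3/3 = 2/√3`).
* `psi_one_le`: `ψ(1) = 1 - s (π/(3√3) - 1/2)`, `π/(3√3) ≥ 3.14159/(3·1.7320509) ≥ 0.604598`, so
  `ψ(1) ≤ 1 - 0.104598 s ≤ 0` etc.
* `psi_ge_sq`, case `0 < r < 1`, `h = 1 - r ∈ (0,1)`: `r^{-s} = exp(-s log r)`,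
  `-log(1-h) ≥ h + h²/2`, and `exp y ≥ 1 + y + y²/2` (`y ≥ 0`), so
  `r^{-s} ≥ 1 + s h + s h²/2 + s² h²/2`.  With `qf_lt_one`:
  `ψ(r) - ψ(1) ≥ s h + s h²/2 + s² h²/2 - s (h + 3h²/2) = h² s (s-2)/2 ≥ h²`.
  case `1 ≤ r < aa`, `h = r - 1 ∈ [0, 0.1548)`, `x = s h`: `r^{-s} = exp(-s log(1+h)) ≥ exp(-x)`,
  and `qf_gt_one`: `ψ(r) - ψ(1) ≥ e^{-x} - 1 + x - 3.2321 x h`.  Have to show this is `≥ h²`.
   - `x ≤ 2`: `e^{-x} ≥ 1 - x + x²/2 - x³/6` (`x ≥ 0`), so it suffices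
     `x²/2 - x³/6 - 3.2321 x²/s - x²/s² ≥ 0`, true as `1/2 - 2/6 ≥ 3.2321/200 + 1/200²`.
   - `2 ≤ x ≤ 4`: `h ≤ 4/200 = 0.02`: `e^{-x} - 1 + x(1-3.2321h) - h² ≥ -1 + 2·0.935 - 0.0004 > 0`.
   - `x ≥ 4`: `1 - 3.2321 h ≥ 0.499` (h ≤ 0.1548): `≥ -1 + 4·0.499 - 0.03 > 0`.
* `psi_ge_one`: for `r < aa` from `psi_ge_sq`; for `r ≥ aa`, `ψ(r) = r^{-s} ≥ 0 ≥ ψ(1)`.
* `psi_far`: `r^{-s} ≥ 0` and `qf r ≤ qf 1.07 ≤ 0.0456` (`qf_antitone`).
-/

open MeasureTheory Set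
open scoped ENNReal

namespace Pool.Agent.Hex

theorem F0_eq (s : ℝ) : P s * (Real.pi / 3) + 6 * psi s 1 = F0 s := by
  unfold P psi F0
  rw [qf_one, Real.one_rpow]
  have h3 := sqrt3_sq
  have hp := sqrt3_pos
  have e : Real.pi / (3 * Real.sqrt 3) = Real.sqrt 3 * Real.pi / 9 := by
    rw [div_eq_div_iff (by positivity) (by norm_num)]
    linear_combination (-3 * Real.pi) * h3
  rw [e]
  ring

theorem Psi_pi : 0.604598 ≤ Real.pi / (3 * Real.sqrt 3) := by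
  have h1 := Real.pi_gt_d6
  have h2 := sqrt3_lt
  have h3 := sqrt3_pos
  rw [le_div_iff₀ (by positivity)]
  nlinarith

theorem psi_one_le (s : ℝ) (hs : 200 ≤ s) : psi s 1 ≤ 1 - 0.104598 * s := by
  unfold psi
  rw [qf_one, Real.one_rpow]
  have h := Psi_pi
  nlinarith

/-- `exp y ≥ 1 + y + y²/2` for `y ≥ 0` -/
theorem Psi_exp {y : ℝ} (hy : 0 ≤ y) : 1 + y + y ^ 2 / 2 ≤ Real.exp y :=
  Real.quadratic_le_exp_of_nonneg hy

theorem Psi_lt {s r : ℝ} (hs : 200 ≤ s) (h0 : 0 < r) (h1 : r < 1) :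
    psi s 1 + (r - 1) ^ 2 ≤ psi s r := by
  unfold psi
  rw [Real.one_rpow]
  have hq := qf_lt_one h1.le
  have hl : Real.log r ≤ (r - 1) - (r - 1) ^ 2 / 2 := by
    have h2 : |1 - r| < 1 := by rw [abs_lt]; constructor <;> linarith
    have h3 := Real.hasSum_pow_div_log_of_abs_lt_one h2
    have h4 : ∑ i ∈ Finset.range 2, (1 - r) ^ (i + 1) / ((i : ℝ) + 1) ≤
        -Real.log (1 - (1 - r)) := by
      refine sum_le_hasSum _ (fun i _ => ?_) h3
      have : 0 < 1 - r := by linarith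
      positivity
    rw [Finset.sum_range_succ, Finset.sum_range_one, sub_sub_cancel] at h4
    norm_num at h4
    nlinarith
  have he : 1 + s * (1 - r) + s * (1 - r) ^ 2 / 2 + s ^ 2 * (1 - r) ^ 2 / 2 ≤ r ^ (-s) := by
    rw [Real.rpow_def_of_pos h0]
    have hy : s * (1 - r) + s * (1 - r) ^ 2 / 2 ≤ Real.log r * -s := by nlinarith
    have hy0 : 0 ≤ s * (1 - r) + s * (1 - r) ^ 2 / 2 := by
      have : 0 < 1 - r := by linarith
      positivity
    have h3 := Psi_exp (hy0.trans hy)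
    have h4 : (s * (1 - r)) ^ 2 ≤ (Real.log r * -s) ^ 2 := by
      have h5 : s * (1 - r) ≤ Real.log r * -s := by
        have : 0 ≤ s * (1 - r) ^ 2 / 2 := by positivity
        linarith
      have h6 : 0 ≤ s * (1 - r) := by
        have : 0 < 1 - r := by linarith
        positivity
      exact pow_le_pow_left₀ h6 h5 2
    nlinarith
  have hs2 : (r - 1) ^ 2 ≤ s * (1 - r) + s * (1 - r) ^ 2 / 2 + s ^ 2 * (1 - r) ^ 2 / 2 -
      s * ((1 - r) + 3 / 2 * (1 - r) ^ 2) := by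
    have : 0 ≤ (1 - r) ^ 2 := sq_nonneg _
    have h7 : 0 ≤ (s * (s - 2) / 2 - 1) := by nlinarith
    nlinarith [mul_nonneg h7 this]
  have hs3 : s * qf r ≤ s * (qf 1 + (1 - r) + 3 / 2 * (1 - r) ^ 2) :=
    mul_le_mul_of_nonneg_left hq (by linarith)
  nlinarith

/-- `e^{-x} ≥ 1 - x + x²/2 - x³/6` for `x ≥ 0` -/
theorem Psi_exp_neg {x : ℝ} (hx : 0 ≤ x) : 1 - x + x ^ 2 / 2 - x ^ 3 / 6 ≤ Real.exp (-x) := by
  have key : ∀ y : ℝ, HasDerivAt (fun y => Real.exp (-y) - (1 - y + y ^ 2 / 2 - y ^ 3 / 6))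
      (-Real.exp (-y) + 1 - y + y ^ 2 / 2) y := by
    intro y
    have h1 : HasDerivAt (fun y : ℝ => Real.exp (-y)) (Real.exp (-y) * -1) y :=
      (hasDerivAt_neg y).exp
    have h2 : HasDerivAt (fun y : ℝ => 1 - y + y ^ 2 / 2 - y ^ 3 / 6)
        (0 - 1 + (2 : ℕ) * y ^ (2 - 1) / 2 - (3 : ℕ) * y ^ (3 - 1) / 6) y :=
      ((((hasDerivAt_const y (1 : ℝ)).sub (hasDerivAt_id y)).add
        ((hasDerivAt_pow 2 y).div_const 2)).sub ((hasDerivAt_pow 3 y).div_const 6))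
    refine (h1.sub h2).congr_deriv ?_
    norm_num
    ring
  have hmono : MonotoneOn (fun y : ℝ => Real.exp (-y) - (1 - y + y ^ 2 / 2 - y ^ 3 / 6))
      (Set.Ici 0) := by
    refine monotoneOn_of_deriv_nonneg (convex_Ici 0)
      (fun y _ => (key y).continuousAt.continuousWithinAt)
      (fun y _ => (key y).differentiableAt.differentiableWithinAt) ?_
    intro y hy
    rw [interior_Ici] at hy
    rw [(key y).deriv]
    have hy0 : 0 ≤ y := le_of_lt hy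
    have h1 := Psi_exp hy0
    have h2 : Real.exp (-y) * Real.exp y = 1 := by rw [← Real.exp_add]; simp
    have h3 := Real.exp_pos (-y)
    have h4 : Real.exp (-y) * (1 + y + y ^ 2 / 2) ≤ 1 := by
      calc Real.exp (-y) * (1 + y + y ^ 2 / 2) ≤ Real.exp (-y) * Real.exp y :=
            mul_le_mul_of_nonneg_left h1 h3.le
        _ = 1 := h2
    have h5 : 1 ≤ (1 - y + y ^ 2 / 2) * (1 + y + y ^ 2 / 2) := by
      have : 0 ≤ y ^ 4 := by positivity
      nlinarith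
    have h6 : 0 < 1 + y + y ^ 2 / 2 := by positivity
    have h7 : Real.exp (-y) ≤ 1 - y + y ^ 2 / 2 := by
      by_contra hcon
      push Not at hcon
      have := mul_lt_mul_of_pos_right hcon h6
      linarith
    linarith
  have h0 := hmono (Set.mem_Ici.2 le_rfl) (Set.mem_Ici.2 hx) hx
  simp only [neg_zero, Real.exp_zero] at h0
  norm_num at h0
  linarith

theorem Psi_ge {s r : ℝ} (hs : 200 ≤ s) (h0 : 1 ≤ r) (h1 : r < aa) :
    psi s 1 + (r - 1) ^ 2 ≤ psi s r := by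
  unfold psi
  rw [Real.one_rpow]
  have hq := qf_gt_one h0 h1.le
  have haa := aa_lt
  set h : ℝ := r - 1 with hh
  have hh0 : 0 ≤ h := by rw [hh]; linarith
  have hh1 : h ≤ 0.154701 := by rw [hh]; linarith
  have hrp : 0 < r := by linarith
  have he : Real.exp (-(s * h)) ≤ r ^ (-s) := by
    rw [Real.rpow_def_of_pos hrp]
    apply Real.exp_le_exp.2
    have h2 := Real.log_le_sub_one_of_pos hrp
    rw [← hh] at h2
    nlinarith
  have hs3 : s * qf r ≤ s * (qf 1 - h + 3.2321 * h ^ 2) :=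
    mul_le_mul_of_nonneg_left hq (by linarith)
  suffices hsuff : h ^ 2 ≤ Real.exp (-(s * h)) - 1 + s * h - 3.2321 * (s * h) * h by nlinarith
  set x : ℝ := s * h with hx
  have hx0 : 0 ≤ x := by rw [hx]; positivity
  have hxh : h ≤ x / 200 := by
    rw [hx, le_div_iff₀ (by norm_num)]
    nlinarith
  rcases le_total x 2 with h2 | h2
  · have h3 := Psi_exp_neg hx0
    have h4 : x * h ≤ x * (x / 200) := mul_le_mul_of_nonneg_left hxh hx0
    have h5 : h ^ 2 ≤ (x / 200) ^ 2 := pow_le_pow_left₀ hh0 hxh 2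
    have h6 : x ^ 3 ≤ 2 * x ^ 2 := by nlinarith [sq_nonneg x]
    nlinarith [sq_nonneg x]
  · have h3 := (Real.exp_pos (-x)).le
    rcases le_total x 4 with h4 | h4
    · have h5 : h ≤ 0.02 := by linarith
      nlinarith
    · have h6 : x * (1 - 3.2321 * h) ≥ 4 * 0.499 := by
        have : 0.499 ≤ 1 - 3.2321 * h := by linarith
        nlinarith
      nlinarith

theorem psi_ge_sq {s r : ℝ} (hs : 200 ≤ s) (h0 : 0 < r) (h1 : r < aa) :
    psi s 1 + (r - 1) ^ 2 ≤ psi s r := by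
  rcases lt_or_ge r 1 with h | h
  · exact Psi_lt hs h0 h
  · exact Psi_ge hs h h1

theorem psi_ge_one {s r : ℝ} (hs : 200 ≤ s) (h0 : 0 < r) : psi s 1 ≤ psi s r := by
  rcases lt_or_ge r aa with h | h
  · have := psi_ge_sq hs h0 h
    nlinarith [sq_nonneg (r - 1)]
  · have h1 := psi_one_le s hs
    have h2 : 0 ≤ psi s r := by
      unfold psi
      rw [qf_of_ge h, mul_zero, sub_zero]
      exact Real.rpow_nonneg h0.le _
    linarith

theorem psi_far {s r : ℝ} (hs : 0 ≤ s) (h : 1.07 ≤ r) : -(0.0456 * s) ≤ psi s r := by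
  unfold psi
  have h1 := qf_antitone h
  have h2 := qf_107
  have h3 : 0 ≤ r ^ (-s) := Real.rpow_nonneg (by linarith) _
  have h4 : s * qf r ≤ s * 0.0456 := mul_le_mul_of_nonneg_left (h1.trans h2) hs
  linarith

end Pool.Agent.Hex
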