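import Pool.Agent.Hex.Basic

/-!
Module `Qf` (the function `qf r = ∫_r^{2/√3} √(4-3t²) dt`).
-/

open MeasureTheory Set
open scoped ENNReal

namespace Pool.Agent.Hex

private lemma w_cont : Continuous fun t : ℝ => Real.sqrt (4 - 3 * t ^ 2) := by fun_prop

private lemma w_int (a b : ℝ) :
    IntervalIntegrable (fun t : ℝ => Real.sqrt (4 - 3 * t ^ 2)) volume a b :=
  w_cont.intervalIntegrable a b

private lemma qf_diff (r r' : ℝ) :
    qf r - qf r' = ∫ t in r..r', Real.sqrt (4 - 3 * t ^ 2) := by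
  unfold qf
  rw [← intervalIntegral.integral_add_adjacent_intervals (w_int r r') (w_int r' aa)]
  ring

theorem qf_antitone : Antitone qf := by
  intro r r' h
  have h1 := qf_diff r r'
  have h2 : 0 ≤ ∫ t in r..r', Real.sqrt (4 - 3 * t ^ 2) :=
    intervalIntegral.integral_nonneg h (fun t _ => Real.sqrt_nonneg _)
  linarith

theorem qf_of_ge {r : ℝ} (h : aa ≤ r) : qf r = 0 := by
  unfold qf
  rw [intervalIntegral.integral_symm]
  have : (∫ t in aa..r, Real.sqrt (4 - 3 * t ^ 2)) = ∫ t in aa..r, (0 : ℝ) := by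
    apply intervalIntegral.integral_congr
    intro t ht
    rw [Set.uIcc_of_le h] at ht
    have h1 := aa_sq
    have h2 := aa_pos
    have h3 : aa ^ 2 ≤ t ^ 2 := by
      have := ht.1
      nlinarith
    exact Real.sqrt_eq_zero_of_nonpos (by nlinarith)
  rw [this]
  simp

theorem qf_nonneg (r : ℝ) : 0 ≤ qf r := by
  have h1 : qf (max r aa) ≤ qf r := qf_antitone (le_max_left _ _)
  rw [qf_of_ge (le_max_right _ _)] at h1
  exact h1

theorem qf_lt_one {r : ℝ} (h1 : r ≤ 1) : qf r ≤ qf 1 + (1 - r) + 3 / 2 * (1 - r) ^ 2 := by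
  have h2 := qf_diff r 1
  have h3 : (∫ t in r..(1:ℝ), Real.sqrt (4 - 3 * t ^ 2)) ≤ ∫ t in r..(1:ℝ), (4 - 3 * t) := by
    apply intervalIntegral.integral_mono_on h1 (w_int _ _)
    · exact (by fun_prop : Continuous fun t : ℝ => 4 - 3 * t).intervalIntegrable _ _
    · intro t ht
      apply Real.sqrt_le_iff.2
      constructor
      · linarith [ht.2]
      · nlinarith [sq_nonneg (t - 1)]
  have h4 : (∫ t in r..(1:ℝ), (4 - 3 * t)) = 4 * (1 - r) - 3 * ((1 ^ 2 - r ^ 2) / 2) := by
    rw [intervalIntegral.integral_sub (by simp) (by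
      exact (by fun_prop : Continuous fun t : ℝ => 3 * t).intervalIntegrable _ _)]
    rw [intervalIntegral.integral_const_mul, integral_id]
    simp
    ring
  nlinarith

theorem qf_gt_one {r : ℝ} (h0 : 1 ≤ r) (h1 : r ≤ aa) :
    qf r ≤ qf 1 - (r - 1) + 3.2321 * (r - 1) ^ 2 := by
  have h2 := qf_diff 1 r
  have haa := aa_sq
  have hap := aa_gt
  have h3 : (∫ t in (1:ℝ)..r, (1 - 6.4642 * (t - 1))) ≤
      ∫ t in (1:ℝ)..r, Real.sqrt (4 - 3 * t ^ 2) := by
    apply intervalIntegral.integral_mono_on h0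
    · exact (by fun_prop : Continuous fun t : ℝ => 1 - 6.4642 * (t - 1)).intervalIntegrable _ _
    · exact w_int _ _
    · intro t ht
      have ht1 : 1 ≤ t := ht.1
      have ht2 : t ≤ aa := ht.2.trans h1
      have ha1 : 0 < aa - 1 := by linarith
      have e1 : 1 - 6.4642 * (t - 1) ≤ (aa - t) / (aa - 1) := by
        rw [le_div_iff₀ ha1]
        nlinarith [mul_nonneg (sub_nonneg.2 ht1) (show 0 ≤ 6.4642 * (aa - 1) - 1 by linarith)]
      refine e1.trans ?_
      apply Real.le_sqrt_of_sq_le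
      rw [div_pow, div_le_iff₀ (by positivity)]
      have e2 : 4 - 3 * t ^ 2 = 3 * ((aa - t) * (aa + t)) := by nlinarith
      have e3 : 3 * (aa + 1) * (aa - 1) ^ 2 = aa - 1 := by
        have : 3 * (aa + 1) * (aa - 1) ^ 2 = (3 * aa ^ 2 - 3) * (aa - 1) := by ring
        rw [this, haa]; ring
      have e4 : aa - t ≤ 3 * (aa + t) * (aa - 1) ^ 2 := by
        have : 0 ≤ 3 * (t - 1) * (aa - 1) ^ 2 := by
          have := sub_nonneg.2 ht1
          positivity
        nlinarith
      rw [e2]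
      nlinarith [mul_le_mul_of_nonneg_left e4 (sub_nonneg.2 ht2)]
  have h4 : (∫ t in (1:ℝ)..r, (1 - 6.4642 * (t - 1))) = (r - 1) - 3.2321 * (r - 1) ^ 2 := by
    rw [intervalIntegral.integral_sub (by simp) (by
      exact (by fun_prop : Continuous fun t : ℝ => 6.4642 * (t - 1)).intervalIntegrable _ _)]
    rw [intervalIntegral.integral_const_mul]
    rw [intervalIntegral.integral_sub (by simp) (by simp), integral_id]
    simp
    ring
  nlinarith

theorem qf_107 : qf 1.07 ≤ 0.0456 := by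
  have hap := aa_gt
  have hal := aa_lt
  have haa := aa_sq
  have hs : (0.551 : ℝ) ≤ Real.sqrt (4 - 3 * 1.11 ^ 2) := by
    apply Real.le_sqrt_of_sq_le; norm_num
  unfold qf
  have h3 : (∫ t in (1.07:ℝ)..aa, Real.sqrt (4 - 3 * t ^ 2)) ≤
      ∫ t in (1.07:ℝ)..aa, (1 / 0.551) * (4 - 3.33 * t) := by
    apply intervalIntegral.integral_mono_on (by linarith) (w_int _ _)
    · exact (by fun_prop : Continuous fun t : ℝ => (1 / 0.551) * (4 - 3.33 * t)).intervalIntegrable _ _
    · intro t ht
      have ht2 : t < 1.154701 := by linarith [ht.2]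
      have hpos : 0 < 4 - 3.33 * t := by nlinarith
      apply Real.sqrt_le_iff.2
      constructor
      · positivity
      · have h5 : (0.551 : ℝ) ^ 2 ≤ 4 - 3 * 1.11 ^ 2 := by norm_num
        have h6 : 0 ≤ 4 - 3 * t ^ 2 := by
          have : t ≤ aa := ht.2
          have : 0 ≤ t := by linarith [ht.1]
          nlinarith
        rw [mul_pow, one_div, inv_pow]
        rw [inv_mul_eq_div, le_div_iff₀ (by norm_num)]
        nlinarith [sq_nonneg (t - 1.11), mul_le_mul_of_nonneg_left h5 h6]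
  have h4 : (∫ t in (1.07:ℝ)..aa, (1 / 0.551) * (4 - 3.33 * t)) =
      (1 / 0.551) * (4 * (aa - 1.07) - 3.33 * ((aa ^ 2 - 1.07 ^ 2) / 2)) := by
    rw [intervalIntegral.integral_const_mul]
    rw [intervalIntegral.integral_sub (by simp) (by
      exact (by fun_prop : Continuous fun t : ℝ => 3.33 * t).intervalIntegrable _ _)]
    rw [intervalIntegral.integral_const_mul, integral_id, intervalIntegral.integral_const]
    simp only [smul_eq_mul]
    ring
  rw [h4, haa] at h3
  nlinarith

end Pool.Agent.Hex
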