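import Pool.Agent.Hex.ShellPt
import Pool.Agent.Hex.MeasMult
import Pool.Agent.Hex.PerInv
import Pool.Agent.Hex.Mult

/-!
Module `ShellSum` (sum of `shell_pt` over one period).  Uses `shell_pt`, `meas_mult`,
`mult_bound`, `perf_add`, `gcell_add`, `measurableSet_gcell`, `X_add`.

PROOF.  Let `κ = ‖lat g‖`, `I = {x ∈ S : Perf x}` (a `Finset.filter`), `#I + nonperf = #S`.
`meas_mult` with `K = gcell`, `M = (nrm g).toNat`: multiplicity from `mult_bound` (a point of
`per Γ I` is `x + γ` with `x ∈ I`, so it is in `X` and perfect by `perf_add`), periodicity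
`gcell_add`, measurability `measurableSet_gcell`: `Σ_{x ∈ I} |gcell x| ≤ nrm g·A`.  Sum `shell_pt`
over `x ∈ I`: `F0 s κ^{-s} #I ≤ Σ_{x ∈ I} shE + κ^{-s} P s (Σ_I |gcell|)/nrm g
≤ Σ_{x ∈ S} shE + κ^{-s} P s A` (`shE = 0` on `S \ I`).  Add `F0 s κ^{-s} nonperf` on both sides.
-/

open MeasureTheory Set
open scoped ENNReal

namespace Pool.Agent.Hex

theorem shell_sum (C : Cfg) (hX : Sep C.X) {s : ℝ} (hs : 200 ≤ s) {u : ℂ → ℂ}
    (hu : ∀ z, ‖u z‖ = 1) (hper : ∀ z, ∀ γ ∈ C.Γ, u (z + γ) = u z) {g : ℤ × ℤ}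
    (hg : 3 ≤ nrm g) :
    F0 s * C.S.card * ‖lat g‖ ^ (-s) ≤
      ∑ x ∈ C.S, shE s C.X u g x +
        ‖lat g‖ ^ (-s) * (P s * C.A + F0 s * nonperf C u g) := by
  classical
  set I : Finset ℂ := C.S.filter (fun x => Perf C.X u g x) with hI
  have hIS : I ⊆ C.S := Finset.filter_subset _ _
  have hIP : ∀ x ∈ I, Perf C.X u g x := fun x hx => (Finset.mem_filter.1 hx).2
  have hcard : (C.S.card : ℝ) = I.card + nonperf C u g := by
    have h1 := Finset.card_filter_add_card_filter_not (s := C.S) (fun x => Perf C.X u g x)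
    have h2 : nonperf C u g = (C.S.filter fun x => ¬ Perf C.X u g x).card := by
      unfold nonperf
      congr!
    rw [h2, ← h1]
    push_cast
    ring
  have hg0 : (0 : ℝ) < (nrm g : ℝ) := by
    have : (3 : ℝ) ≤ (nrm g : ℝ) := by exact_mod_cast hg
    linarith
  have hM : ∀ z, ∀ T : Finset ℂ, (∀ x ∈ T, x ∈ per C.Γ I ∧ z ∈ gcell C.X u g x) →
      T.card ≤ (nrm g).toNat := by
    intro z T hT
    have h1 : (T.card : ℤ) ≤ nrm g := by
      refine mult_bound hX hu hg z T (fun x hx => ?_)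
      obtain ⟨⟨y, hy, γ, hγ, rfl⟩, hz⟩ := hT x hx
      exact ⟨⟨y, hIS hy, γ, hγ, rfl⟩, (perf_add C hper g hγ).2 (hIP y hy), hz⟩
    omega
  have hmm := meas_mult C I hIS (gcell C.X u g)
    (fun x hx => measurableSet_gcell hX (hIP x hx))
    (fun x γ hγ z => gcell_add C hper g hγ z) (nrm g).toNat hM
  have hcast : (((nrm g).toNat : ℕ) : ℝ) = (nrm g : ℝ) := by
    have h1 : (((nrm g).toNat : ℕ) : ℤ) = nrm g := Int.toNat_of_nonneg (nrm_nonneg g)
    exact_mod_cast h1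
  rw [hcast] at hmm
  have hκ : 0 ≤ ‖lat g‖ ^ (-s) := by positivity
  have hP : 0 ≤ P s := by unfold P; positivity
  have hsum : ∑ _x ∈ I, F0 s * ‖lat g‖ ^ (-s) ≤
      ∑ x ∈ I, (shE s C.X u g x +
        ‖lat g‖ ^ (-s) * (P s * (volume (gcell C.X u g x)).toReal / nrm g)) :=
    Finset.sum_le_sum (fun x hx => shell_pt hX hs hu hg (hIP x hx))
  rw [Finset.sum_const, nsmul_eq_mul, Finset.sum_add_distrib] at hsum
  have h3 : ∑ x ∈ I, ‖lat g‖ ^ (-s) * (P s * (volume (gcell C.X u g x)).toReal / nrm g) ≤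
      ‖lat g‖ ^ (-s) * (P s * C.A) := by
    have h4 : ∑ x ∈ I, ‖lat g‖ ^ (-s) * (P s * (volume (gcell C.X u g x)).toReal / nrm g) =
        ‖lat g‖ ^ (-s) * (P s * ((∑ x ∈ I, (volume (gcell C.X u g x)).toReal) / nrm g)) := by
      rw [Finset.sum_div, Finset.mul_sum, Finset.mul_sum]
      apply Finset.sum_congr rfl
      intro x _
      ring
    rw [h4]
    apply mul_le_mul_of_nonneg_left _ hκ
    apply mul_le_mul_of_nonneg_left _ hP
    rw [div_le_iff₀ hg0]
    linarith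
  have h5 : ∑ x ∈ C.S, shE s C.X u g x = ∑ x ∈ I, shE s C.X u g x := by
    symm
    apply Finset.sum_subset hIS
    intro x hx hxI
    have h6 : ¬ Perf C.X u g x := fun h => hxI (Finset.mem_filter.2 ⟨hx, h⟩)
    unfold shE
    rw [if_neg h6]
  rw [h5, hcard]
  linarith [hsum, h3]

end Pool.Agent.Hex
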