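import Pool.Agent.Hex.SumLat

/-!
Module `SumFar` (crude numerical bounds for lattice sums).  Uses `summable_far`, `Z_split`.

PROOFS.
* `far_sum`: for finite `G`, `s ≥ 200` and `k ≤ 3`, `Σ_{g ∈ G} ‖g‖^{-s} (nrm g)^k` is tiny:
  `‖lat g‖^{-s} (nrm g)^k = (nrm g)^{k - s/2} ≤ 3^{-(s/2 - k - 3)} (nrm g)^{-3}`, and
  `Σ_{p ≠ 0} (nrm p)^{-3} ≤ Σ_{n≥1} 8n·((3/4) n²)^{-3} ≤ 8·(64/27)·Σ n^{-5} ≤ 30` (any crude
  constant is fine: `3^{-90}` is below `10^{-42}`).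
* `sumg`: `F0 s = 6+3s`; the left side is
  `≤ (6+3s)·324·10^10·3^{-(s/2-6)}·30 ≤ 6` for `s ≥ 200` (at `s = 200`:
  `606·3.24·10^12·3^{-94}·30 < 10^{-25}`, and `(6+3s) 3^{-s/2}` is decreasing; e.g.
  `6+3s ≤ 606·3^{(s-200)/2}`).
* `Z_le`: `Z s = 6 + Σ_{3 ≤ nrm p} ‖lat p‖^{-s} ≤ 6 + 0.006`.
-/

open MeasureTheory Set
open scoped ENNReal

namespace Pool.Agent.Hex

private lemma half_sum (N : ℕ) :
    ∑ n ∈ Finset.range N, 1 / (1 + (n : ℝ) ^ 2) ≤ 4 - 4 / ((N : ℝ) + 1) := by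
  induction N with
  | zero => simp
  | succ N ih =>
    rw [Finset.sum_range_succ]
    have h0 : (0 : ℝ) ≤ N := Nat.cast_nonneg N
    have h1 : 1 / (1 + (N : ℝ) ^ 2) ≤ 4 / ((N : ℝ) + 1) - 4 / ((N : ℝ) + 1 + 1) := by
      rw [div_sub_div _ _ (by positivity) (by positivity), div_le_div_iff₀ (by positivity)
        (by positivity)]
      nlinarith [sq_nonneg ((N : ℝ) - 1 / 2)]
    push_cast
    linarith

private lemma nat_sum (A : Finset ℕ) : ∑ n ∈ A, 1 / (1 + (n : ℝ) ^ 2) ≤ 4 := by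
  obtain ⟨N, hN⟩ := A.exists_nat_subset_range
  calc ∑ n ∈ A, 1 / (1 + (n : ℝ) ^ 2) ≤ ∑ n ∈ Finset.range N, 1 / (1 + (n : ℝ) ^ 2) :=
        Finset.sum_le_sum_of_subset_of_nonneg hN (fun _ _ _ => by positivity)
    _ ≤ 4 - 4 / ((N : ℝ) + 1) := half_sum N
    _ ≤ 4 := by
        have : (0 : ℝ) ≤ 4 / ((N : ℝ) + 1) := by positivity
        linarith

private lemma int_sum (A : Finset ℤ) : ∑ n ∈ A, 1 / (1 + (n : ℝ) ^ 2) ≤ 8 := by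
  have h1 : ∀ B : Finset ℤ, (Set.InjOn Int.natAbs (B : Set ℤ)) →
      ∑ n ∈ B, 1 / (1 + (n : ℝ) ^ 2) ≤ 4 := by
    intro B hB
    have h2 : ∑ n ∈ B, 1 / (1 + (n : ℝ) ^ 2) =
        ∑ m ∈ B.image Int.natAbs, 1 / (1 + (m : ℝ) ^ 2) := by
      rw [Finset.sum_image hB]
      apply Finset.sum_congr rfl
      intro n _
      have : ((n.natAbs : ℕ) : ℝ) ^ 2 = (n : ℝ) ^ 2 := by
        have h3 : ((n.natAbs : ℤ)) ^ 2 = n ^ 2 := Int.natAbs_sq n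
        have h4 : (((n.natAbs : ℤ)) ^ 2 : ℝ) = (n : ℝ) ^ 2 := by exact_mod_cast h3
        simp at h4 ⊢
      rw [this]
    rw [h2]
    exact nat_sum _
  rw [← Finset.sum_filter_add_sum_filter_not A (fun n => 0 ≤ n)]
  have ha := h1 (A.filter (fun n => 0 ≤ n)) (by
    intro x hx y hy hxy
    simp only [Finset.coe_filter, Set.mem_ofPred_eq] at hx hy
    omega)
  have hb := h1 (A.filter (fun n => ¬ 0 ≤ n)) (by
    intro x hx y hy hxy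
    simp only [Finset.coe_filter, Set.mem_ofPred_eq] at hx hy
    omega)
  linarith

private lemma pair_sum (G : Finset (ℤ × ℤ)) :
    ∑ g ∈ G, 1 / (1 + (g.1 : ℝ) ^ 2) * (1 / (1 + (g.2 : ℝ) ^ 2)) ≤ 64 := by
  have h1 : G ⊆ (G.image Prod.fst) ×ˢ (G.image Prod.snd) := by
    intro g hg
    rw [Finset.mem_product]
    exact ⟨Finset.mem_image_of_mem _ hg, Finset.mem_image_of_mem _ hg⟩
  calc _ ≤ ∑ g ∈ (G.image Prod.fst) ×ˢ (G.image Prod.snd),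
        1 / (1 + (g.1 : ℝ) ^ 2) * (1 / (1 + (g.2 : ℝ) ^ 2)) :=
        Finset.sum_le_sum_of_subset_of_nonneg h1 (fun _ _ _ => by positivity)
    _ = (∑ a ∈ G.image Prod.fst, 1 / (1 + (a : ℝ) ^ 2)) *
        (∑ b ∈ G.image Prod.snd, 1 / (1 + (b : ℝ) ^ 2)) := by
        rw [Finset.sum_product, Finset.sum_mul]
        apply Finset.sum_congr rfl
        intro a _
        rw [Finset.mul_sum]
    _ ≤ 8 * 8 := by
        apply mul_le_mul (int_sum _) (int_sum _)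
        · exact Finset.sum_nonneg (fun _ _ => by positivity)
        · norm_num
    _ = 64 := by norm_num

private lemma inv_sq_le {g : ℤ × ℤ} (hg : 3 ≤ nrm g) :
    1 / (nrm g : ℝ) ^ 2 ≤ 16 / 9 * (1 / (1 + (g.1 : ℝ) ^ 2) * (1 / (1 + (g.2 : ℝ) ^ 2))) := by
  have h1 : (3 : ℝ) ≤ (nrm g : ℝ) := by exact_mod_cast hg
  have h2 : (nrm g : ℝ) = (g.1 : ℝ) ^ 2 + g.1 * g.2 + (g.2 : ℝ) ^ 2 := by
    unfold nrm; push_cast; ring
  set n : ℝ := (nrm g : ℝ) with hn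
  set a : ℝ := (g.1 : ℝ)
  set b : ℝ := (g.2 : ℝ)
  have h3 : a ^ 2 + b ^ 2 ≤ 2 * n := by nlinarith [sq_nonneg (a + b)]
  have h4 : a ^ 2 * b ^ 2 ≤ n ^ 2 := by
    have : (a ^ 2 + b ^ 2) ^ 2 ≤ (2 * n) ^ 2 := by
      apply pow_le_pow_left₀ (by positivity) h3
    nlinarith [sq_nonneg (a ^ 2 - b ^ 2)]
  have h5 : (1 + a ^ 2) * (1 + b ^ 2) ≤ 16 / 9 * n ^ 2 := by nlinarith
  rw [show 16 / 9 * (1 / (1 + a ^ 2) * (1 / (1 + b ^ 2))) =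
    (16 / 9) / ((1 + a ^ 2) * (1 + b ^ 2)) by field_simp,
    div_le_div_iff₀ (by positivity) (by positivity)]
  linarith

private lemma sum_inv_sq (G : Finset {p : ℤ × ℤ // 3 ≤ nrm p}) :
    ∑ g ∈ G, 1 / (nrm g : ℝ) ^ 2 ≤ 114 := by
  calc ∑ g ∈ G, 1 / (nrm g : ℝ) ^ 2 ≤ ∑ g ∈ G, 16 / 9 *
        (1 / (1 + ((g : ℤ × ℤ).1 : ℝ) ^ 2) * (1 / (1 + ((g : ℤ × ℤ).2 : ℝ) ^ 2))) :=
        Finset.sum_le_sum (fun g _ => inv_sq_le g.2)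
    _ = 16 / 9 * ∑ g ∈ G.map (Function.Embedding.subtype _),
        (1 / (1 + (g.1 : ℝ) ^ 2) * (1 / (1 + (g.2 : ℝ) ^ 2))) := by
        rw [← Finset.mul_sum, Finset.sum_map]
        rfl
    _ ≤ 16 / 9 * 64 := by
        apply mul_le_mul_of_nonneg_left (pair_sum _) (by norm_num)
    _ ≤ 114 := by norm_num

private lemma term_le {s : ℝ} (hs : 200 ≤ s) {g : ℤ × ℤ} (hg : 3 ≤ nrm g) :
    ‖lat g‖ ^ (-s) * (nrm g : ℝ) ^ 3 ≤ (3 : ℝ) ^ (5 - s / 2) * (1 / (nrm g : ℝ) ^ 2) := by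
  have h1 : (3 : ℝ) ≤ (nrm g : ℝ) := by exact_mod_cast hg
  have h0 : (0 : ℝ) < (nrm g : ℝ) := by linarith
  have h2 : ‖lat g‖ ^ (-s) = (nrm g : ℝ) ^ (-s / 2) := by
    rw [norm_lat, Real.sqrt_eq_rpow, ← Real.rpow_mul h0.le]
    congr 1
    ring
  have h3 : (nrm g : ℝ) ^ (5 - s / 2) ≤ (3 : ℝ) ^ (5 - s / 2) :=
    Real.rpow_le_rpow_of_nonpos (by norm_num) h1 (by linarith)
  have h4 : (nrm g : ℝ) ^ (-s / 2) * (nrm g : ℝ) ^ 3 =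
      (nrm g : ℝ) ^ (5 - s / 2) * (1 / (nrm g : ℝ) ^ 2) := by
    rw [← Real.rpow_natCast _ 3, ← Real.rpow_natCast _ 2, ← Real.rpow_add h0,
      one_div, ← Real.rpow_neg h0.le, ← Real.rpow_add h0]
    congr 1
    push_cast
    ring
  rw [h2, h4]
  exact mul_le_mul_of_nonneg_right h3 (by positivity)

private lemma sum_le {s : ℝ} (hs : 200 ≤ s) (G : Finset {p : ℤ × ℤ // 3 ≤ nrm p}) :
    ∑ g ∈ G, ‖lat g‖ ^ (-s) * (nrm g : ℝ) ^ 3 ≤ 114 * (3 : ℝ) ^ (5 - s / 2) := by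
  calc _ ≤ ∑ g ∈ G, (3 : ℝ) ^ (5 - s / 2) * (1 / (nrm g : ℝ) ^ 2) :=
        Finset.sum_le_sum (fun g _ => term_le hs g.2)
    _ = (3 : ℝ) ^ (5 - s / 2) * ∑ g ∈ G, (1 / (nrm g : ℝ) ^ 2) := by rw [Finset.mul_sum]
    _ ≤ (3 : ℝ) ^ (5 - s / 2) * 114 :=
        mul_le_mul_of_nonneg_left (sum_inv_sq G) (by positivity)
    _ = _ := by ring

private lemma three_pow {s : ℝ} (hs : 200 ≤ s) :
    (6 + 3 * s) * (3 : ℝ) ^ (5 - s / 2) ≤ 606 * (1 / 3 ^ 95) := by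
  have h1 : (3 : ℝ) ^ (5 - s / 2) * (3 : ℝ) ^ ((s - 200) / 2) = 1 / 3 ^ 95 := by
    rw [← Real.rpow_add (by norm_num)]
    rw [show 5 - s / 2 + (s - 200) / 2 = -((95 : ℕ) : ℝ) by push_cast; ring]
    rw [Real.rpow_neg (by norm_num), Real.rpow_natCast, one_div]
  have h2 : 1 + (s - 200) / 2 ≤ (3 : ℝ) ^ ((s - 200) / 2) := by
    rw [Real.rpow_def_of_pos (by norm_num)]
    have h3 : (1 : ℝ) ≤ Real.log 3 := by
      rw [Real.le_log_iff_exp_le (by norm_num)]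
      have := Real.exp_one_lt_d9
      linarith
    have h4 := Real.add_one_le_exp (Real.log 3 * ((s - 200) / 2))
    have h5 : (s - 200) / 2 ≤ Real.log 3 * ((s - 200) / 2) := by
      nlinarith
    linarith
  have h6 : 6 + 3 * s ≤ 606 * (3 : ℝ) ^ ((s - 200) / 2) := by linarith
  calc (6 + 3 * s) * (3 : ℝ) ^ (5 - s / 2)
      ≤ 606 * (3 : ℝ) ^ ((s - 200) / 2) * (3 : ℝ) ^ (5 - s / 2) :=
        mul_le_mul_of_nonneg_right h6 (by positivity)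
    _ = 606 * ((3 : ℝ) ^ (5 - s / 2) * (3 : ℝ) ^ ((s - 200) / 2)) := by ring
    _ = 606 * (1 / 3 ^ 95) := by rw [h1]

theorem Z_le {s : ℝ} (hs : 200 ≤ s) : Z s ≤ 6.006 := by
  have hs2 : 2 < s := by linarith
  rw [Z_split hs2]
  have h1 : ∑' p : {p : ℤ × ℤ // 3 ≤ nrm p}, ‖lat p‖ ^ (-s) ≤ 0.006 := by
    apply (summable_far hs2).tsum_le_of_sum_le
    intro G
    have h2 : ∑ g ∈ G, ‖lat g‖ ^ (-s) ≤ ∑ g ∈ G, ‖lat g‖ ^ (-s) * (nrm g : ℝ) ^ 3 := by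
      apply Finset.sum_le_sum
      intro g _
      have h3 : (3 : ℝ) ≤ (nrm g : ℝ) := by exact_mod_cast g.2
      have h4 : (1 : ℝ) ≤ (nrm g : ℝ) ^ 3 := one_le_pow₀ (by linarith)
      exact le_mul_of_one_le_right (by positivity) h4
    have h3 := sum_le hs G
    have h4 := three_pow hs
    have h5 : (3 : ℝ) ^ (5 - s / 2) ≤ (6 + 3 * s) * (3 : ℝ) ^ (5 - s / 2) :=
      le_mul_of_one_le_left (by positivity) (by linarith)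
    have h6 : (606 : ℝ) * (1 / 3 ^ 95) ≤ 1 / 10 ^ 30 := by norm_num
    have h7 : (3 : ℝ) ^ (5 - s / 2) ≤ 1 / 10 ^ 30 := by linarith
    calc _ ≤ 114 * (3 : ℝ) ^ (5 - s / 2) := h2.trans h3
      _ ≤ 114 * (1 / 10 ^ 30) := by linarith
      _ ≤ 0.006 := by norm_num
  linarith

theorem sumg {s : ℝ} (hs : 200 ≤ s) (G : Finset {p : ℤ × ℤ // 3 ≤ nrm p}) :
    ∑ g ∈ G, ‖lat g‖ ^ (-s) *
      (F0 s * (324 * (nrm g : ℝ) * (10 ^ 10 * (nrm g : ℝ) ^ 2))) ≤ 6 := by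
  have h1 : ∑ g ∈ G, ‖lat g‖ ^ (-s) *
      (F0 s * (324 * (nrm g : ℝ) * (10 ^ 10 * (nrm g : ℝ) ^ 2))) =
      F0 s * (324 * 10 ^ 10) * ∑ g ∈ G, ‖lat g‖ ^ (-s) * (nrm g : ℝ) ^ 3 := by
    rw [Finset.mul_sum]
    apply Finset.sum_congr rfl
    intro g _
    ring
  rw [h1]
  have hF : 0 ≤ F0 s := by unfold F0; linarith
  calc _ ≤ F0 s * (324 * 10 ^ 10) * (114 * (3 : ℝ) ^ (5 - s / 2)) :=
        mul_le_mul_of_nonneg_left (sum_le hs G) (by positivity)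
    _ = (324 * 10 ^ 10 * 114) * ((6 + 3 * s) * (3 : ℝ) ^ (5 - s / 2)) := by unfold F0; ring
    _ ≤ (324 * 10 ^ 10 * 114) * (606 * (1 / 3 ^ 95)) :=
        mul_le_mul_of_nonneg_left (three_pow hs) (by norm_num)
    _ ≤ 6 := by norm_num

end Pool.Agent.Hex
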