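import Pool.Agent.Hex.NN
import Pool.Agent.Hex.Count
import Pool.Agent.Hex.ShellSum
import Pool.Agent.Hex.Frame
import Pool.Agent.Hex.SumFar
import Pool.Agent.Hex.Acc2

/-! The lower bound for separated configurations (assembly). -/

open MeasureTheory Set Filter
open scoped ENNReal Topology

namespace Pool.Agent.Hex

lemma shE_nonneg (s : ℝ) (X : Set ℂ) (u : ℂ → ℂ) (g : ℤ × ℤ) (x : ℂ) : 0 ≤ shE s X u g x := by
  unfold shE
  split_ifs
  · exact Finset.sum_nonneg fun j _ => Real.rpow_nonneg (norm_nonneg _) _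
  · exact le_rfl

lemma F0_pos {s : ℝ} (hs : 200 ≤ s) : 0 < F0 s := by unfold F0; linarith

/-- The real inequality for a finite set of scales. -/
lemma finite_ineq (C : Cfg) (hX : Sep C.X) {s : ℝ} (hs : 200 ≤ s) {u : ℂ → ℂ}
    (hu : IsFrame C.X u) (hper : ∀ z, ∀ γ ∈ C.Γ, u (z + γ) = u z)
    (G : Finset {p : ℤ × ℤ // 3 ≤ nrm p}) :
    (6 + ∑ g ∈ G, ‖lat g‖ ^ (-s)) * (F0 s * C.S.card - P s * C.A) ≤
      ∑ x ∈ C.S, (6 * ∑ y ∈ nbF C.X x, ‖y - x‖ ^ (-s) + ∑ g ∈ G, shE s C.X u g x) := by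
  have h1 := nn_sum C hX hs
  set D := ∑ x ∈ C.S, dfc s C.X x with hD
  have hD0 : 0 ≤ D := Finset.sum_nonneg fun x hx => dfc_nonneg hX hs ⟨x, hx, 0, C.Γ.zero_mem, by simp⟩
  have hF := F0_pos hs
  -- each scale
  have h2 : ∀ g ∈ G, ‖lat g‖ ^ (-s) * (F0 s * C.S.card - P s * C.A) -
      ‖lat g‖ ^ (-s) * (F0 s * (324 * (nrm g : ℝ) * (10 ^ 10 * (nrm g : ℝ) ^ 2))) * D ≤
      ∑ x ∈ C.S, shE s C.X u g x := by
    intro g _
    have ha := shell_sum C hX hs hu.1 hper g.2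
    have hb := count_nonperf C hX hs hu g.2
    rw [← hD] at hb
    have hg0 : 0 ≤ ‖lat g‖ ^ (-s) := Real.rpow_nonneg (norm_nonneg _) _
    have hc : ‖lat g‖ ^ (-s) * (F0 s * nonperf C u g) ≤
        ‖lat g‖ ^ (-s) * (F0 s *
          (324 * (nrm g : ℝ) * (10 ^ 10 * (nrm g : ℝ) ^ 2 * D))) :=
      mul_le_mul_of_nonneg_left (mul_le_mul_of_nonneg_left hb hF.le) hg0
    nlinarith [ha, hc]
  have h3 := Finset.sum_le_sum h2
  rw [Finset.sum_sub_distrib, ← Finset.sum_mul, ← Finset.sum_mul] at h3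
  have h4 := sumg hs G
  have h5 : (∑ g ∈ G, ‖lat g‖ ^ (-s) *
      (F0 s * (324 * (nrm g : ℝ) * (10 ^ 10 * (nrm g : ℝ) ^ 2)))) * D ≤ 6 * D :=
    mul_le_mul_of_nonneg_right h4 hD0
  rw [Finset.sum_add_distrib, ← Finset.mul_sum, Finset.sum_comm (s := C.S) (t := G)]
  nlinarith [h1, h3, h5]

theorem sep_bound (C : Cfg) (hX : Sep C.X) {s : ℝ} (hs : 200 ≤ s) :
    ENNReal.ofReal (Z s / 6 * (F0 s * C.S.card - P s * C.A)) ≤ E s C.Γ C.S := by
  obtain ⟨u, hu, hper⟩ := exists_frame C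
  by_cases hE : E s C.Γ C.S = ⊤
  · rw [hE]; exact le_top
  have h6 : ∀ G : Finset {p : ℤ × ℤ // 3 ≤ nrm p},
      (6 + ∑ g ∈ G, ‖lat g‖ ^ (-s)) * (F0 s * C.S.card - P s * C.A) ≤
        6 * (E s C.Γ C.S).toReal := by
    intro G
    refine (finite_ineq C hX hs hu hper G).trans ?_
    have hpt : ∀ x ∈ C.S, ENNReal.ofReal
        (6 * ∑ y ∈ nbF C.X x, ‖y - x‖ ^ (-s) + ∑ g ∈ G, shE s C.X u g x) ≤
        6 * en s C.X x := by
      intro x hx
      have hxX : x ∈ C.X := ⟨x, hx, 0, C.Γ.zero_mem, by simp⟩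
      have hnb : 0 ≤ ∑ y ∈ nbF C.X x, ‖y - x‖ ^ (-s) :=
        Finset.sum_nonneg fun y _ => Real.rpow_nonneg (norm_nonneg _) _
      have hsh : 0 ≤ ∑ g ∈ G, shE s C.X u g x :=
        Finset.sum_nonneg fun g _ => shE_nonneg _ _ _ _ _
      refine le_trans ?_ (account hX (s := s) hu.1 hxX)
      rw [ENNReal.ofReal_add (by positivity) hsh, ENNReal.ofReal_mul (by norm_num)]
      have : ENNReal.ofReal 6 = 6 := by norm_num
      rw [this]
      refine add_le_add le_rfl ?_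
      rw [ENNReal.ofReal_sum_of_nonneg fun g _ => shE_nonneg _ _ _ _ _]
      exact ENNReal.sum_le_tsum G
    have hsum : ENNReal.ofReal (∑ x ∈ C.S,
        (6 * ∑ y ∈ nbF C.X x, ‖y - x‖ ^ (-s) + ∑ g ∈ G, shE s C.X u g x)) ≤
        6 * E s C.Γ C.S := by
      rw [ENNReal.ofReal_sum_of_nonneg]
      · unfold E
        rw [Finset.mul_sum]
        exact Finset.sum_le_sum hpt
      · intro x _
        have hnb : 0 ≤ ∑ y ∈ nbF C.X x, ‖y - x‖ ^ (-s) :=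
          Finset.sum_nonneg fun y _ => Real.rpow_nonneg (norm_nonneg _) _
        have hsh : 0 ≤ ∑ g ∈ G, shE s C.X u g x :=
          Finset.sum_nonneg fun g _ => shE_nonneg _ _ _ _ _
        positivity
    have h6E : (6 : ℝ≥0∞) * E s C.Γ C.S ≠ ⊤ := ENNReal.mul_ne_top (by norm_num) hE
    have := (ENNReal.ofReal_le_iff_le_toReal h6E).1 hsum
    rwa [ENNReal.toReal_mul, show ((6 : ℝ≥0∞)).toReal = 6 by norm_num] at this
  have hlim : Tendsto (fun G : Finset {p : ℤ × ℤ // 3 ≤ nrm p} =>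
      (6 + ∑ g ∈ G, ‖lat g‖ ^ (-s)) * (F0 s * C.S.card - P s * C.A)) atTop
      (𝓝 (Z s * (F0 s * C.S.card - P s * C.A))) := by
    rw [Z_split (by linarith)]
    have hs' := (summable_far (s := s) (by linarith)).hasSum
    exact (tendsto_const_nhds.add hs').mul_const _
  have hfin : Z s * (F0 s * C.S.card - P s * C.A) ≤ 6 * (E s C.Γ C.S).toReal :=
    le_of_tendsto' hlim h6
  rw [ENNReal.ofReal_le_iff_le_toReal hE]
  linarith

end Pool.Agent.Hex
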