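import Pool.Agent.Hex.Psi
import Pool.Agent.Hex.Gcell

/-!
Module `ShellPt` (energy of the shell `{g om^j}` plus area, at one perfect point).  Uses
`area_cell`, `gcell_eq`, `norm_ch_ge`, `psi_ge_one`, `F0_eq`.

PROOF.  `κ = |g| = ‖lat g‖ ≥ √3`, `κ² = nrm g`.  `c_j = ch X u x (lat g om^j)`,
`ρ_j = ‖c_j - x‖ ≥ κ - 1/100 > 0` (`norm_ch_ge`).
`gcell X u g x = cell κ x (range 6) c` (`gcell_eq`).  `area_cell`:
`π κ²/3 - Σ_j κ² qf(ρ_j/κ)/(2√3) ≤ |gcell|`.  Multiply by `P s/κ²` (`P s = 2√3 s`):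
`P s π/3 - Σ_j s qf(ρ_j/κ) ≤ P s |gcell|/κ²`.  As `(ρ_j/κ)^{-s} - s qf(ρ_j/κ) = ψ(ρ_j/κ) ≥ ψ(1)`
(`psi_ge_one`), `Σ_j (ρ_j/κ)^{-s} + P s |gcell|/κ² ≥ 6ψ(1) + P s π/3 = F0 s`; multiply by `κ^{-s}`
and use `(ρ_j/κ)^{-s} κ^{-s} = ρ_j^{-s}` (`Real.mul_rpow`), `shE = Σ_j ρ_j^{-s}` since `x` is
perfect.
-/

open MeasureTheory Set
open scoped ENNReal

namespace Pool.Agent.Hex

theorem shell_pt {X : Set ℂ} (hX : Sep X) {s : ℝ} (hs : 200 ≤ s) {u : ℂ → ℂ}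
    (hu : ∀ z, ‖u z‖ = 1) {g : ℤ × ℤ} (hg : 3 ≤ nrm g) {x : ℂ} (hp : Perf X u g x) :
    F0 s * ‖lat g‖ ^ (-s) ≤
      shE s X u g x + ‖lat g‖ ^ (-s) * (P s * (volume (gcell X u g x)).toReal / nrm g) := by
  have hκ3 := norm_lat_ge_sqrt3 hg
  have hs3 := sqrt3_gt
  have hκ : 0 < ‖lat g‖ := by linarith
  have hρ : ∀ j, 0 < ‖ch X u x (lat g * om ^ j) - x‖ := by
    intro j
    have h1 := norm_ch_ge hu hp j
    linarith
  have hne : ∀ j ∈ Finset.range 6, ch X u x (lat g * om ^ j) ≠ x := by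
    intro j _
    exact sub_ne_zero.1 (norm_pos_iff.1 (hρ j))
  have harea := area_cell ‖lat g‖ hκ x (Finset.range 6)
    (fun j => ch X u x (lat g * om ^ j)) hne
  rw [← gcell_eq hX hp] at harea
  have hk2 := norm_lat_sq g
  have hE : shE s X u g x = ∑ j ∈ Finset.range 6, ‖ch X u x (lat g * om ^ j) - x‖ ^ (-s) := by
    unfold shE
    rw [if_pos hp]
  have hpsi : ∀ j, psi s 1 ≤ psi s (‖ch X u x (lat g * om ^ j) - x‖ / ‖lat g‖) := fun j =>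
    psi_ge_one hs (div_pos (hρ j) hκ)
  have hsum : 6 * psi s 1 ≤ ∑ j ∈ Finset.range 6,
      psi s (‖ch X u x (lat g * om ^ j) - x‖ / ‖lat g‖) := by
    have h1 := Finset.card_nsmul_le_sum (Finset.range 6)
      (fun j => psi s (‖ch X u x (lat g * om ^ j) - x‖ / ‖lat g‖)) (psi s 1) (fun j _ => hpsi j)
    rw [Finset.card_range, nsmul_eq_mul] at h1
    exact_mod_cast h1
  -- normalised area inequality
  set V : ℝ := (volume (gcell X u g x)).toReal with hV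
  set Q : ℝ := ∑ j ∈ Finset.range 6, qf (‖ch X u x (lat g * om ^ j) - x‖ / ‖lat g‖) with hQ
  have hA : P s * (Real.pi / 3) - s * Q ≤ P s * V / nrm g := by
    have e1 : ∑ i ∈ Finset.range 6, ‖lat g‖ ^ 2 *
        qf (‖(fun j => ch X u x (lat g * om ^ j)) i - x‖ / ‖lat g‖) / (2 * Real.sqrt 3) =
        ‖lat g‖ ^ 2 * Q / (2 * Real.sqrt 3) := by
      rw [hQ, Finset.mul_sum, Finset.sum_div]
    rw [e1] at harea
    rw [← hk2]
    have hk0 : 0 < ‖lat g‖ ^ 2 := by positivity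
    rw [le_div_iff₀ hk0]
    have h3 := sqrt3_pos
    have hP : 0 < P s := by
      unfold P
      have : 0 < s := by linarith
      positivity
    have h4 := mul_le_mul_of_nonneg_left harea hP.le
    have e2 : P s * (Real.pi * ‖lat g‖ ^ 2 / 3 - ‖lat g‖ ^ 2 * Q / (2 * Real.sqrt 3)) =
        (P s * (Real.pi / 3) - s * Q) * ‖lat g‖ ^ 2 := by
      unfold P
      field_simp
    rw [e2] at h4
    exact h4
  have hsplit : ∑ j ∈ Finset.range 6, psi s (‖ch X u x (lat g * om ^ j) - x‖ / ‖lat g‖) =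
      (∑ j ∈ Finset.range 6, (‖ch X u x (lat g * om ^ j) - x‖ / ‖lat g‖) ^ (-s)) - s * Q := by
    unfold psi
    rw [Finset.sum_sub_distrib, hQ, Finset.mul_sum]
  have hmain : F0 s ≤ (∑ j ∈ Finset.range 6,
      (‖ch X u x (lat g * om ^ j) - x‖ / ‖lat g‖) ^ (-s)) + P s * V / nrm g := by
    have h0 := F0_eq s
    linarith
  have hkp : 0 < ‖lat g‖ ^ (-s) := Real.rpow_pos_of_pos hκ _
  have hfin := mul_le_mul_of_nonneg_right hmain hkp.le
  have e3 : (∑ j ∈ Finset.range 6, (‖ch X u x (lat g * om ^ j) - x‖ / ‖lat g‖) ^ (-s)) *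
      ‖lat g‖ ^ (-s) = shE s X u g x := by
    rw [hE, Finset.sum_mul]
    refine Finset.sum_congr rfl fun j _ => ?_
    rw [← Real.mul_rpow (div_nonneg (norm_nonneg _) hκ.le) hκ.le, div_mul_cancel₀ _ hκ.ne']
  rw [add_mul, e3] at hfin
  linarith

end Pool.Agent.Hex
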