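import Pool.Agent.Hex.ZetaHex

/-!
Module `StarA` (the configuration `(1/m) V2 ∩ Ω2`).  Uses `mem_V2`, `ww_eq`, `cc_pos`.

PROOFS.
`Ω2_inequiv`: two points of `Ω2` whose difference is in `V2` are equal (coordinates in `[0,1)`
differ by integers; `cc, ww` linearly independent over `ℝ`: compare imaginary parts first).
`star_cover`: every `y` with `m y ∈ V2` is `ω j + v` for some pair `(j, v)`, `v ∈ V2`:
`y = α cc + β ww` with `mα, mβ ∈ ℤ`; subtract `⌊α⌋ cc + ⌊β⌋ ww ∈ V2`.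
`star_exists`: `(i,j) ↦ (i cc + j ww)/m` is a bijection from `{0..m-1}²` onto the set
`{z ∈ Ω2 | m z ∈ V2}` (compose with `finProdFinEquiv`, `m * m = m^2`).
`star_card`: both `ω` and the enumeration of `star_exists` are bijections onto the same set
(`Fintype.card` / `Set.ncard`/ `Nat.card_congr`).
-/

open MeasureTheory Set
open scoped ENNReal

namespace Pool.Agent.Hex

private theorem StarA_lin {a b a' b' : ℝ}
    (h : (a : ℂ) * (cc : ℂ) + (b : ℂ) * ww = (a' : ℂ) * (cc : ℂ) + (b' : ℂ) * ww) :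
    a = a' ∧ b = b' := by
  have hcc := cc_pos
  have h3 := sqrt3_pos
  have him := congrArg Complex.im h
  have hre := congrArg Complex.re h
  simp only [ww, Complex.add_im, Complex.add_re, Complex.mul_im, Complex.mul_re,
    Complex.ofReal_re, Complex.ofReal_im, mul_zero, zero_mul, add_zero, zero_add, sub_zero]
    at him hre
  have hb : b = b' := by
    have h4 : 0 < cc * (Real.sqrt 3 / 2) := by positivity
    exact mul_right_cancel₀ h4.ne' him
  subst hb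
  refine ⟨?_, rfl⟩
  have h5 : a * cc = a' * cc := by linarith
  exact mul_right_cancel₀ hcc.ne' h5

private theorem StarA_V2 {a b : ℤ} : (a : ℂ) * (cc : ℂ) + (b : ℂ) * ww ∈ V2 := ⟨a, b, rfl⟩

theorem Ω2_inequiv {z w : ℂ} (hz : z ∈ Ω2) (hw : w ∈ Ω2) (h : z - w ∈ V2) : z = w := by
  obtain ⟨α, β, hα0, hα1, hβ0, hβ1, rfl⟩ := hz
  obtain ⟨α', β', hα0', hα1', hβ0', hβ1', rfl⟩ := hw
  obtain ⟨a, b, hab⟩ := h
  have h1 : ((α - α' : ℝ) : ℂ) * (cc : ℂ) + ((β - β' : ℝ) : ℂ) * ww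
      = ((a : ℝ) : ℂ) * (cc : ℂ) + ((b : ℝ) : ℂ) * ww := by
    push_cast
    linear_combination hab
  obtain ⟨h2, h3⟩ := StarA_lin h1
  have ha1 : a < 1 := by
    have : (a : ℝ) < ((1 : ℤ) : ℝ) := by push_cast; linarith
    exact_mod_cast this
  have ha2 : -1 < a := by
    have : ((-1 : ℤ) : ℝ) < (a : ℝ) := by push_cast; linarith
    exact_mod_cast this
  have hb1 : b < 1 := by
    have : (b : ℝ) < ((1 : ℤ) : ℝ) := by push_cast; linarith
    exact_mod_cast this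
  have hb2 : -1 < b := by
    have : ((-1 : ℤ) : ℝ) < (b : ℝ) := by push_cast; linarith
    exact_mod_cast this
  have ha : a = 0 := by omega
  have hb : b = 0 := by omega
  subst ha
  subst hb
  have e1 : α = α' := by
    have : (((0 : ℤ) : ℝ)) = 0 := Int.cast_zero
    linarith
  have e2 : β = β' := by
    have : (((0 : ℤ) : ℝ)) = 0 := Int.cast_zero
    linarith
  rw [e1, e2]

/-- the enumeration -/
private noncomputable def StarA_w (m : ℕ) (p : Fin m × Fin m) : ℂ :=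
  (((p.1 : ℕ) : ℝ) / (m : ℝ) : ℝ) * (cc : ℂ) + (((p.2 : ℕ) : ℝ) / (m : ℝ) : ℝ) * ww

private theorem StarA_w_inj (m : ℕ) (hm : 1 ≤ m) : Function.Injective (StarA_w m) := by
  intro p q h
  have hm0 : (m : ℝ) ≠ 0 := by positivity
  obtain ⟨h1, h2⟩ := StarA_lin h
  have e1 : ((p.1 : ℕ) : ℝ) = ((q.1 : ℕ) : ℝ) := by
    field_simp at h1
    exact h1
  have e2 : ((p.2 : ℕ) : ℝ) = ((q.2 : ℕ) : ℝ) := by
    field_simp at h2
    exact h2
  exact Prod.ext (Fin.ext (by exact_mod_cast e1)) (Fin.ext (by exact_mod_cast e2))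

private theorem StarA_w_mem (m : ℕ) (hm : 1 ≤ m) (p : Fin m × Fin m) :
    StarA_w m p ∈ {z | z ∈ Ω2 ∧ (m : ℂ) * z ∈ V2} := by
  have hm0 : (0 : ℝ) < (m : ℝ) := by exact_mod_cast hm
  have hmC : (m : ℂ) ≠ 0 := by
    have : m ≠ 0 := by omega
    exact_mod_cast this
  refine ⟨⟨_, _, by positivity, ?_, by positivity, ?_, rfl⟩, ⟨((p.1 : ℕ) : ℤ), ((p.2 : ℕ) : ℤ), ?_⟩⟩
  · rw [div_lt_one hm0]
    exact_mod_cast p.1.2
  · rw [div_lt_one hm0]
    exact_mod_cast p.2.2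
  · unfold StarA_w
    push_cast
    field_simp

private theorem StarA_cover (m : ℕ) (hm : 1 ≤ m) {y : ℂ} (hy : (m : ℂ) * y ∈ V2) :
    ∃ p : Fin m × Fin m, y - StarA_w m p ∈ V2 := by
  obtain ⟨a, b, hab⟩ := hy
  have hm0 : (0 : ℤ) < (m : ℤ) := by exact_mod_cast hm
  have hmC : (m : ℂ) ≠ 0 := by
    have : m ≠ 0 := by omega
    exact_mod_cast this
  have key : ∀ c : ℤ, ∃ i : Fin m, c = ((i : ℕ) : ℤ) + (c / (m : ℤ)) * (m : ℤ) := by
    intro c
    have h0 := Int.emod_nonneg c hm0.ne'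
    have h1 := Int.emod_lt_of_pos c hm0
    refine ⟨⟨(c % (m : ℤ)).toNat, ?_⟩, ?_⟩
    · omega
    · show c = (((c % (m : ℤ)).toNat : ℕ) : ℤ) + (c / (m : ℤ)) * (m : ℤ)
      rw [Int.toNat_of_nonneg h0]
      have := Int.emod_add_mul_ediv c (m : ℤ)
      linarith [mul_comm (c / (m : ℤ)) (m : ℤ)]
  obtain ⟨i, hi⟩ := key a
  obtain ⟨j, hj⟩ := key b
  refine ⟨(i, j), a / (m : ℤ), b / (m : ℤ), ?_⟩
  set A := a / (m : ℤ) with hA
  set B := b / (m : ℤ) with hB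
  have hiC : (a : ℂ) = ((i : ℕ) : ℂ) + (A : ℂ) * (m : ℂ) := by exact_mod_cast congrArg (Int.cast : ℤ → ℂ) hi
  have hjC : (b : ℂ) = ((j : ℕ) : ℂ) + (B : ℂ) * (m : ℂ) := by exact_mod_cast congrArg (Int.cast : ℤ → ℂ) hj
  apply mul_left_cancel₀ hmC
  have e : (m : ℂ) * StarA_w m (i, j) = ((i : ℕ) : ℂ) * (cc : ℂ) + ((j : ℕ) : ℂ) * ww := by
    unfold StarA_w
    push_cast
    field_simp
  rw [mul_sub, e, hab, hiC, hjC]
  ring

theorem star_exists (m : ℕ) (hm : 1 ≤ m) :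
    ∃ ω : Fin (m ^ 2) → ℂ, Function.Injective ω ∧ range ω = {z | z ∈ Ω2 ∧ (m : ℂ) * z ∈ V2} := by
  have hsq : m ^ 2 = m * m := sq m
  let e : Fin (m ^ 2) ≃ Fin m × Fin m := (finCongr hsq).trans finProdFinEquiv.symm
  refine ⟨fun k => StarA_w m (e k), (StarA_w_inj m hm).comp e.injective, ?_⟩
  ext z
  constructor
  · rintro ⟨k, rfl⟩
    exact StarA_w_mem m hm (e k)
  · intro hz
    obtain ⟨p, hp⟩ := StarA_cover m hm hz.2
    have := Ω2_inequiv hz.1 (StarA_w_mem m hm p).1 hp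
    refine ⟨e.symm p, ?_⟩
    show StarA_w m (e (e.symm p)) = z
    rw [Equiv.apply_symm_apply, this]

theorem star_card (m : ℕ) (hm : 1 ≤ m) {N : ℕ} (ω : Fin N → ℂ) (hi : Function.Injective ω)
    (hr : range ω = {z | z ∈ Ω2 ∧ (m : ℂ) * z ∈ V2}) : N = m ^ 2 := by
  obtain ⟨ω', hi', hr'⟩ := star_exists m hm
  have h1 := Nat.card_range_of_injective hi
  have h2 := Nat.card_range_of_injective hi'
  rw [hr] at h1
  rw [hr'] at h2
  rw [h1] at h2
  simpa using h2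

theorem star_cover (m : ℕ) (hm : 1 ≤ m) {N : ℕ} (ω : Fin N → ℂ)
    (hr : range ω = {z | z ∈ Ω2 ∧ (m : ℂ) * z ∈ V2}) {y : ℂ} (hy : (m : ℂ) * y ∈ V2) :
    ∃ j : Fin N, y - ω j ∈ V2 := by
  obtain ⟨p, hp⟩ := StarA_cover m hm hy
  have h1 : StarA_w m p ∈ range ω := by
    rw [hr]
    exact StarA_w_mem m hm p
  obtain ⟨j, hj⟩ := h1
  exact ⟨j, by rw [hj]; exact hp⟩

end Pool.Agent.Hex
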