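import Pool.Agent.Hex.StarA
import Pool.Agent.Hex.LattSum
import Pool.Agent.Hex.EpReal

/-!
Module `StarB` (energy of the configuration `(1/m) V2 ∩ Ω2`).  Uses `StarA`, `mem_V2`,
`latt_summable`, `latt_summable'`, `det2_V2` (`V2 = latt cc ww` by definition), `Ep_eq`.

PROOFS.
`star_sum`: for each `i`:
`Σ'_{v≠0} ‖v‖^{-s} + Σ_{j≠i} Σ'_v ‖ω i - ω j + v‖^{-s} = Σ_{y ∈ (1/m)V2, y ≠ 0} ‖y‖^{-s}
 = m^s ζ_{V2}(s)`: the map `(j, v) ↦ ω i - ω j + v` is a bijection from `Fin N × V2` minus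
`(i, 0)` onto `(1/m) V2 \ {0}` (surjective by `star_cover` applied to `ω i - y'`, injective by
`Ω2_inequiv` and injectivity of `ω`), and `y ↦ m y` is a bijection from `(1/m) V2 \ {0}` onto
`V2 \ {0}`, `‖y‖^{-s} = m^s ‖m y‖^{-s}`.  (Convenient in `ℝ≥0∞`, then `toReal`; or with
`Summable.tsum_sigma`, `Equiv.tsum_eq`.  Equivalently: the map
`(j,v) ↦ m (ω i - ω j + v)` is a bijection from `Fin N × V2` onto `V2` sending `(i,0)` to `0`.)
`Ep_star`: by `Ep_eq` (points of `Ω2` are inequivalent, `Ω2_inequiv`) and `star_sum`, with `N = m²`: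
`Σ_i Σ_{j≠i} Σ'_v = N (m^s - 1) ζ = N^{1+s/2} ζ - N ζ` (`m^s = (m²)^{s/2}`).
-/

open MeasureTheory Set
open scoped ENNReal

namespace Pool.Agent.Hex

private lemma zetaV_eq_tsum {s : ℝ} (hs : 2 < s) :
    zetaV s V2 = ∑' v : V2, ‖(v : ℂ)‖ ^ (-s) := by
  unfold zetaV
  have h := tsum_subtype_eq_of_support_subset (f := fun v : V2 => ‖(v : ℂ)‖ ^ (-s))
    (s := {v : V2 | v ≠ 0}) (by
      intro v hv
      show v ≠ 0
      rintro rfl
      apply hv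
      show ‖((0 : V2) : ℂ)‖ ^ (-s) = 0
      rw [AddSubgroup.coe_zero, norm_zero, Real.zero_rpow (by linarith)])
  exact h

private lemma star_mem {m : ℕ} {N : ℕ} {ω : Fin N → ℂ}
    (hr : range ω = {z | z ∈ Ω2 ∧ (m : ℂ) * z ∈ V2}) (j : Fin N) :
    ω j ∈ Ω2 ∧ (m : ℂ) * ω j ∈ V2 := by
  have h : ω j ∈ range ω := mem_range_self j
  rw [hr] at h
  exact h

private lemma star_emem {m : ℕ} {N : ℕ} {ω : Fin N → ℂ}
    (hr : range ω = {z | z ∈ Ω2 ∧ (m : ℂ) * z ∈ V2}) (i j : Fin N) (v : V2) :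
    (m : ℂ) * (ω i - ω j + (v : ℂ)) ∈ V2 := by
  have h1 := (star_mem hr i).2
  have h2 := (star_mem hr j).2
  have h3 : (m : ℂ) * (v : ℂ) ∈ V2 := by
    have := V2.nsmul_mem v.2 m
    rwa [nsmul_eq_mul] at this
  have h4 : (m : ℂ) * (ω i - ω j + (v : ℂ)) = (m : ℂ) * ω i - (m : ℂ) * ω j + (m : ℂ) * (v : ℂ) := by
    ring
  rw [h4]
  exact V2.add_mem (V2.sub_mem h1 h2) h3

theorem star_sum (m : ℕ) (hm : 1 ≤ m) {N : ℕ} (ω : Fin N → ℂ) (hi : Function.Injective ω)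
    (hr : range ω = {z | z ∈ Ω2 ∧ (m : ℂ) * z ∈ V2}) {s : ℝ} (hs : 2 < s) (i : Fin N) :
    zetaV s V2 + ∑ j ∈ Finset.univ.erase i, ∑' v : V2, ‖ω i - ω j + (v : ℂ)‖ ^ (-s) =
      (m : ℝ) ^ s * zetaV s V2 := by
  have hm0 : (m : ℂ) ≠ 0 := by
    have : m ≠ 0 := by omega
    exact_mod_cast this
  have hmp : (0 : ℝ) < m := by exact_mod_cast hm
  have h0 : zetaV s V2 = ∑' v : V2, ‖ω i - ω i + (v : ℂ)‖ ^ (-s) := by
    rw [zetaV_eq_tsum hs]
    refine tsum_congr fun v => ?_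
    rw [sub_self, zero_add]
  have h1 : zetaV s V2 + ∑ j ∈ Finset.univ.erase i, ∑' v : V2, ‖ω i - ω j + (v : ℂ)‖ ^ (-s) =
      ∑ j, ∑' v : V2, ‖ω i - ω j + (v : ℂ)‖ ^ (-s) := by
    rw [← Finset.add_sum_erase _ _ (Finset.mem_univ i), ← h0]
  have hsum : ∀ z : ℂ, Summable fun v : V2 => ‖z + (v : ℂ)‖ ^ (-s) := fun z => by
    have := latt_summable (v₁ := (cc : ℂ)) (v₂ := ww) (by rw [det2_V2]; norm_num) hs z
    exact this
  set e : Fin N × V2 → V2 := fun p => ⟨(m : ℂ) * (ω i - ω p.1 + (p.2 : ℂ)), star_emem hr i p.1 p.2⟩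
    with he
  have hbij : Function.Bijective e := by
    constructor
    · rintro ⟨j, v⟩ ⟨j', v'⟩ h
      have h2 : (m : ℂ) * (ω i - ω j + (v : ℂ)) = (m : ℂ) * (ω i - ω j' + (v' : ℂ)) :=
        congrArg Subtype.val h
      have h3 := mul_left_cancel₀ hm0 h2
      have h4 : ω j' - ω j = (v' : ℂ) - (v : ℂ) := by linear_combination h3
      have h5 : ω j' = ω j := by
        apply Ω2_inequiv (star_mem hr j').1 (star_mem hr j).1
        rw [h4]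
        exact V2.sub_mem v'.2 v.2
      have h6 : j' = j := hi h5
      subst h6
      have h7 : (v : ℂ) = (v' : ℂ) := by linear_combination h3
      have h8 : v = v' := Subtype.ext h7
      rw [h8]
    · rintro ⟨w, hw⟩
      have h2 : (m : ℂ) * (ω i - w / m) ∈ V2 := by
        have : (m : ℂ) * (ω i - w / m) = (m : ℂ) * ω i - w := by
          field_simp
        rw [this]
        exact V2.sub_mem (star_mem hr i).2 hw
      obtain ⟨j, hj⟩ := star_cover m hm ω hr h2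
      refine ⟨(j, ⟨-(ω i - w / m - ω j), V2.neg_mem hj⟩), ?_⟩
      apply Subtype.ext
      show (m : ℂ) * (ω i - ω j + -(ω i - w / m - ω j)) = w
      field_simp
      ring
  have hscale : ∀ y : ℂ, ‖y‖ ^ (-s) = (m : ℝ) ^ s * ‖(m : ℂ) * y‖ ^ (-s) := by
    intro y
    rw [norm_mul, Complex.norm_natCast, Real.mul_rpow hmp.le (norm_nonneg _), ← mul_assoc,
      ← Real.rpow_add hmp, add_neg_cancel, Real.rpow_zero, one_mul]
  rw [h1]
  have h2 : ∑ j, ∑' v : V2, ‖ω i - ω j + (v : ℂ)‖ ^ (-s) =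
      ∑' p : Fin N × V2, ‖ω i - ω p.1 + (p.2 : ℂ)‖ ^ (-s) := by
    have hsm : Summable fun p : Fin N × V2 => ‖ω i - ω p.1 + (p.2 : ℂ)‖ ^ (-s) := by
      have hw : Summable fun v : V2 => ‖(v : ℂ)‖ ^ (-s) := by
        have := hsum 0
        simpa using this
      have h3 : Summable fun p : Fin N × V2 => ‖((e p : V2) : ℂ)‖ ^ (-s) :=
        hw.comp_injective hbij.1
      have h4 := h3.mul_left ((m : ℝ) ^ s)
      refine h4.congr fun p => ?_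
      exact (hscale _).symm
    have h5 := hsm.tsum_prod' (fun j => hsum (ω i - ω j))
    rw [h5, tsum_fintype]
  rw [h2, zetaV_eq_tsum hs]
  have h3 : ∑' p : Fin N × V2, ‖ω i - ω p.1 + (p.2 : ℂ)‖ ^ (-s) =
      ∑' p : Fin N × V2, (m : ℝ) ^ s * ‖((e p : V2) : ℂ)‖ ^ (-s) :=
    tsum_congr fun p => hscale _
  rw [h3, tsum_mul_left]
  congr 1
  exact (Equiv.ofBijective e hbij).tsum_eq (fun v : V2 => ‖(v : ℂ)‖ ^ (-s))

theorem Ep_star (m : ℕ) (hm : 1 ≤ m) (ω : Fin (m ^ 2) → ℂ) (hi : Function.Injective ω)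
    (hr : range ω = {z | z ∈ Ω2 ∧ (m : ℂ) * z ∈ V2}) {s : ℝ} (hs : 2 < s) :
    Ep s V2 ω = ((((m ^ 2 : ℕ) : ℝ) ^ (1 + s / 2) * zetaV s V2 -
      ((m ^ 2 : ℕ) : ℝ) * zetaV s V2 - ((m ^ 2 : ℕ) : ℝ) * (((m ^ 2 : ℕ) : ℝ) - 1) *
        (2 * Real.pi / (Real.Gamma (s / 2) * (s - 2))) : ℝ) : EReal) := by
  have hmp : (0 : ℝ) < m := by exact_mod_cast hm
  have hne : ∀ i j, i ≠ j → ω i - ω j ∉ V2 := by
    intro i j hij h
    exact hij (hi (Ω2_inequiv (star_mem hr i).1 (star_mem hr j).1 h))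
  rw [Ep_eq ω hne]
  congr 1
  have h1 : ∀ i : Fin (m ^ 2), ∑ j ∈ Finset.univ.erase i, ∑' v : V2, ‖ω i - ω j + (v : ℂ)‖ ^ (-s)
      = (m : ℝ) ^ s * zetaV s V2 - zetaV s V2 := by
    intro i
    have := star_sum m hm ω hi hr hs i
    linarith
  rw [Finset.sum_congr rfl fun i _ => h1 i, Finset.sum_const, Finset.card_univ, Fintype.card_fin,
    nsmul_eq_mul]
  have h2 : ((m ^ 2 : ℕ) : ℝ) ^ (1 + s / 2) = ((m ^ 2 : ℕ) : ℝ) * (m : ℝ) ^ s := by
    have hp : (0 : ℝ) < ((m ^ 2 : ℕ) : ℝ) := by positivity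
    rw [Real.rpow_add hp, Real.rpow_one]
    congr 1
    push_cast
    rw [← Real.rpow_natCast, ← Real.rpow_mul hmp.le]
    congr 1
    push_cast
    ring
  rw [h2]
  ring

end Pool.Agent.Hex
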