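import Pool.Agent.Hex.Basic

/-!
Module `SumLat` (lattice sums).
-/

open MeasureTheory Set
open scoped ENNReal

namespace Pool.Agent.Hex

private lemma nrm_ge_fst (p : ℤ × ℤ) : (3 : ℝ) / 4 * (p.1 : ℝ) ^ 2 ≤ (nrm p : ℝ) := by
  unfold nrm
  push_cast
  nlinarith [sq_nonneg ((p.1 : ℝ) / 2 + p.2)]

private lemma nrm_ge_snd (p : ℤ × ℤ) : (3 : ℝ) / 4 * (p.2 : ℝ) ^ 2 ≤ (nrm p : ℝ) := by
  unfold nrm
  push_cast
  nlinarith [sq_nonneg ((p.2 : ℝ) / 2 + p.1)]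

private lemma norm_le_lat (x : Fin 2 → ℤ) :
    Real.sqrt 3 / 2 * ‖x‖ ≤ ‖lat (x 0, x 1)‖ := by
  have h3 := sqrt3_pos
  have key : ‖x‖ ≤ 2 / Real.sqrt 3 * ‖lat (x 0, x 1)‖ := by
    rw [pi_norm_le_iff_of_nonneg (by positivity)]
    have hsq := norm_lat_sq (x 0, x 1)
    have a0 := nrm_ge_fst (x 0, x 1)
    have a1 := nrm_ge_snd (x 0, x 1)
    have hs := sqrt3_sq
    have e : (2 / Real.sqrt 3 * ‖lat (x 0, x 1)‖) ^ 2 = 4 / 3 * (nrm (x 0, x 1) : ℝ) := by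
      rw [mul_pow, div_pow, hs, hsq]; norm_num
    intro i
    rw [Int.norm_eq_abs]
    apply abs_le_of_sq_le_sq _ (by positivity)
    rw [e]
    fin_cases i
    · simp only at a0 ⊢
      simpa using (by linarith : ((x 0 : ℝ)) ^ 2 ≤ 4 / 3 * (nrm (x 0, x 1) : ℝ))
    · simp only at a1 ⊢
      simpa using (by linarith : ((x 1 : ℝ)) ^ 2 ≤ 4 / 3 * (nrm (x 0, x 1) : ℝ))
  calc Real.sqrt 3 / 2 * ‖x‖ ≤ Real.sqrt 3 / 2 * (2 / Real.sqrt 3 * ‖lat (x 0, x 1)‖) :=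
        mul_le_mul_of_nonneg_left key (by positivity)
    _ = ‖lat (x 0, x 1)‖ := by field_simp

private lemma summable_all {s : ℝ} (hs : 2 < s) :
    Summable fun p : ℤ × ℤ => ‖lat p‖ ^ (-s) := by
  rw [← (finTwoArrowEquiv ℤ).summable_iff]
  have h := (EisensteinSeries.summable_one_div_norm_rpow hs).mul_left ((Real.sqrt 3 / 2) ^ (-s))
  refine Summable.of_nonneg_of_le (fun x => Real.rpow_nonneg (norm_nonneg _) _) (fun x => ?_) h
  change ‖lat (x 0, x 1)‖ ^ (-s) ≤ (Real.sqrt 3 / 2) ^ (-s) * ‖x‖ ^ (-s)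
  by_cases hx : x = 0
  · subst hx
    have : lat ((0 : Fin 2 → ℤ) 0, (0 : Fin 2 → ℤ) 1) = 0 := by
      simp [lat]
    rw [this, norm_zero, norm_zero, Real.zero_rpow (by linarith)]
    simp
  · have h3 := sqrt3_pos
    have hx' : 0 < ‖x‖ := norm_pos_iff.2 hx
    rw [← Real.mul_rpow (by positivity) (norm_nonneg _)]
    exact Real.rpow_le_rpow_of_nonpos (by positivity) (norm_le_lat x) (by linarith)

theorem summable_lat {s : ℝ} (hs : 2 < s) :
    Summable fun p : {p : ℤ × ℤ // p ≠ 0} => ‖lat p‖ ^ (-s) :=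
  (summable_all hs).subtype _

theorem summable_far {s : ℝ} (hs : 2 < s) :
    Summable fun p : {p : ℤ × ℤ // 3 ≤ nrm p} => ‖lat p‖ ^ (-s) :=
  (summable_all hs).subtype _

private def six : Finset (ℤ × ℤ) := {(1, 0), (0, 1), (-1, 1), (-1, 0), (0, -1), (1, -1)}

private lemma mem_six (p : ℤ × ℤ) : p ∈ six ↔ nrm p = 1 := by
  constructor
  · intro h
    simp only [six, Finset.mem_insert, Finset.mem_singleton] at h
    rcases h with rfl | rfl | rfl | rfl | rfl | rfl <;> rfl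
  · intro h
    have h0 := abs_sum_sq_le p
    rw [h] at h0
    have h1 : |p.1| + |p.2| ≤ 2 := by nlinarith [abs_nonneg p.1, abs_nonneg p.2]
    have a1 : |p.1| ≤ 2 := by linarith [abs_nonneg p.2]
    have a2 : |p.2| ≤ 2 := by linarith [abs_nonneg p.1]
    obtain ⟨l1, r1⟩ := abs_le.1 a1
    obtain ⟨l2, r2⟩ := abs_le.1 a2
    obtain ⟨a, b⟩ := p
    simp only [nrm] at h l1 r1 l2 r2
    simp only [six, Finset.mem_insert, Finset.mem_singleton, Prod.mk.injEq]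
    interval_cases a <;> interval_cases b <;> simp_all

theorem Z_split {s : ℝ} (hs : 2 < s) :
    Z s = 6 + ∑' p : {p : ℤ × ℤ // 3 ≤ nrm p}, ‖lat p‖ ^ (-s) := by
  have hset : {p : ℤ × ℤ | p ≠ 0} = (↑six : Set (ℤ × ℤ)) ∪ {p : ℤ × ℤ | 3 ≤ nrm p} := by
    ext p
    simp only [Set.mem_ofPred_eq, Set.mem_union, Finset.mem_coe, mem_six]
    have h0 := nrm_nonneg p
    have h1 : nrm p = 0 ↔ p = 0 := nrm_eq_zero
    have h2 := nrm_ne_two p
    have h3 : p ≠ 0 ↔ nrm p ≠ 0 := h1.not.symm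
    rw [h3]
    omega
  have hdis : Disjoint (↑six : Set (ℤ × ℤ)) {p : ℤ × ℤ | 3 ≤ nrm p} := by
    rw [Set.disjoint_left]
    intro p hp hp2
    have h1 : nrm p = 1 := (mem_six p).1 (Finset.mem_coe.1 hp)
    have h2 : 3 ≤ nrm p := hp2
    omega
  have hZ : Z s = ∑' p : ({p : ℤ × ℤ | p ≠ 0} : Set (ℤ × ℤ)), ‖lat p‖ ^ (-s) := rfl
  rw [hZ, hset]
  have hu := ((summable_all hs).subtype (↑six : Set (ℤ × ℤ))).tsum_union_disjoint hdis
    ((summable_all hs).subtype {p : ℤ × ℤ | 3 ≤ nrm p})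
  rw [hu]
  congr 1
  rw [Finset.tsum_subtype' six (fun p => ‖lat p‖ ^ (-s))]
  rw [Finset.sum_congr rfl (g := fun _ => (1 : ℝ))]
  · simp [six]
  · intro p hp
    rw [norm_lat, (mem_six p).1 hp]
    simp

end Pool.Agent.Hex
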